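import Pool.Agent.Helper610_Vergne.Defs

/-!
# Elementary facts on products given by structure constants
-/

set_option autoImplicit false

namespace Pool.Agent.Helper610_Vergne

open Matrix Module

section

variable {R : Type*} [CommRing R] {ι : Type*} [Fintype ι] (c : ι → ι → ι → R)

theorem br_add_left (x x' y : ι → R) : br c (x + x') y = br c x y + br c x' y := by
  funext k
  simp only [br, Pi.add_apply, add_mul, Finset.sum_add_distrib]

theorem br_add_right (x y y' : ι → R) : br c x (y + y') = br c x y + br c x y' := by
  funext k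
  simp only [br, Pi.add_apply, mul_add, add_mul, Finset.sum_add_distrib]

theorem br_smul_left (r : R) (x y : ι → R) : br c (r • x) y = r • br c x y := by
  funext k
  simp only [br, Pi.smul_apply, smul_eq_mul, Finset.mul_sum]
  refine Finset.sum_congr rfl fun i _ => Finset.sum_congr rfl fun j _ => ?_
  ring

theorem br_smul_right (r : R) (x y : ι → R) : br c x (r • y) = r • br c x y := by
  funext k
  simp only [br, Pi.smul_apply, smul_eq_mul, Finset.mul_sum]
  refine Finset.sum_congr rfl fun i _ => Finset.sum_congr rfl fun j _ => ?_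
  ring

theorem br_zero_left (y : ι → R) : br c 0 y = 0 := by
  have := br_smul_left c 0 0 y
  simpa using this

theorem br_zero_right (x : ι → R) : br c x 0 = 0 := by
  have := br_smul_right c 0 x 0
  simpa using this

theorem br_neg_left (x y : ι → R) : br c (-x) y = -br c x y := by
  have := br_smul_left c (-1) x y
  simpa using this

theorem br_neg_right (x y : ι → R) : br c x (-y) = -br c x y := by
  have := br_smul_right c (-1) x y
  simpa using this

theorem br_sub_left (x x' y : ι → R) : br c (x - x') y = br c x y - br c x' y := by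
  rw [sub_eq_add_neg, br_add_left, br_neg_left, ← sub_eq_add_neg]

theorem br_sub_right (x y y' : ι → R) : br c x (y - y') = br c x y - br c x y' := by
  rw [sub_eq_add_neg, br_add_right, br_neg_right, ← sub_eq_add_neg]

theorem br_sum_left {κ : Type*} (s : Finset κ) (f : κ → ι → R) (y : ι → R) :
    br c (∑ a ∈ s, f a) y = ∑ a ∈ s, br c (f a) y := by
  classical
  induction s using Finset.induction_on with
  | empty => simp [br_zero_left]
  | insert a s ha ih => rw [Finset.sum_insert ha, Finset.sum_insert ha, br_add_left, ih]

theorem br_sum_right {κ : Type*} (s : Finset κ) (f : κ → ι → R) (x : ι → R) :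
    br c x (∑ a ∈ s, f a) = ∑ a ∈ s, br c x (f a) := by
  classical
  induction s using Finset.induction_on with
  | empty => simp [br_zero_right]
  | insert a s ha ih => rw [Finset.sum_insert ha, Finset.sum_insert ha, br_add_right, ih]

theorem br_single [DecidableEq ι] (i j : ι) : br c (Pi.single i 1) (Pi.single j 1) = c i j := by
  funext k
  simp only [br]
  rw [Finset.sum_eq_single i, Finset.sum_eq_single j]
  · simp
  · intro j' _ hj'
    simp [hj']
  · simp
  · intro i' _ hi'
    simp [hi']
  · simp

/-- Skew symmetry. -/
theorem br_swap (h : ∀ x : ι → R, br c x x = 0) (x y : ι → R) : br c x y = -br c y x := by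
  have h1 := h (x + y)
  rw [br_add_left, br_add_right, br_add_right, h x, h y, zero_add, add_zero] at h1
  exact eq_neg_of_add_eq_zero_left h1

theorem ann_iff (β : ι → R) : Ann c β ↔ ∀ x y : ι → R, β ⬝ᵥ br c x y = 0 := by
  classical
  constructor
  · intro h x y
    simp only [dotProduct, br, Finset.mul_sum]
    rw [Finset.sum_comm]
    refine Finset.sum_eq_zero fun i _ => ?_
    rw [Finset.sum_comm]
    refine Finset.sum_eq_zero fun j _ => ?_
    have := h i j
    have h2 : ∑ k, β k * (x i * y j * c i j k) = (x i * y j) * ∑ k, β k * c i j k := by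
      rw [Finset.mul_sum]
      exact Finset.sum_congr rfl fun k _ => by ring
    rw [h2, this, mul_zero]
  · intro h i j
    have := h (Pi.single i 1) (Pi.single j 1)
    rw [br_single] at this
    exact this

theorem Ann.dot {R : Type*} [CommRing R] {ι : Type*} [Fintype ι] {c : ι → ι → ι → R}
    {β : ι → R} (h : Ann c β) (x y : ι → R) : β ⬝ᵥ br c x y = 0 :=
  (ann_iff c β).1 h x y

end

section Lft

variable {R : Type*} [CommRing R] {N : ℕ}

theorem lft_succAbove (β : Fin (N + 1) → R) (j : Fin (N + 1)) (u : Fin N → R) (i : Fin N) :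
    lft β j u (j.succAbove i) = u i := by
  rw [lft, Fin.insertNth_apply_succAbove]

theorem lft_same (β : Fin (N + 1) → R) (j : Fin (N + 1)) (u : Fin N → R) :
    lft β j u j = -∑ i, β (j.succAbove i) * u i := by
  rw [lft, Fin.insertNth_apply_same]

theorem dot_lft (β : Fin (N + 1) → R) (j : Fin (N + 1)) (hβ : β j = 1) (u : Fin N → R) :
    β ⬝ᵥ lft β j u = 0 := by
  rw [dotProduct, Fin.sum_univ_succAbove _ j, lft_same, hβ]
  simp only [lft_succAbove]
  ring

/-- A vector of the hyperplane is determined by its coordinates outside `j`. -/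
theorem eq_lft (β : Fin (N + 1) → R) (j : Fin (N + 1)) (hβ : β j = 1) (x : Fin (N + 1) → R)
    (hx : β ⬝ᵥ x = 0) : lft β j (fun i => x (j.succAbove i)) = x := by
  funext i
  refine Fin.succAboveCases j ?_ (fun i => ?_) i
  · rw [lft_same]
    rw [dotProduct, Fin.sum_univ_succAbove _ j, hβ, one_mul] at hx
    exact (eq_neg_of_add_eq_zero_left hx).symm
  · rw [lft_succAbove]

theorem lft_add (β : Fin (N + 1) → R) (j : Fin (N + 1)) (u v : Fin N → R) :
    lft β j (u + v) = lft β j u + lft β j v := by
  funext i
  refine Fin.succAboveCases j ?_ (fun i => ?_) i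
  · rw [Pi.add_apply, lft_same, lft_same, lft_same]
    simp only [Pi.add_apply, mul_add, Finset.sum_add_distrib]
    ring
  · rw [Pi.add_apply, lft_succAbove, lft_succAbove, lft_succAbove, Pi.add_apply]

theorem lft_smul (β : Fin (N + 1) → R) (j : Fin (N + 1)) (r : R) (u : Fin N → R) :
    lft β j (r • u) = r • lft β j u := by
  funext i
  refine Fin.succAboveCases j ?_ (fun i => ?_) i
  · rw [Pi.smul_apply, lft_same, lft_same, smul_eq_mul, mul_neg, Finset.mul_sum]
    congr 1
    refine Finset.sum_congr rfl fun i _ => ?_
    rw [Pi.smul_apply, smul_eq_mul]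
    ring
  · rw [Pi.smul_apply, lft_succAbove, lft_succAbove, Pi.smul_apply]

/-- `lft` as a linear map. -/
def lftL (β : Fin (N + 1) → R) (j : Fin (N + 1)) : (Fin N → R) →ₗ[R] (Fin (N + 1) → R) where
  toFun := lft β j
  map_add' := lft_add β j
  map_smul' := lft_smul β j

/-- Forgetting the coordinate `j`. -/
def forget (j : Fin (N + 1)) : (Fin (N + 1) → R) →ₗ[R] (Fin N → R) where
  toFun x := fun i => x (j.succAbove i)
  map_add' _ _ := rfl
  map_smul' _ _ := rfl

theorem lft_inj (β : Fin (N + 1) → R) (j : Fin (N + 1)) {u v : Fin N → R}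
    (h : lft β j u = lft β j v) : u = v := by
  funext i
  rw [← lft_succAbove β j u i, h, lft_succAbove]

end Lft

end Pool.Agent.Helper610_Vergne
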