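import Pool.Agent.Helper610_Vergne.Defs

/-!
# Hyperplane ideals in coordinates
-/

set_option autoImplicit false

namespace Pool.Agent.Helper610_Vergne.Charts

open Pool.Agent.Helper610_Vergne
open Matrix Module

section help

variable {R : Type*} [CommRing R] {ι : Type*} [Fintype ι]

theorem br_apply (c : ι → ι → ι → R) (x y : ι → R) (k : ι) :
    br c x y k = ∑ i, ∑ j, x i * y j * c i j k := rfl

/-- The product as a bilinear map. -/
def brL (c : ι → ι → ι → R) : (ι → R) →ₗ[R] (ι → R) →ₗ[R] (ι → R) :=
  LinearMap.mk₂ R (br c)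
    (fun x x' y => by
      funext k
      simp only [br_apply, Pi.add_apply, add_mul, Finset.sum_add_distrib])
    (fun a x y => by
      funext k
      simp only [br_apply, Pi.smul_apply, smul_eq_mul, Finset.mul_sum, mul_assoc])
    (fun x y y' => by
      funext k
      simp only [br_apply, Pi.add_apply, mul_add, add_mul, Finset.sum_add_distrib])
    (fun a x y => by
      funext k
      simp only [br_apply, Pi.smul_apply, smul_eq_mul, Finset.mul_sum]
      refine Finset.sum_congr rfl fun i _ => Finset.sum_congr rfl fun j _ => ?_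
      ring)

theorem brL_apply (c : ι → ι → ι → R) (x y : ι → R) : brL c x y = br c x y := rfl

theorem br_add_left (c : ι → ι → ι → R) (x x' y : ι → R) :
    br c (x + x') y = br c x y + br c x' y := by
  simp only [← brL_apply, map_add, LinearMap.add_apply]

theorem br_add_right (c : ι → ι → ι → R) (x y y' : ι → R) :
    br c x (y + y') = br c x y + br c x y' := by
  simp only [← brL_apply, map_add]

theorem br_sub_right (c : ι → ι → ι → R) (x y y' : ι → R) :
    br c x (y - y') = br c x y - br c x y' := by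
  simp only [← brL_apply, map_sub]

theorem br_neg_right (c : ι → ι → ι → R) (x y : ι → R) :
    br c x (-y) = -br c x y := by
  simp only [← brL_apply, map_neg]

theorem br_neg_left (c : ι → ι → ι → R) (x y : ι → R) :
    br c (-x) y = -br c x y := by
  simp only [← brL_apply, map_neg, LinearMap.neg_apply]

theorem br_smul_left (c : ι → ι → ι → R) (a : R) (x y : ι → R) :
    br c (a • x) y = a • br c x y := by
  simp only [← brL_apply, map_smul, LinearMap.smul_apply]

theorem br_smul_right (c : ι → ι → ι → R) (a : R) (x y : ι → R) :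
    br c x (a • y) = a • br c x y := by
  simp only [← brL_apply, map_smul]

theorem br_single [DecidableEq ι] (c : ι → ι → ι → R) (i j : ι) :
    br c (Pi.single i 1) (Pi.single j 1) = c i j := by
  funext k
  simp [br_apply, Pi.single_apply]

/-- antisymmetry -/
theorem br_anti {c : ι → ι → ι → R} (h : ∀ x : ι → R, br c x x = 0) (x y : ι → R) :
    br c y x = -br c x y := by
  have h1 := h (x + y)
  rw [br_add_left, br_add_right, br_add_right, h x, h y, zero_add, add_zero] at h1
  exact eq_neg_of_add_eq_zero_right h1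

/-- two bilinear maps that agree on the basis vectors are equal -/
theorem bil_ext [DecidableEq ι] {P : Type*} [AddCommGroup P] [Module R P]
    (F G : (ι → R) →ₗ[R] (ι → R) →ₗ[R] P)
    (h : ∀ i j, F (Pi.single i 1) (Pi.single j 1) = G (Pi.single i 1) (Pi.single j 1)) :
    F = G := by
  refine (Pi.basisFun R ι).ext fun i => (Pi.basisFun R ι).ext fun j => ?_
  simpa using h i j

end help

/-- 1 -/
theorem br_ext {R : Type*} [CommRing R] {N : ℕ} (b : Fin N → Fin N → Fin N → R) (A : Matrix (Fin N) (Fin N) R)
    (x y : Fin (N + 1) → R) :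
    br (ext b A) x y = Fin.cons 0 (br b (Fin.tail x) (Fin.tail y) + x 0 • A *ᵥ (Fin.tail y) - y 0 • A *ᵥ (Fin.tail x)) := by
  funext k
  refine Fin.cases ?_ (fun k => ?_) k
  · simp [br_apply, ext, Fin.sum_univ_succ]
  · simp only [br_apply, ext, Fin.sum_univ_succ, Fin.cons_zero, Fin.cons_succ, Pi.zero_apply,
      mul_zero, zero_add, Pi.add_apply, Pi.sub_apply, Pi.smul_apply, smul_eq_mul, mulVec,
      dotProduct, Finset.mul_sum, Finset.sum_add_distrib, Fin.tail]
    have e1 : ∑ i : Fin N, x 0 * y i.succ * A k i = ∑ i : Fin N, x 0 * (A k i * y i.succ) :=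
      Finset.sum_congr rfl fun i _ => by ring
    have e2 : ∑ i : Fin N, x i.succ * y 0 * -A k i = -∑ i : Fin N, y 0 * (A k i * x i.succ) := by
      rw [← Finset.sum_neg_distrib]
      exact Finset.sum_congr rfl fun i _ => by ring
    rw [e1, e2]
    ring

/-- 2 -/
theorem mem_Der {R : Type*} [CommRing R] {ι : Type*} [Fintype ι] [DecidableEq ι] (b : ι → ι → ι → R) (D : Matrix ι ι R) :
    D ∈ Der b ↔ ∀ x y : ι → R, D *ᵥ br b x y = br b (D *ᵥ x) y + br b x (D *ᵥ y) := by
  have key : ∀ i j k, delta b D i j k =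
      (D *ᵥ br b (Pi.single i 1) (Pi.single j 1)) k -
        br b (D *ᵥ Pi.single i 1) (Pi.single j 1) k -
        br b (Pi.single i 1) (D *ᵥ Pi.single j 1) k := by
    intro i j k
    have e1 : (D *ᵥ br b (Pi.single i 1) (Pi.single j 1)) k = ∑ l, D k l * b i j l := by
      rw [br_single]; rfl
    have e2 : br b (D *ᵥ Pi.single i 1) (Pi.single j 1) k = ∑ l, D l i * b l j k := by
      simp [br_apply, Pi.single_apply, Matrix.col_apply]
    have e3 : br b (Pi.single i 1) (D *ᵥ Pi.single j 1) k = ∑ l, D l j * b i l k := by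
      simp [br_apply, Pi.single_apply, Matrix.col_apply]
    rw [e1, e2, e3]
    rfl
  constructor
  · intro h x y
    have h' : delta b D = 0 := LinearMap.mem_ker.1 h
    have h1 : (brL b).compr₂ D.mulVecLin =
        (brL b).comp D.mulVecLin + (brL b).compl₂ D.mulVecLin := by
      refine bil_ext _ _ fun i j => ?_
      funext k
      have := key i j k
      rw [h'] at this
      simp only [Pi.zero_apply] at this
      simp only [LinearMap.compr₂_apply, LinearMap.add_apply, LinearMap.comp_apply,
        LinearMap.compl₂_apply, brL_apply, Matrix.mulVecLin_apply, Pi.add_apply]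
      linear_combination -this
    have h2 := congrArg (fun F => F x y) h1
    simpa [brL_apply] using h2
  · intro h
    refine LinearMap.mem_ker.2 ?_
    funext i j k
    rw [key, h]
    simp

section chart

variable {R : Type*} [CommRing R] {N : ℕ}

/-- `lft` as a linear map. -/
def lftL (β : Fin (N + 1) → R) (j : Fin (N + 1)) : (Fin N → R) →ₗ[R] (Fin (N + 1) → R) where
  toFun := lft β j
  map_add' u v := by
    funext k
    refine Fin.succAboveCases j ?_ (fun i => ?_) k
    · simp only [lft, Fin.insertNth_apply_same, Pi.add_apply, mul_add, Finset.sum_add_distrib]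
      ring
    · simp only [lft, Fin.insertNth_apply_succAbove, Pi.add_apply]
  map_smul' a u := by
    funext k
    refine Fin.succAboveCases j ?_ (fun i => ?_) k
    · simp only [lft, Fin.insertNth_apply_same, Pi.smul_apply, smul_eq_mul, RingHom.id_apply,
        mul_neg, Finset.mul_sum]
      congr 1
      exact Finset.sum_congr rfl fun i _ => by ring
    · simp only [lft, Fin.insertNth_apply_succAbove, Pi.smul_apply, RingHom.id_apply]

theorem lftL_apply (β : Fin (N + 1) → R) (j : Fin (N + 1)) (u : Fin N → R) :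
    lftL β j u = lft β j u := rfl

theorem lft_succAbove (β : Fin (N + 1) → R) (j : Fin (N + 1)) (u : Fin N → R) (i : Fin N) :
    lft β j u (j.succAbove i) = u i := by
  simp only [lft, Fin.insertNth_apply_succAbove]

theorem lft_same (β : Fin (N + 1) → R) (j : Fin (N + 1)) (u : Fin N → R) :
    lft β j u j = -∑ i, β (j.succAbove i) * u i := by
  simp only [lft, Fin.insertNth_apply_same]

theorem lft_inj (β : Fin (N + 1) → R) (j : Fin (N + 1)) {u v : Fin N → R}
    (h : lft β j u = lft β j v) : u = v := by
  funext i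
  rw [← lft_succAbove β j u i, h, lft_succAbove]

/-- a vector of the hyperplane is the lift of its coordinates -/
theorem lft_eq (β : Fin (N + 1) → R) (j : Fin (N + 1)) (hβ : β j = 1) (z : Fin (N + 1) → R)
    (hz : ∑ k, β k * z k = 0) : lft β j (fun i => z (j.succAbove i)) = z := by
  funext k
  refine Fin.succAboveCases j ?_ (fun i => ?_) k
  · rw [lft_same]
    rw [Fin.sum_univ_succAbove _ j, hβ, one_mul] at hz
    exact (eq_neg_of_add_eq_zero_left hz).symm
  · rw [lft_succAbove]

/-- products lie in the hyperplane -/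
theorem ann_br {ι : Type*} [Fintype ι] {c : ι → ι → ι → R} {β : ι → R} (hA : Ann c β)
    (x y : ι → R) : ∑ k, β k * br c x y k = 0 := by
  simp only [br_apply, Finset.mul_sum]
  rw [Finset.sum_comm]
  refine Finset.sum_eq_zero fun i _ => ?_
  rw [Finset.sum_comm]
  refine Finset.sum_eq_zero fun j _ => ?_
  have : ∑ k, β k * (x i * y j * c i j k) = x i * y j * ∑ k, β k * c i j k := by
    rw [Finset.mul_sum]
    exact Finset.sum_congr rfl fun k _ => by ring
  rw [this, hA i j, mul_zero]

end chart

/-- 3 -/
theorem lft_br {R : Type*} [CommRing R] {N : ℕ} (c : Fin (N + 1) → Fin (N + 1) → Fin (N + 1) → R)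
    (β : Fin (N + 1) → R) (j : Fin (N + 1)) (hβ : β j = 1) (hA : Ann c β) (u v : Fin N → R) :
    lft β j (br (chart c β j) u v) = br c (lft β j u) (lft β j v) := by
  rw [← lft_eq β j hβ (br c (lft β j u) (lft β j v)) (ann_br hA _ _)]
  congr 1
  have h1 : brL (chart c β j) = (((brL c).compl₂ (lftL β j)).comp (lftL β j)).compr₂
      (LinearMap.funLeft R R (fun i : Fin N => j.succAbove i)) := by
    refine bil_ext _ _ fun i i' => ?_
    rw [brL_apply, br_single]
    rfl
  have h2 := congrArg (fun F => F u v) h1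
  exact h2

/-- 4 -/
theorem lft_adj {R : Type*} [CommRing R] {N : ℕ} (c : Fin (N + 1) → Fin (N + 1) → Fin (N + 1) → R)
    (β : Fin (N + 1) → R) (j : Fin (N + 1)) (hβ : β j = 1) (hA : Ann c β) (u : Fin N → R) :
    lft β j (adj c β j *ᵥ u) = br c (Pi.single j 1) (lft β j u) := by
  rw [← lft_eq β j hβ (br c (Pi.single j 1) (lft β j u)) (ann_br hA _ _)]
  congr 1
  have h1 : (adj c β j).mulVecLin =
      (LinearMap.funLeft R R (fun i : Fin N => j.succAbove i)).comp
        ((brL c (Pi.single j 1)).comp (lftL β j)) := by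
    refine (Pi.basisFun R (Fin N)).ext fun i => ?_
    funext k
    simp only [Pi.basisFun_apply, Matrix.mulVecLin_apply, Matrix.mulVec_single_one]
    rfl
  have h2 := congrArg (fun F => F u) h1
  exact h2

/-- 5 -/
theorem iso_ext {N : ℕ} (c : Fin (N + 1) → Fin (N + 1) → Fin (N + 1) → ℂ) (hc : IsLieC c)
    (β : Fin (N + 1) → ℂ) (j : Fin (N + 1)) (hβ : β j = 1) (hA : Ann c β) :
    Iso c (ext (chart c β j) (adj c β j)) := by
  -- the decomposition of a vector
  have hdec : ∀ x : Fin (N + 1) → ℂ, x = (∑ k, β k * x k) • (Pi.single j 1 : Fin (N + 1) → ℂ) +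
      lft β j (fun i => x (j.succAbove i)) := by
    intro x
    funext k
    refine Fin.succAboveCases j ?_ (fun i => ?_) k
    · rw [Pi.add_apply, Pi.smul_apply, Pi.single_eq_same, lft_same,
        Fin.sum_univ_succAbove _ j, hβ, smul_eq_mul]
      ring
    · rw [Pi.add_apply, Pi.smul_apply, lft_succAbove, Pi.single_eq_of_ne (Fin.succAbove_ne j i)]
      simp
  let gL : (Fin (N + 1) → ℂ) →ₗ[ℂ] (Fin (N + 1) → ℂ) :=
    { toFun := fun x => Fin.cons (∑ k, β k * x k) fun i => x (j.succAbove i)
      map_add' := by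
        intro x y
        funext k
        refine Fin.cases ?_ (fun i => ?_) k
        · simp only [Fin.cons_zero, Pi.add_apply, mul_add, Finset.sum_add_distrib]
        · simp only [Fin.cons_succ, Pi.add_apply]
      map_smul' := by
        intro a x
        funext k
        refine Fin.cases ?_ (fun i => ?_) k
        · simp only [Fin.cons_zero, Pi.smul_apply, smul_eq_mul, RingHom.id_apply, Finset.mul_sum]
          exact Finset.sum_congr rfl fun i _ => by ring
        · simp only [Fin.cons_succ, Pi.smul_apply, RingHom.id_apply] }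
  let hL : (Fin (N + 1) → ℂ) →ₗ[ℂ] (Fin (N + 1) → ℂ) :=
    { toFun := fun a => a 0 • (Pi.single j 1 : Fin (N + 1) → ℂ) + lft β j (Fin.tail a)
      map_add' := by
        intro x y
        have e : Fin.tail (x + y) = Fin.tail x + Fin.tail y := rfl
        rw [e, ← lftL_apply, map_add, Pi.add_apply, add_smul, lftL_apply, lftL_apply]
        abel
      map_smul' := by
        intro a x
        have e : Fin.tail (a • x) = a • Fin.tail x := rfl
        rw [e, ← lftL_apply, map_smul, Pi.smul_apply, lftL_apply, RingHom.id_apply, smul_add,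
          smul_assoc] }
  have hgh : ∀ a, gL (hL a) = a := by
    intro a
    show (Fin.cons (∑ k, β k * (a 0 • (Pi.single j 1 : Fin (N + 1) → ℂ) + lft β j (Fin.tail a)) k)
      fun i => (a 0 • (Pi.single j 1 : Fin (N + 1) → ℂ) + lft β j (Fin.tail a)) (j.succAbove i)) = a
    funext k
    refine Fin.cases ?_ (fun i => ?_) k
    · rw [Fin.cons_zero, Fin.sum_univ_succAbove _ j, hβ]
      have e : ∀ i, (a 0 • (Pi.single j 1 : Fin (N + 1) → ℂ) + lft β j (Fin.tail a))
          (j.succAbove i) = Fin.tail a i := by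
        intro i
        rw [Pi.add_apply, Pi.smul_apply, lft_succAbove, Pi.single_eq_of_ne (Fin.succAbove_ne j i)]
        simp
      simp only [e, Pi.add_apply, Pi.smul_apply, Pi.single_eq_same, lft_same, smul_eq_mul]
      ring
    · rw [Fin.cons_succ, Pi.add_apply, Pi.smul_apply, lft_succAbove,
        Pi.single_eq_of_ne (Fin.succAbove_ne j i)]
      simp [Fin.tail]
  have hhg : ∀ x, hL (gL x) = x := by
    intro x
    exact (hdec x).symm
  refine ⟨LinearEquiv.ofLinearMap gL hL (LinearMap.ext hgh) (LinearMap.ext hhg), ?_⟩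
  intro x y
  show gL (br c x y) = br (ext (chart c β j) (adj c β j)) (gL x) (gL y)
  rw [br_ext]
  show (Fin.cons (∑ k, β k * br c x y k) fun i => br c x y (j.succAbove i)) =
    (Fin.cons 0 (br (chart c β j) (fun i => x (j.succAbove i)) (fun i => y (j.succAbove i)) +
      (∑ k, β k * x k) • adj c β j *ᵥ (fun i => y (j.succAbove i)) -
      (∑ k, β k * y k) • adj c β j *ᵥ (fun i => x (j.succAbove i))) : Fin (N + 1) → ℂ)
  rw [ann_br hA]
  congr 1
  apply lft_inj β j
  rw [lft_eq β j hβ _ (ann_br hA x y), ← lftL_apply, map_sub, map_add, map_smul, map_smul,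
    lftL_apply, lftL_apply, lftL_apply, lft_br c β j hβ hA, lft_adj c β j hβ hA,
    lft_adj c β j hβ hA]
  conv_lhs => rw [hdec x, hdec y]
  rw [br_add_left, br_add_right, br_add_right, br_smul_left, br_smul_left, br_smul_right,
    br_smul_right, hc.1, br_anti hc.1 (Pi.single j 1) (lft β j fun i => x (j.succAbove i))]
  module

/-- 6 -/
theorem chart_lie {N : ℕ} (c : Fin (N + 1) → Fin (N + 1) → Fin (N + 1) → ℂ) (hc : IsLieC c)
    (β : Fin (N + 1) → ℂ) (j : Fin (N + 1)) (hβ : β j = 1) (hA : Ann c β) :
    IsLieC (chart c β j) := by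
  have h0 : lft β j (0 : Fin N → ℂ) = 0 := (lftL β j).map_zero
  constructor
  · intro x
    apply lft_inj β j
    rw [lft_br c β j hβ hA, hc.1, h0]
  · intro x y z
    apply lft_inj β j
    rw [← lftL_apply, map_add, map_add, lftL_apply, lftL_apply, lftL_apply]
    simp only [lft_br c β j hβ hA]
    rw [hc.2, h0]

/-- 7 -/
theorem adj_der {N : ℕ} (c : Fin (N + 1) → Fin (N + 1) → Fin (N + 1) → ℂ) (hc : IsLieC c)
    (β : Fin (N + 1) → ℂ) (j : Fin (N + 1)) (hβ : β j = 1) (hA : Ann c β) :
    adj c β j ∈ Der (chart c β j) := by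
  rw [mem_Der]
  intro x y
  apply lft_inj β j
  have e : ∀ u v : Fin N → ℂ, lft β j (u + v) = lft β j u + lft β j v :=
    fun u v => (lftL β j).map_add u v
  rw [lft_adj c β j hβ hA, lft_br c β j hβ hA, e,
    lft_br c β j hβ hA, lft_br c β j hβ hA, lft_adj c β j hβ hA, lft_adj c β j hβ hA]
  have h1 := hc.2 (Pi.single j 1) (lft β j x) (lft β j y)
  rw [br_anti hc.1 (Pi.single j 1) (lft β j y), br_neg_right,
    br_anti hc.1 (br c (Pi.single j 1) (lft β j x)) (lft β j y)] at h1
  have h2 : br c (Pi.single j 1) (br c (lft β j x) (lft β j y)) =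
      br c (Pi.single j 1) (br c (lft β j x) (lft β j y)) +
        -br c (lft β j x) (br c (Pi.single j 1) (lft β j y)) +
        -br c (br c (Pi.single j 1) (lft β j x)) (lft β j y) +
        (br c (br c (Pi.single j 1) (lft β j x)) (lft β j y) +
          br c (lft β j x) (br c (Pi.single j 1) (lft β j y))) := by abel
  rw [h2, h1, zero_add]

/-- 8 -/
theorem ext_lie {N : ℕ} (b : Fin N → Fin N → Fin N → ℂ) (hb : IsLieC b)
    (A : Matrix (Fin N) (Fin N) ℂ) (hA : A ∈ Der b) : IsLieC (ext b A) := by
  rw [mem_Der] at hA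
  constructor
  · intro x
    rw [br_ext, hb.1, zero_add, sub_self]
    funext k
    refine Fin.cases ?_ (fun i => ?_) k
    · rfl
    · simp
  · intro x y z
    simp only [br_ext, Fin.tail_cons, Fin.cons_zero, zero_smul, sub_zero]
    funext k
    refine Fin.cases ?_ (fun i => ?_) k
    · simp
    · simp only [Pi.add_apply, Fin.cons_succ, Pi.zero_apply]
      set X := Fin.tail x
      set Y := Fin.tail y
      set Z := Fin.tail z
      have key : br b X (br b Y Z + y 0 • A *ᵥ Z - z 0 • A *ᵥ Y) +
          x 0 • A *ᵥ (br b Y Z + y 0 • A *ᵥ Z - z 0 • A *ᵥ Y) +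
          (br b Y (br b Z X + z 0 • A *ᵥ X - x 0 • A *ᵥ Z) +
          y 0 • A *ᵥ (br b Z X + z 0 • A *ᵥ X - x 0 • A *ᵥ Z)) +
          (br b Z (br b X Y + x 0 • A *ᵥ Y - y 0 • A *ᵥ X) +
          z 0 • A *ᵥ (br b X Y + x 0 • A *ᵥ Y - y 0 • A *ᵥ X)) = 0 := by
        simp only [br_add_right, br_sub_right, br_smul_right, Matrix.mulVec_add,
          Matrix.mulVec_sub, Matrix.mulVec_smul, hA]
        rw [br_anti hb.1 Z (A *ᵥ Y), br_anti hb.1 X (A *ᵥ Z), br_anti hb.1 Y (A *ᵥ X)]
        have h1 := hb.2 X Y Z
        have h2 : br b Z (br b X Y) = -(br b X (br b Y Z) + br b Y (br b Z X)) :=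
          eq_neg_of_add_eq_zero_right h1
        rw [h2]
        module
      have := congrFun key i
      simpa only [Pi.add_apply, Pi.zero_apply] using this

end Pool.Agent.Helper610_Vergne.Charts

namespace Pool.Agent.Helper610_Vergne

export Charts (br_ext mem_Der lft_br lft_adj iso_ext chart_lie adj_der ext_lie)

end Pool.Agent.Helper610_Vergne
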