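import Mathlib

/-!
# Definitions for the proof of Vergne's conjecture on rigid nilpotent Lie algebras
-/

set_option autoImplicit false

namespace Pool.Agent.Helper610_Vergne

open Matrix Module

section Alg

variable {R : Type*} [CommRing R] {ι : Type*} [Fintype ι]

/-- The product with structure constants `c`. -/
def br (c : ι → ι → ι → R) (x y : ι → R) : ι → R :=
  fun k => ∑ i, ∑ j, x i * y j * c i j k

/-- The coboundary of `E` for the product with structure constants `d`:
`E (d x y) - d (E x) y - d x (E y)` on basis vectors. -/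
def delta (d : ι → ι → ι → R) : Matrix ι ι R →ₗ[R] (ι → ι → ι → R) where
  toFun E := fun i j k => (∑ l, E k l * d i j l) - (∑ l, E l i * d l j k) - ∑ l, E l j * d i l k
  map_add' E F := by
    funext i j k
    simp only [Matrix.add_apply, Pi.add_apply, add_mul, Finset.sum_add_distrib]
    ring
  map_smul' r E := by
    funext i j k
    simp only [Matrix.smul_apply, Pi.smul_apply, smul_eq_mul, RingHom.id_apply, mul_assoc,
      ← Finset.mul_sum]
    ring

/-- The derivations (as matrices) of the product with structure constants `b`. -/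
def Der (b : ι → ι → ι → R) : Submodule R (Matrix ι ι R) := LinearMap.ker (delta b)

/-- The matrix of left multiplication by `u`. -/
def adm (b : ι → ι → ι → R) (u : ι → R) : Matrix ι ι R :=
  Matrix.of fun k i => ∑ l, u l * b l i k

/-- Lie brackets in terms of structure constants. -/
def IsLieC (c : ι → ι → ι → R) : Prop :=
  (∀ x : ι → R, br c x x = 0) ∧
    ∀ x y z : ι → R, br c x (br c y z) + br c y (br c z x) + br c z (br c x y) = 0

/-- The functional `β` vanishes on all products. -/
def Ann (c : ι → ι → ι → R) (β : ι → R) : Prop := ∀ i j, ∑ k, β k * c i j k = 0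

end Alg

section Fin

variable {R : Type*} [CommRing R] {N : ℕ}

/-- The point of the hyperplane `β = 0` (`β j = 1`) with coordinates `u` outside `j`. -/
def lft (β : Fin (N + 1) → R) (j : Fin (N + 1)) (u : Fin N → R) : Fin (N + 1) → R :=
  j.insertNth (-∑ i, β (j.succAbove i) * u i) u

/-- The structure constants of the hyperplane `β = 0` (`β j = 1`) in the coordinates outside `j`. -/
def chart (c : Fin (N + 1) → Fin (N + 1) → Fin (N + 1) → R) (β : Fin (N + 1) → R)
    (j : Fin (N + 1)) : Fin N → Fin N → Fin N → R :=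
  fun i i' k => br c (lft β j (Pi.single i 1)) (lft β j (Pi.single i' 1)) (j.succAbove k)

/-- The matrix of the multiplication by `e_j` on the hyperplane `β = 0`, in the coordinates
outside `j`. -/
def adj (c : Fin (N + 1) → Fin (N + 1) → Fin (N + 1) → R) (β : Fin (N + 1) → R)
    (j : Fin (N + 1)) : Matrix (Fin N) (Fin N) R :=
  Matrix.of fun k i => br c (Pi.single j 1) (lft β j (Pi.single i 1)) (j.succAbove k)

/-- The extension of the algebra with structure constants `b` by an element `e_0` acting by `A`. -/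
def ext (b : Fin N → Fin N → Fin N → R) (A : Matrix (Fin N) (Fin N) R) :
    Fin (N + 1) → Fin (N + 1) → Fin (N + 1) → R :=
  Fin.cons (Fin.cons 0 fun i => Fin.cons 0 fun k => A k i)
    (fun i => Fin.cons (Fin.cons 0 fun k => - A k i) fun i' => Fin.cons 0 fun k => b i i' k)

/-- The signed maximal minors. -/
def mins (ψ : Matrix (Fin (N + 1)) (Fin N) R) (j : Fin (N + 1)) : R :=
  (-1) ^ (j : ℕ) * (ψ.submatrix j.succAbove id).det

end Fin

section Cx

/-- Engel's condition. -/
def Nil {n : ℕ} (c : Fin n → Fin n → Fin n → ℂ) : Prop :=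
  ∀ x : Fin n → ℂ, ∃ m : ℕ, ∀ y : Fin n → ℂ, (br c x)^[m] y = 0

/-- Isomorphism of structure constants. -/
def Iso {n : ℕ} (c c' : Fin n → Fin n → Fin n → ℂ) : Prop :=
  ∃ g : (Fin n → ℂ) ≃ₗ[ℂ] (Fin n → ℂ), ∀ x y : Fin n → ℂ, g (br c x y) = br c' (g x) (g y)

/-- On every line of Lie brackets through a bracket isomorphic to `c`, all but finitely many
brackets are isomorphic to `c`. -/
def LineRigid {n : ℕ} (c : Fin n → Fin n → Fin n → ℂ) : Prop :=
  ∀ c₀ c₁ : Fin n → Fin n → Fin n → ℂ, (∀ t : ℂ, IsLieC (c₀ + t • c₁)) →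
    (∃ t₀ : ℂ, Iso c (c₀ + t₀ • c₁)) → {t : ℂ | ¬ Iso c (c₀ + t • c₁)}.Finite

/-- Hahn series in `s` with rational exponents and complex coefficients. -/
abbrev HQ : Type := HahnSeries ℚ ℂ

/-- The element `1 / s`. -/
noncomputable def T : HQ := HahnSeries.single (-1 : ℚ) (1 : ℂ)

/-- Structure constants as constant Hahn series. -/
noncomputable def cst {ι : Type*} (c : ι → ι → ι → ℂ) : ι → ι → ι → HQ :=
  fun i j k => HahnSeries.C (c i j k)

/-- No pole. -/
def Reg (x : HQ) : Prop := ∀ q : ℚ, q < 0 → x.coeff q = 0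

/-- Positive order. -/
def Small (x : HQ) : Prop := ∀ q : ℚ, q ≤ 0 → x.coeff q = 0

end Cx

end Pool.Agent.Helper610_Vergne
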