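import Pool.Agent.Helper610_Vergne.Defs

/-!
# The extension depends affinely on the derivation
-/

set_option autoImplicit false

namespace Pool.Agent.Helper610_Vergne

open Matrix Module

theorem ext_add_smul {N : ℕ} (b : Fin N → Fin N → Fin N → ℂ) (A D : Matrix (Fin N) (Fin N) ℂ)
    (t : ℂ) : ext b (A + t • D) = ext b A + t • ext 0 D := by
  funext i i' k
  refine Fin.cases ?_ (fun i => ?_) i
  · refine Fin.cases ?_ (fun i' => ?_) i'
    · simp [ext]
    · refine Fin.cases ?_ (fun k => ?_) k
      · simp [ext]
      · simp [ext]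
  · refine Fin.cases ?_ (fun i' => ?_) i'
    · refine Fin.cases ?_ (fun k => ?_) k
      · simp [ext]
      · simp [ext]; ring
    · refine Fin.cases ?_ (fun k => ?_) k
      · simp [ext]
      · simp [ext]

end Pool.Agent.Helper610_Vergne
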