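import Pool.Agent.Helper610_Vergne.Charts

/-!
# The homomorphism of the hyperplane
-/

set_option autoImplicit false

namespace Pool.Agent.Helper610_Vergne.PsiHom

open Pool.Agent.Helper610_Vergne
open Matrix Module

section Aux

variable {R : Type*} [CommRing R] {ι : Type*} [Fintype ι]

lemma psiaux_br_add_left (c : ι → ι → ι → R) (x x' y : ι → R) :
    br c (x + x') y = br c x y + br c x' y := by
  funext k
  simp only [br, Pi.add_apply, add_mul, Finset.sum_add_distrib]

lemma psiaux_br_smul_left (c : ι → ι → ι → R) (a : R) (x y : ι → R) :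
    br c (a • x) y = a • br c x y := by
  funext k
  simp only [br, Pi.smul_apply, smul_eq_mul, Finset.mul_sum, mul_assoc]

lemma psiaux_br_add_right (c : ι → ι → ι → R) (x y y' : ι → R) :
    br c x (y + y') = br c x y + br c x y' := by
  funext k
  simp only [br, Pi.add_apply, mul_add, add_mul, Finset.sum_add_distrib]

lemma psiaux_br_smul_right (c : ι → ι → ι → R) (a : R) (x y : ι → R) :
    br c x (a • y) = a • br c x y := by
  funext k
  simp only [br, Pi.smul_apply, smul_eq_mul, Finset.mul_sum]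
  refine Finset.sum_congr rfl fun i _ => Finset.sum_congr rfl fun j _ => ?_
  ring

/-- bilinear version of the bracket -/
def psiauxBL (c : ι → ι → ι → R) : (ι → R) →ₗ[R] (ι → R) →ₗ[R] (ι → R) :=
  LinearMap.mk₂ R (br c) (psiaux_br_add_left c) (psiaux_br_smul_left c)
    (psiaux_br_add_right c) (psiaux_br_smul_right c)

lemma psiauxBL_apply (c : ι → ι → ι → R) (x y : ι → R) : psiauxBL c x y = br c x y := rfl

lemma psiaux_mulVec {κ : Type*} (M : Matrix κ ι R) (x : ι → R) :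
    M *ᵥ x = ∑ i, x i • M.col i := by
  funext k
  simp only [Matrix.mulVec, dotProduct, Finset.sum_apply, Pi.smul_apply, smul_eq_mul,
    Matrix.col_apply]
  exact Finset.sum_congr rfl fun i _ => mul_comm _ _

lemma psiaux_br_eq (c : ι → ι → ι → R) (x y : ι → R) :
    br c x y = ∑ i, ∑ j, (x i * y j) • c i j := by
  funext k
  simp only [br, Finset.sum_apply, Pi.smul_apply, smul_eq_mul]

lemma psiaux_hom (c d : ι → ι → ι → R) (M : Matrix ι ι R)
    (h : ∀ i i', M *ᵥ (c i i') = br d (M.col i) (M.col i')) (x y : ι → R) :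
    M *ᵥ br c x y = br d (M *ᵥ x) (M *ᵥ y) := by
  rw [psiaux_br_eq c, ← psiauxBL_apply, psiaux_mulVec M x, psiaux_mulVec M y]
  simp only [map_sum, map_smul, LinearMap.sum_apply, LinearMap.smul_apply, psiauxBL_apply]
  rw [← Matrix.mulVecLin_apply]
  simp only [map_sum, map_smul, Matrix.mulVecLin_apply, h]
  rw [Finset.sum_comm]
  refine Finset.sum_congr rfl fun i _ => ?_
  rw [Finset.smul_sum]
  refine Finset.sum_congr rfl fun j _ => ?_
  rw [smul_smul, mul_comm]

lemma psiaux_single [DecidableEq ι] (c : ι → ι → ι → R) (i j : ι) :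
    br c (Pi.single i 1) (Pi.single j 1) = c i j := by
  rw [psiaux_br_eq]
  rw [Finset.sum_eq_single i]
  · rw [Finset.sum_eq_single j]
    · simp
    · intro b _ hb; simp [hb]
    · intro h; exact absurd (Finset.mem_univ _) h
  · intro b _ hb
    refine Finset.sum_eq_zero fun j' _ => ?_
    simp [hb]
  · intro h; exact absurd (Finset.mem_univ _) h

lemma psiaux_br_ext {N : ℕ} (b : Fin N → Fin N → Fin N → R) (A : Matrix (Fin N) (Fin N) R)
    (x y : Fin (N + 1) → R) (hx : x 0 = 0) (hy : y 0 = 0) :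
    br (ext b A) x y = Fin.cons 0 (br b (Fin.tail x) (Fin.tail y)) := by
  rw [br_ext, hx, hy, zero_smul, zero_smul, add_zero, sub_zero]

lemma psiaux_mins {K : Type*} [Field K] {N : ℕ} (φ : Matrix (Fin (N + 1)) (Fin (N + 1)) K)
    (hφ : φ.det ≠ 0) (j : Fin (N + 1)) :
    mins (φ⁻¹.submatrix id Fin.succ) j = φ.det⁻¹ * φ 0 j := by
  have hu : IsUnit φ.det := isUnit_iff_ne_zero.mpr hφ
  have h1 : φ⁻¹.adjugate = φ⁻¹.det • φ := by
    calc φ⁻¹.adjugate = φ⁻¹.adjugate * (φ⁻¹ * φ) := by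
          rw [Matrix.nonsing_inv_mul φ hu, Matrix.mul_one]
      _ = (φ⁻¹.adjugate * φ⁻¹) * φ := by rw [Matrix.mul_assoc]
      _ = φ⁻¹.det • φ := by rw [Matrix.adjugate_mul, Matrix.smul_mul, Matrix.one_mul]
  have h2 := Matrix.adjugate_fin_succ_eq_det_submatrix φ⁻¹ 0 j
  rw [h1, Matrix.smul_apply, smul_eq_mul, Matrix.det_nonsing_inv, Ring.inverse_eq_inv'] at h2
  rw [h2]
  unfold mins
  rw [Matrix.submatrix_submatrix]
  simp only [Fin.val_zero, add_zero]
  rfl

end Aux

/-- 1 -/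
theorem mins_eq {N : ℕ} (φ : Matrix (Fin (N + 1)) (Fin (N + 1)) HQ) (hφ : φ.det ≠ 0) (j : Fin (N + 1)) :
    mins (φ⁻¹.submatrix id Fin.succ) j = φ.det⁻¹ * φ 0 j :=
  psiaux_mins φ hφ j

/-- 2 -/
theorem ext_cst {N : ℕ} (b : Fin N → Fin N → Fin N → ℂ) (A D : Matrix (Fin N) (Fin N) ℂ) :
    cst (ext b A) + T • cst (ext 0 D) = ext (cst b) (A.map HahnSeries.C + T • D.map HahnSeries.C) := by
  funext i j k
  simp only [Pi.add_apply, Pi.smul_apply, smul_eq_mul, cst, ext]
  refine Fin.cases ?_ (fun i => ?_) i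
  · refine Fin.cases ?_ (fun j => ?_) j
    · simp
    · refine Fin.cases ?_ (fun k => ?_) k
      · simp
      · simp
  · refine Fin.cases ?_ (fun j => ?_) j
    · refine Fin.cases ?_ (fun k => ?_) k
      · simp
      · simp
        ring
    · refine Fin.cases ?_ (fun k => ?_) k
      · simp
      · simp

/-- 3 -/
theorem psi_hom {N : ℕ} (c : Fin (N + 1) → Fin (N + 1) → Fin (N + 1) → ℂ)
    (b : Fin N → Fin N → Fin N → ℂ) (A D : Matrix (Fin N) (Fin N) ℂ)
    (φ : Matrix (Fin (N + 1)) (Fin (N + 1)) HQ) (hφ : φ.det ≠ 0)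
    (hiso : ∀ i i', φ *ᵥ (cst c i i') =
      br (cst (ext b A) + T • cst (ext 0 D)) (φ.col i) (φ.col i')) :
    (∀ i i', (φ⁻¹.submatrix id Fin.succ) *ᵥ (cst b i i') =
      br (cst c) ((φ⁻¹.submatrix id Fin.succ).col i) ((φ⁻¹.submatrix id Fin.succ).col i')) ∧
    (∃ j, mins (φ⁻¹.submatrix id Fin.succ) j ≠ 0) ∧
    Ann (cst c) (mins (φ⁻¹.submatrix id Fin.succ)) := by
  have hu : IsUnit φ.det := isUnit_iff_ne_zero.mpr hφ
  rw [ext_cst] at hiso
  have hom := psiaux_hom (cst c) _ φ hiso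
  have hinv : ∀ u v, φ⁻¹ *ᵥ br (ext (cst b) (A.map HahnSeries.C + T • D.map HahnSeries.C)) u v =
      br (cst c) (φ⁻¹ *ᵥ u) (φ⁻¹ *ᵥ v) := by
    intro u v
    have h := hom (φ⁻¹ *ᵥ u) (φ⁻¹ *ᵥ v)
    rw [Matrix.mulVec_mulVec, Matrix.mulVec_mulVec, Matrix.mul_nonsing_inv φ hu,
      Matrix.one_mulVec, Matrix.one_mulVec] at h
    rw [← h, Matrix.mulVec_mulVec, Matrix.nonsing_inv_mul φ hu, Matrix.one_mulVec]
  refine ⟨?_, ?_, ?_⟩
  · intro i i'
    have e1 : ∀ w : Fin N → HQ, (φ⁻¹.submatrix id Fin.succ) *ᵥ w = φ⁻¹ *ᵥ (Fin.cons 0 w) := by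
      intro w
      funext k
      simp [Matrix.mulVec, dotProduct, Fin.sum_univ_succ]
    have e2 : ∀ i : Fin N, (φ⁻¹.submatrix id Fin.succ).col i =
        φ⁻¹ *ᵥ (Pi.single i.succ 1) := by
      intro i
      rw [Matrix.mulVec_single_one]
      rfl
    rw [e1, e2, e2, ← hinv]
    congr 1
    rw [psiaux_br_ext _ _ _ _ (by
      rw [Pi.single_apply, if_neg (Fin.succ_ne_zero i).symm]) (by
      rw [Pi.single_apply, if_neg (Fin.succ_ne_zero i').symm])]
    have e3 : ∀ i : Fin N, Fin.tail (Pi.single i.succ (1 : HQ) : Fin (N + 1) → HQ) =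
        Pi.single i 1 := by
      intro i
      funext k
      simp [Fin.tail, Pi.single_apply, Fin.succ_inj]
    rw [e3, e3, psiaux_single]
  · by_contra hcon
    push Not at hcon
    apply hφ
    apply Matrix.det_eq_zero_of_row_eq_zero 0
    intro j
    have h := hcon j
    rw [mins_eq φ hφ j] at h
    rcases mul_eq_zero.mp h with h | h
    · exact absurd h (inv_ne_zero hφ)
    · exact h
  · intro i i'
    have h1 : ∀ k, mins (φ⁻¹.submatrix id Fin.succ) k = φ.det⁻¹ * φ 0 k := mins_eq φ hφ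
    simp only [h1, mul_assoc]
    rw [← Finset.mul_sum]
    have h2 := congrFun (hiso i i') 0
    rw [br_ext, Fin.cons_zero] at h2
    have h3 : (φ *ᵥ (cst c i i')) 0 = ∑ k, φ 0 k * cst c i i' k := rfl
    rw [← h3, h2, mul_zero]

end Pool.Agent.Helper610_Vergne.PsiHom

namespace Pool.Agent.Helper610_Vergne

export PsiHom (mins_eq ext_cst psi_hom)

end Pool.Agent.Helper610_Vergne
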