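import Pool.Agent.Helper610_Vergne.KA
import Pool.Agent.Helper610_Vergne.Charts
import Pool.Agent.Helper610_Vergne.PsiHom

/-!
# The last step
-/

set_option autoImplicit false

namespace Pool.Agent.Helper610_Vergne.Fin

open Pool.Agent.Helper610_Vergne
open Matrix Module

/-! ### auxiliary lemmas for the final step -/

section FS

variable {R : Type*} [CommRing R]

/-- The product as a bilinear map. -/
noncomputable def fsBr {ι : Type*} [Fintype ι] (c : ι → ι → ι → R) :
    (ι → R) →ₗ[R] (ι → R) →ₗ[R] (ι → R) :=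
  LinearMap.mk₂ R (br c)
    (fun x y z => by
      funext k
      simp only [br, Pi.add_apply, add_mul, Finset.sum_add_distrib])
    (fun r x y => by
      funext k
      simp only [br, Pi.smul_apply, smul_eq_mul, mul_assoc, Finset.mul_sum])
    (fun x y z => by
      funext k
      simp only [br, Pi.add_apply, mul_add, add_mul, Finset.sum_add_distrib])
    (fun r x y => by
      funext k
      simp only [br, Pi.smul_apply, smul_eq_mul, Finset.mul_sum]
      refine Finset.sum_congr rfl fun i _ => Finset.sum_congr rfl fun j _ => ?_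
      ring)

theorem fsBr_apply {ι : Type*} [Fintype ι] (c : ι → ι → ι → R) (x y : ι → R) :
    fsBr c x y = br c x y := rfl

theorem fs_br_single {ι : Type*} [Fintype ι] [DecidableEq ι] (c : ι → ι → ι → R) (i j : ι) :
    br c (Pi.single i 1) (Pi.single j 1) = c i j := by
  funext k
  rw [br, Finset.sum_eq_single i, Finset.sum_eq_single j]
  · simp
  · intro j' _ hj'
    simp [Pi.single_eq_of_ne hj']
  · intro h; exact absurd (Finset.mem_univ _) h
  · intro i' _ hi'
    refine Finset.sum_eq_zero fun j' _ => ?_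
    simp [Pi.single_eq_of_ne hi']
  · intro h; exact absurd (Finset.mem_univ _) h

/-- Bilinear identities can be checked on basis vectors. -/
theorem fs_ext_bilin {ι κ : Type*} [Fintype ι] [DecidableEq ι]
    (f g : (ι → R) →ₗ[R] (ι → R) →ₗ[R] (κ → R))
    (h : ∀ i j, f (Pi.single i 1) (Pi.single j 1) = g (Pi.single i 1) (Pi.single j 1))
    (x y : ι → R) : f x y = g x y := by
  have h2 : f = g := by
    apply LinearMap.ext_basis (Pi.basisFun R ι) (Pi.basisFun R ι)
    intro i j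
    simpa only [Pi.basisFun_apply] using h i j
  rw [h2]

theorem fs_hom {ι κ : Type*} [Fintype ι] [DecidableEq ι] [Fintype κ] (c : ι → ι → ι → R)
    (d : κ → κ → κ → R)
    (φ ψ : Matrix κ ι R)
    (h : ∀ i i', φ *ᵥ (c i i') = br d (ψ.col i) (ψ.col i')) (x y : ι → R) :
    φ *ᵥ br c x y = br d (ψ *ᵥ x) (ψ *ᵥ y) := by
  have := fs_ext_bilin ((fsBr c).compr₂ φ.mulVecLin)
    ((fsBr d).compl₁₂ ψ.mulVecLin ψ.mulVecLin) (by
      intro i j
      simp only [LinearMap.compr₂_apply, LinearMap.compl₁₂_apply, Matrix.mulVecLin_apply,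
        fsBr_apply, fs_br_single, Matrix.mulVec_single_one]
      exact h i j) x y
  simpa only [LinearMap.compr₂_apply, LinearMap.compl₁₂_apply, Matrix.mulVecLin_apply,
        fsBr_apply] using this

theorem fs_adm_mulVec {ι : Type*} [Fintype ι] (b : ι → ι → ι → R) (u y : ι → R) :
    adm b u *ᵥ y = br b u y := by
  funext k
  simp only [Matrix.mulVec, dotProduct, adm, Matrix.of_apply, br, Finset.sum_mul]
  rw [Finset.sum_comm]
  refine Finset.sum_congr rfl fun i _ => Finset.sum_congr rfl fun j _ => ?_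
  ring

end FS


section FSdel

open HahnSeries

theorem fs_del_sum {κ : Type*} (s : Finset κ) (f : κ → HQ) :
    del (∑ i ∈ s, f i) = ∑ i ∈ s, del (f i) := map_sum del f s

theorem fs_map_mul {l m n : Type*} [Fintype m] (M : Matrix l m HQ) (M' : Matrix m n HQ) :
    (M * M').map del = M.map del * M' + M * M'.map del := by
  ext1 i j
  rw [Matrix.map_apply, Matrix.mul_apply, Matrix.add_apply, fs_del_sum, Matrix.mul_apply,
    Matrix.mul_apply, ← Finset.sum_add_distrib]
  refine Finset.sum_congr rfl fun k _ => ?_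
  rw [del_mul, Matrix.map_apply, Matrix.map_apply]
  ring

theorem fs_map_C {m n : Type*} (M : Matrix m n ℂ) :
    (M.map (C : ℂ → HQ)).map del = 0 := by
  ext1 i j
  rw [Matrix.map_apply, Matrix.map_apply, del_C, Matrix.zero_apply]

theorem fs_del_br {ι : Type*} [Fintype ι] (b : ι → ι → ι → ℂ) (x y : ι → HQ) (k : ι) :
    del (br (cst b) x y k) = br (cst b) (fun i => del (x i)) y k +
      br (cst b) x (fun i => del (y i)) k := by
  unfold br
  rw [fs_del_sum, ← Finset.sum_add_distrib]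
  refine Finset.sum_congr rfl fun i _ => ?_
  rw [fs_del_sum, ← Finset.sum_add_distrib]
  refine Finset.sum_congr rfl fun j _ => ?_
  unfold cst
  rw [del_mul, del_mul, del_C]
  ring

/-- Extension of a functional to matrices over Hahn series. -/
noncomputable def fsChi {ι : Type*} [Fintype ι] [DecidableEq ι] (χ : Matrix ι ι ℂ →ₗ[ℂ] ℂ)
    (M : Matrix ι ι HQ) : HQ := ∑ i, ∑ j, (C (χ (Matrix.single i j 1)) : HQ) * M i j

theorem fsChi_add {ι : Type*} [Fintype ι] [DecidableEq ι] (χ : Matrix ι ι ℂ →ₗ[ℂ] ℂ)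
    (M M' : Matrix ι ι HQ) : fsChi χ (M + M') = fsChi χ M + fsChi χ M' := by
  simp only [fsChi, Matrix.add_apply, mul_add, Finset.sum_add_distrib]

theorem fsChi_sub {ι : Type*} [Fintype ι] [DecidableEq ι] (χ : Matrix ι ι ℂ →ₗ[ℂ] ℂ)
    (M M' : Matrix ι ι HQ) : fsChi χ (M - M') = fsChi χ M - fsChi χ M' := by
  simp only [fsChi, Matrix.sub_apply, mul_sub, Finset.sum_sub_distrib]

theorem fsChi_zero {ι : Type*} [Fintype ι] [DecidableEq ι] (χ : Matrix ι ι ℂ →ₗ[ℂ] ℂ) :
    fsChi χ 0 = 0 := by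
  simp only [fsChi, Matrix.zero_apply, mul_zero, Finset.sum_const_zero]

theorem fsChi_smul {ι : Type*} [Fintype ι] [DecidableEq ι] (χ : Matrix ι ι ℂ →ₗ[ℂ] ℂ)
    (r : HQ) (M : Matrix ι ι HQ) : fsChi χ (r • M) = r * fsChi χ M := by
  simp only [fsChi, Matrix.smul_apply, smul_eq_mul, Finset.mul_sum]
  refine Finset.sum_congr rfl fun i _ => Finset.sum_congr rfl fun j _ => ?_
  ring

theorem fsChi_sum {ι κ : Type*} [Fintype ι] [DecidableEq ι] (χ : Matrix ι ι ℂ →ₗ[ℂ] ℂ)
    (s : Finset κ) (M : κ → Matrix ι ι HQ) : fsChi χ (∑ k ∈ s, M k) = ∑ k ∈ s, fsChi χ (M k) := by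
  classical
  induction s using Finset.induction_on with
  | empty => rw [Finset.sum_empty, Finset.sum_empty, fsChi_zero]
  | insert a s ha ih => rw [Finset.sum_insert ha, Finset.sum_insert ha, fsChi_add, ih]

theorem fsChi_C {ι : Type*} [Fintype ι] [DecidableEq ι] (χ : Matrix ι ι ℂ →ₗ[ℂ] ℂ)
    (M : Matrix ι ι ℂ) : fsChi χ (M.map (C : ℂ → HQ)) = C (χ M) := by
  unfold fsChi
  conv_rhs => rw [Matrix.matrix_eq_sum_single M]
  rw [map_sum, map_sum]
  refine Finset.sum_congr rfl fun i _ => ?_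
  rw [map_sum, map_sum]
  refine Finset.sum_congr rfl fun j _ => ?_
  have h : Matrix.single i j (M i j) = M i j • Matrix.single i j (1 : ℂ) := by
    rw [Matrix.smul_single, smul_eq_mul, mul_one]
  rw [h, map_smul, smul_eq_mul, map_mul, Matrix.map_apply]
  ring

theorem fs_comm_smul {ι : Type*} [Fintype ι] (r : HQ) (X Y : Matrix ι ι HQ) :
    (r • X) * Y - Y * (r • X) = r • (X * Y - Y * X) := by
  ext1 i j
  simp only [Matrix.sub_apply, Matrix.mul_apply, Matrix.smul_apply, smul_eq_mul, mul_sub,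
    Finset.mul_sum]
  congr 1
  · exact Finset.sum_congr rfl fun k _ => by ring
  · exact Finset.sum_congr rfl fun k _ => by ring

theorem fs_comm_smul' {ι : Type*} [Fintype ι] (r : HQ) (X Y : Matrix ι ι HQ) :
    Y * (r • X) - (r • X) * Y = r • (Y * X - X * Y) := by
  ext1 i j
  simp only [Matrix.sub_apply, Matrix.mul_apply, Matrix.smul_apply, smul_eq_mul, mul_sub,
    Finset.mul_sum]
  congr 1
  · exact Finset.sum_congr rfl fun k _ => by ring
  · exact Finset.sum_congr rfl fun k _ => by ring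

theorem fsChi_comm {ι : Type*} [Fintype ι] [DecidableEq ι] (b : ι → ι → ι → ℂ)
    (χ : Matrix ι ι ℂ →ₗ[ℂ] ℂ)
    (h : ∀ X ∈ Der b, ∀ Y ∈ Der b, χ (X * Y - Y * X) = 0) :
    ∀ X ∈ Der (cst b), ∀ Y ∈ Der (cst b), fsChi χ (X * Y - Y * X) = 0 := by
  intro X hX Y hY
  rw [Der_cst_span] at hX hY
  induction hX using Submodule.span_induction with
  | mem X hX =>
    obtain ⟨X', hX', rfl⟩ := hX
    induction hY using Submodule.span_induction with
    | mem Y hY =>
      obtain ⟨Y', hY', rfl⟩ := hY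
      have h2 : X'.map (C : ℂ → HQ) * Y'.map (C : ℂ → HQ) -
          Y'.map (C : ℂ → HQ) * X'.map (C : ℂ → HQ) = (X' * Y' - Y' * X').map (C : ℂ → HQ) := by
        have e1 := Matrix.map_mul (f := (C : ℂ →+* HQ)) (L := X') (M := Y')
        have e2 := Matrix.map_mul (f := (C : ℂ →+* HQ)) (L := Y') (M := X')
        rw [← e1, ← e2]
        ext1 i j
        simp only [Matrix.map_apply, Matrix.sub_apply, map_sub]
      change fsChi χ (X'.map (C : ℂ → HQ) * Y'.map (C : ℂ → HQ) -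
          Y'.map (C : ℂ → HQ) * X'.map (C : ℂ → HQ)) = 0
      rw [h2, fsChi_C, h X' hX' Y' hY', map_zero]
    | zero => rw [mul_zero, zero_mul, sub_zero, fsChi_zero]
    | add Y Y' _ _ ih ih' =>
      rw [mul_add, add_mul, add_sub_add_comm, fsChi_add, ih, ih', add_zero]
    | smul r Y _ ih =>
      rw [fs_comm_smul', fsChi_smul, ih, mul_zero]
  | zero => rw [mul_zero, zero_mul, sub_zero, fsChi_zero]
  | add X X' _ _ ih ih' =>
    rw [mul_add, add_mul, add_sub_add_comm, fsChi_add, ih, ih', add_zero]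
  | smul r X _ ih =>
    rw [fs_comm_smul, fsChi_smul, ih, mul_zero]

theorem fsChi_adm {ι : Type*} [Fintype ι] [DecidableEq ι] (b : ι → ι → ι → ℂ)
    (χ : Matrix ι ι ℂ →ₗ[ℂ] ℂ) (h : ∀ u, χ (adm b u) = 0) (u : ι → HQ) :
    fsChi χ (adm (cst b) u) = 0 := by
  have h1 : adm (cst b) u = ∑ l, u l • (adm b (Pi.single l 1)).map (C : ℂ → HQ) := by
    ext1 k i
    rw [Matrix.sum_apply]
    unfold adm
    rw [Matrix.of_apply]
    refine Finset.sum_congr rfl fun l _ => ?_
    rw [Matrix.smul_apply, Matrix.map_apply, Matrix.of_apply, smul_eq_mul]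
    unfold cst
    congr 2
    rw [Finset.sum_eq_single l]
    · simp
    · intro l' _ hl'
      simp [Pi.single_eq_of_ne hl']
    · intro h'; exact absurd (Finset.mem_univ _) h'
  rw [h1, fsChi_sum]
  refine Finset.sum_eq_zero fun l _ => ?_
  rw [fsChi_smul, fsChi_C, h, map_zero, mul_zero]

theorem fs_Der_map {ι : Type*} [Fintype ι] [DecidableEq ι] (b : ι → ι → ι → ℂ)
    (D : Matrix ι ι ℂ) (hD : D ∈ Der b) : D.map (C : ℂ → HQ) ∈ Der (cst b) := by
  rw [Der_cst_span]
  exact Submodule.subset_span ⟨D, hD, rfl⟩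

end FSdel


section FSlft

variable {R : Type*} [CommRing R] {N : ℕ}

theorem fs_lft_sum (β : Fin (N + 1) → R) (j : Fin (N + 1)) (hβ : β j = 1) (u : Fin N → R) :
    ∑ k, β k * lft β j u k = 0 := by
  rw [Fin.sum_univ_succAbove _ j]
  simp only [lft, Fin.insertNth_apply_same, Fin.insertNth_apply_succAbove, hβ, one_mul]
  rw [neg_add_cancel]

theorem fs_lft_succAbove (β : Fin (N + 1) → R) (j : Fin (N + 1)) (u : Fin N → R) (i : Fin N) :
    lft β j u (j.succAbove i) = u i := by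
  simp only [lft, Fin.insertNth_apply_succAbove]

theorem fs_lft_same (β : Fin (N + 1) → R) (j : Fin (N + 1)) (u : Fin N → R) :
    lft β j u j = -∑ i, β (j.succAbove i) * u i := by
  simp only [lft, Fin.insertNth_apply_same]

/-- The matrix of the lift. -/
def fsL (β : Fin (N + 1) → R) (j : Fin (N + 1)) : Matrix (Fin (N + 1)) (Fin N) R :=
  Matrix.of fun k i => lft β j (Pi.single i 1) k

theorem fsL_mulVec (β : Fin (N + 1) → R) (j : Fin (N + 1)) (u : Fin N → R) :
    fsL β j *ᵥ u = lft β j u := by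
  funext k
  simp only [Matrix.mulVec, dotProduct, fsL, Matrix.of_apply]
  rcases Fin.eq_self_or_eq_succAbove j k with rfl | ⟨i, rfl⟩
  · rw [fs_lft_same, ← Finset.sum_neg_distrib]
    refine Finset.sum_congr rfl fun i _ => ?_
    rw [fs_lft_same, Finset.sum_eq_single i]
    · simp
    · intro i' _ hi'
      simp [Pi.single_eq_of_ne hi']
    · intro h; exact absurd (Finset.mem_univ _) h
  · rw [fs_lft_succAbove, Finset.sum_eq_single i]
    · rw [fs_lft_succAbove]; simp
    · intro i' _ hi'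
      rw [fs_lft_succAbove, Pi.single_eq_of_ne hi'.symm, zero_mul]
    · intro h; exact absurd (Finset.mem_univ _) h

end FSlft

section FScst

open HahnSeries

theorem fs_br_cst {ι : Type*} [Fintype ι] (c : ι → ι → ι → ℂ) (x y : ι → ℂ) (k : ι) :
    br (cst c) (fun i => C (x i)) (fun i => C (y i)) k = C (br c x y k) := by
  unfold br cst
  rw [map_sum]
  refine Finset.sum_congr rfl fun i _ => ?_
  rw [map_sum]
  refine Finset.sum_congr rfl fun j _ => ?_
  rw [map_mul, map_mul]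

theorem fs_single_C {ι : Type*} [DecidableEq ι] (j : ι) :
    (Pi.single j 1 : ι → HQ) = fun i => C ((Pi.single j 1 : ι → ℂ) i) := by
  funext i
  by_cases h : i = j
  · subst h; simp
  · rw [Pi.single_eq_of_ne h, Pi.single_eq_of_ne h, map_zero]

theorem fs_lft_C {N : ℕ} (β : Fin (N + 1) → ℂ) (j : Fin (N + 1)) (u : Fin N → ℂ) :
    lft (fun k => (C (β k) : HQ)) j (fun i => C (u i)) = fun k => C (lft β j u k) := by
  funext k
  rcases Fin.eq_self_or_eq_succAbove j k with rfl | ⟨i, rfl⟩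
  · rw [fs_lft_same, fs_lft_same, map_neg, map_sum]
    congr 1
    refine Finset.sum_congr rfl fun i _ => ?_
    rw [map_mul]
  · rw [fs_lft_succAbove, fs_lft_succAbove]

theorem fs_chart_cst {N : ℕ} (c : Fin (N + 1) → Fin (N + 1) → Fin (N + 1) → ℂ)
    (β : Fin (N + 1) → ℂ) (j : Fin (N + 1)) :
    chart (cst c) (fun k => (C (β k) : HQ)) j = cst (chart c β j) := by
  funext i i' k
  unfold chart
  rw [fs_single_C, fs_single_C, fs_lft_C, fs_lft_C, fs_br_cst]
  rfl

theorem fs_adj_cst {N : ℕ} (c : Fin (N + 1) → Fin (N + 1) → Fin (N + 1) → ℂ)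
    (β : Fin (N + 1) → ℂ) (j : Fin (N + 1)) :
    adj (cst c) (fun k => (C (β k) : HQ)) j = (adj c β j).map (C : ℂ → HQ) := by
  ext1 k i
  unfold adj
  rw [Matrix.of_apply, Matrix.map_apply, Matrix.of_apply, fs_single_C, fs_single_C, fs_lft_C,
    fs_br_cst]

theorem fs_adm_del {ι : Type*} [Fintype ι] (b : ι → ι → ι → ℂ) (u : ι → HQ) :
    (adm (cst b) u).map del = adm (cst b) (fun i => del (u i)) := by
  ext1 k i
  unfold adm
  rw [Matrix.map_apply, Matrix.of_apply, Matrix.of_apply, fs_del_sum]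
  refine Finset.sum_congr rfl fun l _ => ?_
  unfold cst
  rw [del_mul, del_C]
  ring

/-- The commutator of a derivation with a left multiplication. -/
theorem fs_comm_adm {ι : Type*} [Fintype ι] [DecidableEq ι] (b : ι → ι → ι → HQ)
    (E : Matrix ι ι HQ) (hE : E ∈ Der b) (u : ι → HQ) :
    E * adm b u - adm b u * E = adm b (E *ᵥ u) := by
  apply Matrix.mulVec_injective
  funext y
  rw [Matrix.sub_mulVec, ← Matrix.mulVec_mulVec, ← Matrix.mulVec_mulVec, fs_adm_mulVec,
    fs_adm_mulVec, fs_adm_mulVec, (mem_Der b E).1 hE u y, add_sub_cancel_right]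

end FScst

section FSmain

open HahnSeries

theorem fs_key {ι : Type*} [Fintype ι] [DecidableEq ι] (b b₁ : ι → ι → ι → ℂ)
    (A D A₁ : Matrix ι ι ℂ) (hA : A ∈ Der b) (hD : D ∈ Der b) (θ : Matrix ι ι HQ)
    (hθ : θ.det ≠ 0)
    (H1 : ∀ u v, θ *ᵥ br (cst b₁) u v = br (cst b) (θ *ᵥ u) (θ *ᵥ v))
    (δ : HQ) (u₀ : ι → HQ)
    (H2 : θ * A₁.map (C : ℂ → HQ) =
      (adm (cst b) u₀ + δ • (A.map (C : ℂ → HQ) + T • D.map (C : ℂ → HQ))) * θ)
    (χ : Matrix ι ι ℂ →ₗ[ℂ] ℂ)
    (h1 : ∀ X ∈ Der b, ∀ Y ∈ Der b, χ (X * Y - Y * X) = 0) (h1' : ∀ u, χ (adm b u) = 0) :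
    del δ * (C (χ A) + T * C (χ D)) - δ * T * C (χ D) = 0 := by
  set AA : Matrix ι ι HQ := A.map (C : ℂ → HQ) + T • D.map (C : ℂ → HQ) with hAA
  set X : Matrix ι ι HQ := adm (cst b) u₀ + δ • AA with hX
  set θ' : Matrix ι ι HQ := θ.map del with hθ'
  have hu : IsUnit θ.det := isUnit_iff_ne_zero.2 hθ
  have hinv : θ⁻¹ * θ = 1 := Matrix.nonsing_inv_mul θ hu
  have hinv' : θ * θ⁻¹ = 1 := Matrix.mul_nonsing_inv θ hu
  set E : Matrix ι ι HQ := θ' * θ⁻¹ with hE
  have hEθ : E * θ = θ' := by rw [hE, Matrix.mul_assoc, hinv, Matrix.mul_one]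
  -- the derivative of the isomorphism
  have H3 : ∀ u v, θ' *ᵥ br (cst b₁) u v =
      br (cst b) (θ' *ᵥ u) (θ *ᵥ v) + br (cst b) (θ *ᵥ u) (θ' *ᵥ v) := by
    intro u v
    have := fs_ext_bilin ((fsBr (cst b₁)).compr₂ θ'.mulVecLin)
      ((fsBr (cst b)).compl₁₂ θ'.mulVecLin θ.mulVecLin +
        (fsBr (cst b)).compl₁₂ θ.mulVecLin θ'.mulVecLin) (by
        intro i i'
        simp only [LinearMap.compr₂_apply, LinearMap.compl₁₂_apply, Matrix.mulVecLin_apply,
          LinearMap.add_apply, fsBr_apply, fs_br_single, Matrix.mulVec_single_one]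
        have h4 := H1 (Pi.single i 1) (Pi.single i' 1)
        rw [fs_br_single, Matrix.mulVec_single_one, Matrix.mulVec_single_one] at h4
        funext k
        have h5 := congrArg del (congrFun h4 k)
        rw [fs_del_br] at h5
        have h6 : del ((θ *ᵥ cst b₁ i i') k) = (θ' *ᵥ cst b₁ i i') k := by
          unfold Matrix.mulVec dotProduct
          rw [fs_del_sum]
          refine Finset.sum_congr rfl fun l _ => ?_
          unfold cst
          rw [del_mul, del_C, mul_zero, zero_add, mul_comm]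
          rfl
        rw [h6] at h5
        exact h5) u v
    simpa only [LinearMap.compr₂_apply, LinearMap.compl₁₂_apply, Matrix.mulVecLin_apply,
        fsBr_apply, LinearMap.add_apply] using this
  have hED : E ∈ Der (cst b) := by
    rw [mem_Der]
    intro x y
    have hx : θ *ᵥ (θ⁻¹ *ᵥ x) = x := by rw [Matrix.mulVec_mulVec, hinv', Matrix.one_mulVec]
    have hy : θ *ᵥ (θ⁻¹ *ᵥ y) = y := by rw [Matrix.mulVec_mulVec, hinv', Matrix.one_mulVec]
    have h7 := H1 (θ⁻¹ *ᵥ x) (θ⁻¹ *ᵥ y)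
    have h8 := H3 (θ⁻¹ *ᵥ x) (θ⁻¹ *ᵥ y)
    rw [hx, hy] at h7 h8
    rw [← h7, Matrix.mulVec_mulVec, hEθ, h8, Matrix.mulVec_mulVec, Matrix.mulVec_mulVec]
  have hAAD : AA ∈ Der (cst b) :=
    Submodule.add_mem _ (fs_Der_map b A hA) (Submodule.smul_mem _ T (fs_Der_map b D hD))
  -- the derivative of X
  have hX1 : X.map del = E * X - X * E := by
    have h9 := congrArg (fun M : Matrix ι ι HQ => M.map del) H2
    simp only [fs_map_mul, fs_map_C, Matrix.mul_zero, add_zero] at h9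
    have h10 : X.map del * θ = θ' * A₁.map (C : ℂ → HQ) - X * θ' := by
      rw [h9, add_sub_cancel_right]
    have h11 : θ' * A₁.map (C : ℂ → HQ) = E * X * θ := by
      rw [Matrix.mul_assoc, ← H2, ← Matrix.mul_assoc, hEθ]
    have h12 : X * θ' = X * E * θ := by
      rw [Matrix.mul_assoc, hEθ]
    rw [h11, h12, ← Matrix.sub_mul] at h10
    have h13 := congrArg (fun M : Matrix ι ι HQ => M * θ⁻¹) h10
    simp only [Matrix.mul_assoc, hinv', Matrix.mul_one] at h13
    exact h13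
  have hX2 : X.map del = adm (cst b) (fun i => del (u₀ i)) + del δ • AA -
      (δ * T) • D.map (C : ℂ → HQ) := by
    rw [← fs_adm_del]
    ext1 i j
    simp only [hX, hAA, Matrix.map_apply, Matrix.add_apply, Matrix.sub_apply, Matrix.smul_apply,
      smul_eq_mul, map_add, del_mul, del_C, del_T]
    ring
  have h14 : fsChi χ (X.map del) = 0 := by
    have h15 : E * X - X * E = (E * adm (cst b) u₀ - adm (cst b) u₀ * E) +
        δ • (E * AA - AA * E) := by
      rw [hX, Matrix.mul_add, Matrix.add_mul, add_sub_add_comm, fs_comm_smul']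
    rw [hX1, h15, fsChi_add, fsChi_smul, fs_comm_adm _ _ hED, fsChi_adm _ _ h1',
      fsChi_comm b χ h1 _ hED _ hAAD, mul_zero, add_zero]
  rw [hX2, fsChi_sub, fsChi_add, fsChi_adm _ _ h1', fsChi_smul, fsChi_smul, hAA, fsChi_add,
    fsChi_smul, fsChi_C, fsChi_C, zero_add] at h14
  exact h14

end FSmain

/- Proof. By `mins_eq`, `a` is nonzero and `φ 0 j = φ.det * C (a j)`. Choose `j` with `a j ≠ 0`, `β = a / a j` (complex, `β j = 1`), `Ann c β` (from row 0 of `hiso`, see `br_ext`).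
Let `b₁ = chart c β j`, `A₁ = adj c β j` (complex). For `u : Fin N → HQ` put `ũ = lft (C ∘ β) j u`; then `(φ *ᵥ ũ) 0 = 0`. Let `θ` be the `N × N` matrix with
`θ *ᵥ u = Fin.tail (φ *ᵥ ũ)`; `θ.det ≠ 0` (if `θ *ᵥ u = 0` then `φ *ᵥ ũ = 0`). It is an isomorphism from `cst b₁` to `cst b` (`lft_br`, `br_ext`, `chart` of constants is
constant). Put `φ *ᵥ e_j = Fin.cons δ u₀`, `δ = φ 0 j ≠ 0`. Applying `φ` to `br (cst c) e_j ũ` (`lft_adj`): `θ * A₁ = (δ • (A + T • D) + adm (cst b) u₀) * θ`.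
Let `E = (θ.map del) * θ⁻¹`; as `b, b₁` are constant, `E ∈ Der (cst b)`. Let `X = δ • (A + T • D) + adm (cst b) u₀ = θ * A₁ * θ⁻¹ ∈ Der (cst b)`. Apply `del` entrywise to `θ * A₁ = X * θ`:
`del X = E * X - X * E`, i.e. `del δ • (A + T • D) - (δ * T) • D + adm (cst b) (del u₀) = E * X - X * E`.
For a linear functional `χ` on complex matrices let `χK M = ∑ i j, χ (single i j 1) * M i j` be its extension to matrices over `HQ`; it vanishes on `E * X - X * E` (both in the span of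
`Der b` by `Der_cst_span`) and on `adm (cst b) _`. With `χ₁`: `del δ * C (χ₁ A) = 0`, so `del δ = 0`; with `χ₂`: `δ * T * C (χ₂ D) = 0`, contradiction. -/

theorem final_step {N : ℕ} (c : Fin (N + 1) → Fin (N + 1) → Fin (N + 1) → ℂ)
    (b : Fin N → Fin N → Fin N → ℂ) (A D : Matrix (Fin N) (Fin N) ℂ)
    (hA : A ∈ Der b) (hD : D ∈ Der b) (φ : Matrix (Fin (N + 1)) (Fin (N + 1)) HQ)
    (hφ : φ.det ≠ 0)
    (hiso : ∀ i i', φ *ᵥ (cst c i i') =
      br (cst (ext b A) + T • cst (ext 0 D)) (φ.col i) (φ.col i'))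
    (a : Fin (N + 1) → ℂ) (ha : ∀ j, mins (φ⁻¹.submatrix id Fin.succ) j = HahnSeries.C (a j))
    (χ₁ χ₂ : Matrix (Fin N) (Fin N) ℂ →ₗ[ℂ] ℂ)
    (h1 : ∀ X ∈ Der b, ∀ Y ∈ Der b, χ₁ (X * Y - Y * X) = 0) (h1' : ∀ u, χ₁ (adm b u) = 0)
    (h2 : ∀ X ∈ Der b, ∀ Y ∈ Der b, χ₂ (X * Y - Y * X) = 0) (h2' : ∀ u, χ₂ (adm b u) = 0)
    (hA1 : χ₁ A ≠ 0) (hD1 : χ₁ D = 0) (hD2 : χ₂ D ≠ 0) : False := by
  have h0 : ∀ j, φ 0 j = φ.det * HahnSeries.C (a j) := by
    intro j
    rw [← ha j, mins_eq φ hφ j, mul_inv_cancel_left₀ hφ]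
  have hne : ∃ j, a j ≠ 0 := by
    by_contra hc
    push Not at hc
    apply hφ
    refine Matrix.det_eq_zero_of_row_eq_zero 0 fun j => ?_
    rw [h0, hc, map_zero, mul_zero]
  obtain ⟨j₀, hj₀⟩ := hne
  set β : Fin (N + 1) → ℂ := fun k => a k / a j₀ with hβdef
  have hβ : β j₀ = 1 := div_self hj₀
  set βH : Fin (N + 1) → HQ := fun k => HahnSeries.C (β k) with hβH
  have hβH1 : βH j₀ = 1 := by
    rw [hβH]
    simp only [hβ, map_one]
  have haβ : ∀ k, φ 0 k = φ.det * HahnSeries.C (a j₀) * βH k := by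
    intro k
    rw [h0, mul_assoc, hβH, ← map_mul]
    congr 2
    rw [hβdef]
    field_simp
  set AA : Matrix (Fin N) (Fin N) HQ :=
    A.map (HahnSeries.C : ℂ → HQ) + T • D.map (HahnSeries.C : ℂ → HQ) with hAA
  have hext : cst (ext b A) + T • cst (ext 0 D) = ext (cst b) AA := ext_cst b A D
  have hhom : ∀ x y, φ *ᵥ br (cst c) x y = br (ext (cst b) AA) (φ *ᵥ x) (φ *ᵥ y) := by
    intro x y
    refine fs_hom (cst c) (ext (cst b) AA) φ φ ?_ x y
    intro i i'
    rw [hiso i i', hext]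
  have hrow : ∀ x y, (φ *ᵥ br (cst c) x y) 0 = 0 := by
    intro x y
    rw [hhom, br_ext, Fin.cons_zero]
  have hj₀' : φ.det * HahnSeries.C (a j₀) ≠ 0 := by
    refine mul_ne_zero hφ ?_
    intro h
    exact hj₀ (HahnSeries.C_injective (by rw [h, map_zero]))
  have hAnnH : ∀ i j, ∑ k, βH k * cst c i j k = 0 := by
    intro i j
    have h3 := hrow (Pi.single i 1) (Pi.single j 1)
    rw [fs_br_single] at h3
    have h4 : (φ *ᵥ cst c i j) 0 =
        (φ.det * HahnSeries.C (a j₀)) * ∑ k, βH k * cst c i j k := by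
      rw [Finset.mul_sum]
      unfold Matrix.mulVec dotProduct
      refine Finset.sum_congr rfl fun k _ => ?_
      change φ 0 k * cst c i j k = _
      rw [haβ]
      ring
    rw [h4] at h3
    exact (mul_eq_zero.1 h3).resolve_left hj₀'
  have hAnnH' : Ann (cst c) βH := hAnnH
  set b₁ := chart c β j₀ with hb₁
  set A₁ := adj c β j₀ with hA₁
  have hchart : chart (cst c) βH j₀ = cst b₁ := fs_chart_cst c β j₀
  have hadj : adj (cst c) βH j₀ = A₁.map (HahnSeries.C : ℂ → HQ) := fs_adj_cst c β j₀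
  set θ : Matrix (Fin N) (Fin N) HQ := (φ * fsL βH j₀).submatrix Fin.succ id with hθdef
  have hθ : ∀ u, φ *ᵥ lft βH j₀ u = (Fin.cons 0 (θ *ᵥ u) : Fin (N + 1) → HQ) := by
    intro u
    funext k
    refine Fin.cases ?_ (fun k => ?_) k
    · rw [Fin.cons_zero]
      have h4 : (φ *ᵥ lft βH j₀ u) 0 =
          (φ.det * HahnSeries.C (a j₀)) * ∑ k, βH k * lft βH j₀ u k := by
        rw [Finset.mul_sum]
        unfold Matrix.mulVec dotProduct
        refine Finset.sum_congr rfl fun k _ => ?_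
        change φ 0 k * lft βH j₀ u k = _
        rw [haβ]
        ring
      rw [h4, fs_lft_sum βH j₀ hβH1, mul_zero]
    · rw [Fin.cons_succ, ← fsL_mulVec, Matrix.mulVec_mulVec]
      rfl
  have hdet : θ.det ≠ 0 := by
    intro hd
    obtain ⟨v, hv, hv0⟩ := Matrix.exists_mulVec_eq_zero_iff.2 hd
    apply hv
    have h5 := hθ v
    rw [hv0] at h5
    have h6 : φ *ᵥ lft βH j₀ v = 0 := by
      rw [h5]
      funext k
      refine Fin.cases ?_ (fun k => ?_) k
      · rw [Fin.cons_zero]; rfl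
      · rw [Fin.cons_succ]; rfl
    have h7 := Matrix.eq_zero_of_mulVec_eq_zero hφ h6
    funext i
    rw [← fs_lft_succAbove βH j₀ v i, h7]
    rfl
  have htail : ∀ u, Fin.tail (φ *ᵥ lft βH j₀ u) = θ *ᵥ u := by
    intro u
    rw [hθ u, Fin.tail_cons]
  have H1 : ∀ u v, θ *ᵥ br (cst b₁) u v = br (cst b) (θ *ᵥ u) (θ *ᵥ v) := by
    intro u v
    rw [← htail, ← hchart, lft_br (cst c) βH j₀ hβH1 hAnnH', hhom, br_ext, Fin.tail_cons,
      htail, htail, hθ u, hθ v, Fin.cons_zero, Fin.cons_zero]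
    funext k
    simp only [Pi.add_apply, Pi.sub_apply, Pi.smul_apply, smul_eq_mul, zero_mul, add_zero,
      sub_zero]
  set δ : HQ := φ 0 j₀ with hδ
  have hδ0 : δ ≠ 0 := by
    rw [hδ, h0]
    exact hj₀'
  set u₀ : Fin N → HQ := Fin.tail (φ *ᵥ Pi.single j₀ 1) with hu₀
  have hδ' : (φ *ᵥ Pi.single j₀ 1) 0 = δ := by
    rw [Matrix.mulVec_single_one]
    rfl
  have H2 : θ * A₁.map (HahnSeries.C : ℂ → HQ) =
      (adm (cst b) u₀ + δ • AA) * θ := by
    apply Matrix.mulVec_injective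
    funext u
    rw [← Matrix.mulVec_mulVec, ← Matrix.mulVec_mulVec, ← hadj, ← htail,
      lft_adj (cst c) βH j₀ hβH1 hAnnH', hhom, br_ext, Fin.tail_cons, htail, hθ u,
      Fin.cons_zero, hδ', Matrix.add_mulVec (adm (cst b) u₀) (δ • AA), fs_adm_mulVec, ← hu₀]
    funext k
    simp only [Pi.add_apply, Pi.sub_apply, Pi.smul_apply, smul_eq_mul, zero_mul,
      sub_zero]
    congr 1
    unfold Matrix.mulVec dotProduct
    rw [Finset.mul_sum]
    refine Finset.sum_congr rfl fun l _ => ?_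
    change δ * (AA k l * _) = δ * AA k l * _
    ring
  have k1 := fs_key b b₁ A D A₁ hA hD θ hdet H1 δ u₀ H2 χ₁ h1 h1'
  have k2 := fs_key b b₁ A D A₁ hA hD θ hdet H1 δ u₀ H2 χ₂ h2 h2'
  rw [hD1, map_zero, mul_zero, add_zero, mul_zero, sub_zero] at k1
  have hC1 : (HahnSeries.C (χ₁ A) : HQ) ≠ 0 := fun h =>
    hA1 (HahnSeries.C_injective (by rw [h, map_zero]))
  have hC2 : (HahnSeries.C (χ₂ D) : HQ) ≠ 0 := fun h =>
    hD2 (HahnSeries.C_injective (by rw [h, map_zero]))
  have hdd : del δ = 0 := (mul_eq_zero.1 k1).resolve_right hC1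
  rw [hdd, zero_mul, zero_sub, neg_eq_zero] at k2
  exact mul_ne_zero (mul_ne_zero hδ0 T_ne_zero) hC2 k2

end Pool.Agent.Helper610_Vergne.Fin

namespace Pool.Agent.Helper610_Vergne

export Fin (final_step)

end Pool.Agent.Helper610_Vergne
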