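import Pool.Agent.Helper610_Vergne.LemN

/-!
# The generic isomorphism
-/

set_option autoImplicit false

namespace Pool.Agent.Helper610_Vergne.GenIso

open Pool.Agent.Helper610_Vergne
open Matrix Module

/- Proof. Let `Θ` be the set of all `(t, g, y) ∈ ℂ × Matrix (Fin n) (Fin n) ℂ × ℂ` with `g *ᵥ (c i i') = br (c₀ + t • c₁) (g.col i) (g.col i')` for all `i i'` and
`g.det * y = 1`. An isomorphism `Iso c (c₀ + t • c₁)` gives such a `g` (its matrix), so `t` takes infinitely many values on `Θ`. Let `B` be the subalgebra of the algebra of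
functions `Θ → ℂ` generated by the finitely many coordinate functions `t, g i j, y`. It is of finite type, and the function `t` is transcendental in `B` (a polynomial in
`t` that vanishes on `Θ` has infinitely many roots). `lemmaN` gives `σ : B →ₐ[ℂ] HQ` with `σ t = T`. The matrix `φ i j = σ (g i j)` satisfies all the relations. -/

/-- the points -/
def giP {n : ℕ} (c c₀ c₁ : Fin n → Fin n → Fin n → ℂ) (p : ℂ × Matrix (Fin n) (Fin n) ℂ × ℂ) :
    Prop :=
  (∀ i i' : Fin n, p.2.1 *ᵥ (c i i') = br (c₀ + p.1 • c₁) (p.2.1.col i) (p.2.1.col i')) ∧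
    p.2.1.det * p.2.2 = 1

lemma gi_single {n : ℕ} (c : Fin n → Fin n → Fin n → ℂ) (i i' : Fin n) :
    br c (Pi.single i 1) (Pi.single i' 1) = c i i' := by
  funext k
  unfold br
  rw [Finset.sum_eq_single i, Finset.sum_eq_single i']
  · simp
  · intro b _ hb
    simp [Pi.single_eq_of_ne hb]
  · intro h
    exact absurd (Finset.mem_univ _) h
  · intro b _ hb
    simp [Pi.single_eq_of_ne hb]
  · intro h
    exact absurd (Finset.mem_univ _) h

lemma gi_point {n : ℕ} (c c₀ c₁ : Fin n → Fin n → Fin n → ℂ) (t : ℂ)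
    (h : Iso c (c₀ + t • c₁)) : ∃ g y, giP c c₀ c₁ (t, g, y) := by
  obtain ⟨g, hg⟩ := h
  have hv : ∀ v, LinearMap.toMatrix' (g : (Fin n → ℂ) →ₗ[ℂ] (Fin n → ℂ)) *ᵥ v = g v := fun v => by
    rw [LinearMap.toMatrix'_mulVec]
    rfl
  have hcol : ∀ i, (LinearMap.toMatrix' (g : (Fin n → ℂ) →ₗ[ℂ] (Fin n → ℂ))).col i =
      g (Pi.single i 1) := fun i => by
    rw [← hv, Matrix.mulVec_single_one]
  refine ⟨LinearMap.toMatrix' (g : (Fin n → ℂ) →ₗ[ℂ] (Fin n → ℂ)),
    (LinearMap.toMatrix' (g : (Fin n → ℂ) →ₗ[ℂ] (Fin n → ℂ))).det⁻¹, fun i i' => ?_, ?_⟩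
  · show LinearMap.toMatrix' (g : (Fin n → ℂ) →ₗ[ℂ] (Fin n → ℂ)) *ᵥ (c i i') = br (c₀ + t • c₁)
      ((LinearMap.toMatrix' (g : (Fin n → ℂ) →ₗ[ℂ] (Fin n → ℂ))).col i)
      ((LinearMap.toMatrix' (g : (Fin n → ℂ) →ₗ[ℂ] (Fin n → ℂ))).col i')
    rw [hv, hcol, hcol, ← hg, gi_single]
  · show (LinearMap.toMatrix' (g : (Fin n → ℂ) →ₗ[ℂ] (Fin n → ℂ))).det *
      (LinearMap.toMatrix' (g : (Fin n → ℂ) →ₗ[ℂ] (Fin n → ℂ))).det⁻¹ = 1
    apply mul_inv_cancel₀
    rw [LinearMap.det_toMatrix']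
    exact (LinearEquiv.isUnit_det' g).ne_zero


theorem generic_iso {n : ℕ} (c c₀ c₁ : Fin n → Fin n → Fin n → ℂ)
    (h : {t : ℂ | Iso c (c₀ + t • c₁)}.Infinite) :
    ∃ φ : Matrix (Fin n) (Fin n) HQ, φ.det ≠ 0 ∧ ∀ i i' : Fin n,
      φ *ᵥ (cst c i i') = br (cst c₀ + T • cst c₁) (φ.col i) (φ.col i') := by
  classical
  let Θ : Type := {p : ℂ × Matrix (Fin n) (Fin n) ℂ × ℂ // giP c c₀ c₁ p}
  let ft : Θ → ℂ := fun θ => θ.1.1
  let fg : Fin n → Fin n → Θ → ℂ := fun i j θ => θ.1.2.1 i j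
  let fy : Θ → ℂ := fun θ => θ.1.2.2
  let S : Set (Θ → ℂ) := {ft, fy} ∪ Set.range (fun p : Fin n × Fin n => fg p.1 p.2)
  have hS : S.Finite := ((Set.finite_singleton _).insert _).union (Set.finite_range _)
  let B : Subalgebra ℂ (Θ → ℂ) := Algebra.adjoin ℂ S
  have hfin : Algebra.FiniteType ℂ B :=
    (Subalgebra.fg_iff_finiteType B).1 (Subalgebra.fg_def.2 ⟨S, hS, rfl⟩)
  let tB : B := ⟨ft, Algebra.subset_adjoin (Or.inl (Or.inl rfl))⟩
  let yB : B := ⟨fy, Algebra.subset_adjoin (Or.inl (Or.inr rfl))⟩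
  let gB : Matrix (Fin n) (Fin n) B := Matrix.of fun i j =>
    ⟨fg i j, Algebra.subset_adjoin (Or.inr ⟨(i, j), rfl⟩)⟩
  let e : Θ → B →ₐ[ℂ] ℂ := fun θ => (Pi.evalAlgHom ℂ (fun _ : Θ => ℂ) θ).comp B.val
  have het : ∀ θ, e θ tB = θ.1.1 := fun θ => rfl
  have hey : ∀ θ, e θ yB = θ.1.2.2 := fun θ => rfl
  have heg : ∀ θ i j, e θ (gB i j) = θ.1.2.1 i j := fun θ i j => rfl
  have hext : ∀ b b' : B, (∀ θ, e θ b = e θ b') → b = b' := fun b b' hb =>
    Subtype.ext (funext hb)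
  have htr : Transcendental ℂ tB := by
    rintro ⟨p, hp0, hp⟩
    apply h
    refine (Polynomial.finite_setOfPred_isRoot hp0).subset ?_
    intro t ht
    obtain ⟨g, y, hgy⟩ := gi_point c c₀ c₁ t ht
    have h1 : e ⟨(t, g, y), hgy⟩ (Polynomial.aeval tB p) = 0 := by rw [hp, map_zero]
    rw [← Polynomial.aeval_algHom_apply, het] at h1
    simpa [Polynomial.aeval_def, Polynomial.eval₂_eq_eval_map] using h1
  obtain ⟨σ, hσ⟩ := lemmaN tB htr
  have hσC : ∀ z : ℂ, σ (algebraMap ℂ B z) = HahnSeries.C z := by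
    intro z
    rw [AlgHom.commutes]
    rw [HahnSeries.algebraMap_apply', PowerSeries.algebraMap_apply, HahnSeries.ofPowerSeries_C]
    rfl
  refine ⟨gB.map σ, ?_, ?_⟩
  · have h1 : gB.det * yB = 1 := by
      apply hext
      intro θ
      rw [map_mul, map_one, hey]
      have h2 : e θ gB.det = (θ.1.2.1).det := by
        rw [AlgHom.map_det]
        rfl
      rw [h2]
      exact θ.2.2
    have h2 : (gB.map σ).det * σ yB = 1 := by
      have h3 := congrArg σ h1
      rw [map_mul, map_one, AlgHom.map_det] at h3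
      exact h3
    intro h3
    rw [h3, zero_mul] at h2
    exact zero_ne_one h2
  · intro i i'
    funext k
    have h1 : ∑ l, gB k l * algebraMap ℂ B (c i i' l) =
        ∑ a, ∑ b, gB a i * gB b i' *
          (algebraMap ℂ B (c₀ a b k) + tB * algebraMap ℂ B (c₁ a b k)) := by
      apply hext
      intro θ
      simp only [map_sum, map_mul, map_add, AlgHom.commutes, heg, het]
      have h2 := congrFun (θ.2.1 i i') k
      simpa [Matrix.mulVec, dotProduct, br] using h2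
    have h2 := congrArg σ h1
    simp only [map_sum, map_mul, map_add, hσC, hσ] at h2
    simpa [Matrix.mulVec, dotProduct, br, cst] using h2

end Pool.Agent.Helper610_Vergne.GenIso

namespace Pool.Agent.Helper610_Vergne

export GenIso (generic_iso)

end Pool.Agent.Helper610_Vergne
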