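import Pool.Agent.Helper610_Vergne.Defs

/-!
# Hahn series: regular and small elements, the derivation `s d/ds`
-/

set_option autoImplicit false

namespace Pool.Agent.Helper610_Vergne

open HahnSeries

/-! ### regular and small elements -/

theorem Reg.zero : Reg 0 := fun q _ => by simp

theorem Small.zero : Small 0 := fun q _ => by simp

theorem Small.reg {x : HQ} (h : Small x) : Reg x := fun q hq => h q hq.le

theorem Reg.add {x y : HQ} (hx : Reg x) (hy : Reg y) : Reg (x + y) := fun q hq => by
  rw [coeff_add, hx q hq, hy q hq, add_zero]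

theorem Reg.neg {x : HQ} (hx : Reg x) : Reg (-x) := fun q hq => by
  rw [coeff_neg, hx q hq, neg_zero]

theorem Reg.sub {x y : HQ} (hx : Reg x) (hy : Reg y) : Reg (x - y) := fun q hq => by
  rw [coeff_sub, hx q hq, hy q hq, sub_zero]

theorem Small.add {x y : HQ} (hx : Small x) (hy : Small y) : Small (x + y) := fun q hq => by
  rw [coeff_add, hx q hq, hy q hq, add_zero]

theorem Small.neg {x : HQ} (hx : Small x) : Small (-x) := fun q hq => by
  rw [coeff_neg, hx q hq, neg_zero]

theorem Small.sub {x y : HQ} (hx : Small x) (hy : Small y) : Small (x - y) := fun q hq => by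
  rw [coeff_sub, hx q hq, hy q hq, sub_zero]

theorem Reg.sum {ι : Type*} (s : Finset ι) (f : ι → HQ) (h : ∀ i ∈ s, Reg (f i)) :
    Reg (∑ i ∈ s, f i) := fun q hq => by
  rw [coeff_sum]
  exact Finset.sum_eq_zero fun i hi => h i hi q hq

theorem Small.sum {ι : Type*} (s : Finset ι) (f : ι → HQ) (h : ∀ i ∈ s, Small (f i)) :
    Small (∑ i ∈ s, f i) := fun q hq => by
  rw [coeff_sum]
  exact Finset.sum_eq_zero fun i hi => h i hi q hq

theorem Reg.mul {x y : HQ} (hx : Reg x) (hy : Reg y) : Reg (x * y) := fun q hq => by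
  rw [coeff_mul]
  refine Finset.sum_eq_zero fun ij hij => ?_
  rw [Finset.mem_antidiagonal] at hij
  obtain ⟨h1, h2, h3⟩ := hij
  rcases lt_or_ge ij.1 0 with h | h
  · exact absurd (hx _ h) h1
  · exact absurd (hy ij.2 (by linarith)) h2

theorem Small.mul_reg {x y : HQ} (hx : Small x) (hy : Reg y) : Small (x * y) := fun q hq => by
  rw [coeff_mul]
  refine Finset.sum_eq_zero fun ij hij => ?_
  rw [Finset.mem_antidiagonal] at hij
  obtain ⟨h1, h2, h3⟩ := hij
  rcases le_or_gt ij.1 0 with h | h
  · exact absurd (hx _ h) h1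
  · exact absurd (hy ij.2 (by linarith)) h2

theorem Reg.mul_small {x y : HQ} (hx : Reg x) (hy : Small y) : Small (x * y) := by
  rw [mul_comm]; exact hy.mul_reg hx

theorem coeff_zero_mul {x y : HQ} (hx : Reg x) (hy : Reg y) :
    (x * y).coeff 0 = x.coeff 0 * y.coeff 0 := by
  rw [coeff_mul]
  by_cases h : (0, 0) ∈ Finset.antidiagonal x.isPWO_support y.isPWO_support (0 : ℚ)
  · rw [Finset.sum_eq_single_of_mem (0, 0) h]
    intro ij hij hne
    rw [Finset.mem_antidiagonal] at hij
    obtain ⟨h1, h2, h3⟩ := hij
    exfalso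
    rcases lt_trichotomy ij.1 0 with h | h | h
    · exact h1 (hx _ h)
    · apply hne
      ext
      · exact h
      · change ij.2 = 0
        linarith
    · exact h2 (hy ij.2 (by linarith))
  · have h4 : x.coeff 0 * y.coeff 0 = 0 := by
      by_contra hne
      apply h
      rw [Finset.mem_antidiagonal]
      exact ⟨left_ne_zero_of_mul hne, right_ne_zero_of_mul hne, by simp⟩
    rw [h4]
    refine Finset.sum_eq_zero fun ij hij => ?_
    rw [Finset.mem_antidiagonal] at hij
    obtain ⟨h1, h2, h3⟩ := hij
    exfalso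
    rcases lt_trichotomy ij.1 0 with h' | h' | h'
    · exact h1 (hx _ h')
    · have h5 : ij.2 = 0 := by linarith
      rw [h'] at h1
      rw [h5] at h2
      exact mul_ne_zero h1 h2 h4
    · exact h2 (hy ij.2 (by linarith))

theorem reg_C (a : ℂ) : Reg (C a) := fun q hq => by
  rw [C_apply, coeff_single_of_ne hq.ne]

theorem coeff_zero_C (a : ℂ) : (C a : HQ).coeff 0 = a := by
  rw [C_apply, coeff_single_same]

theorem Reg.one : Reg 1 := by
  rw [← C_one]; exact reg_C 1

theorem small_iff {x : HQ} : Small x ↔ Reg x ∧ x.coeff 0 = 0 := by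
  refine ⟨fun h => ⟨h.reg, h 0 le_rfl⟩, fun h q hq => ?_⟩
  rcases hq.lt_or_eq with h1 | h1
  · exact h.1 q h1
  · rw [h1]; exact h.2

theorem reg_iff_order {x : HQ} (hx : x ≠ 0) : Reg x ↔ 0 ≤ x.order := by
  constructor
  · intro h
    by_contra hlt
    push Not at hlt
    exact hx (coeff_order_eq_zero.1 (h _ hlt))
  · intro h q hq
    exact coeff_eq_zero_of_lt_order (lt_of_lt_of_le hq h)

theorem small_iff_order {x : HQ} (hx : x ≠ 0) : Small x ↔ 0 < x.order := by
  constructor
  · intro h
    by_contra hlt
    push Not at hlt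
    exact hx (coeff_order_eq_zero.1 (h _ hlt))
  · intro h q hq
    exact coeff_eq_zero_of_lt_order (lt_of_le_of_lt hq h)

theorem order_inv' {x : HQ} (hx : x ≠ 0) : (x⁻¹).order = -x.order := by
  have h := order_mul hx (inv_ne_zero hx)
  rw [mul_inv_cancel₀ hx, order_one] at h
  linarith

/-- Either small or with regular inverse. -/
theorem small_or (x : HQ) : Small x ∨ (x ≠ 0 ∧ Reg x⁻¹) := by
  by_cases hx : x = 0
  · left; rw [hx]; exact Small.zero
  · rcases lt_or_ge 0 x.order with h | h
    · left; rwa [small_iff_order hx]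
    · right
      refine ⟨hx, ?_⟩
      rw [reg_iff_order (inv_ne_zero hx), order_inv' hx]
      linarith

/-- In a nonzero finite family some element divides all the others. -/
theorem exists_min {ι : Type*} [Fintype ι] (v : ι → HQ) (h : ∃ j, v j ≠ 0) :
    ∃ j, v j ≠ 0 ∧ ∀ i, Reg (v i / v j) := by
  classical
  obtain ⟨j₀, hj₀⟩ := h
  obtain ⟨j, hj, hmin⟩ := Finset.exists_min_image (Finset.univ.filter fun j => v j ≠ 0)
    (fun j => (v j).order) ⟨j₀, by simp [hj₀]⟩
  simp only [Finset.mem_filter, Finset.mem_univ, true_and] at hj hmin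
  refine ⟨j, hj, fun i => ?_⟩
  by_cases hi : v i = 0
  · rw [hi, zero_div]; exact Reg.zero
  · rw [reg_iff_order (div_ne_zero hi hj), div_eq_mul_inv, order_mul hi (inv_ne_zero hj),
      order_inv' hj]
    have := hmin i hi
    linarith

/-! ### the derivation `s d/ds` -/

/-- `s d/ds` as a function. -/
noncomputable def delFun (x : HQ) : HQ where
  coeff q := (q : ℂ) * x.coeff q
  isPWO_support' := x.isPWO_support.mono fun q hq => by
    rw [Function.mem_support] at hq
    exact right_ne_zero_of_mul hq

theorem delFun_coeff (x : HQ) (q : ℚ) : (delFun x).coeff q = (q : ℂ) * x.coeff q := rfl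

theorem delFun_support (x : HQ) : (delFun x).support ⊆ x.support := fun q hq => by
  rw [mem_support, delFun_coeff] at hq
  exact right_ne_zero_of_mul hq

theorem delFun_mul (x y : HQ) : delFun (x * y) = x * delFun y + y * delFun x := by
  ext q
  rw [delFun_coeff, coeff_add, mul_comm y, coeff_mul,
    coeff_mul_right' y.isPWO_support (delFun_support y),
    coeff_mul_left' x.isPWO_support (delFun_support x), Finset.mul_sum, ← Finset.sum_add_distrib]
  refine Finset.sum_congr rfl fun ij hij => ?_
  rw [Finset.mem_antidiagonal] at hij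
  obtain ⟨_, _, h3⟩ := hij
  rw [delFun_coeff, delFun_coeff, ← h3]
  push_cast
  ring

/-- The derivation `s d/ds`. -/
noncomputable def del : HQ →+ HQ where
  toFun := delFun
  map_zero' := by
    ext q
    rw [delFun_coeff, coeff_zero, mul_zero]
  map_add' x y := by
    ext q
    rw [coeff_add, delFun_coeff, delFun_coeff, delFun_coeff, coeff_add]
    ring

theorem del_coeff (x : HQ) (q : ℚ) : (del x).coeff q = (q : ℂ) * x.coeff q := rfl

theorem del_mul (x y : HQ) : del (x * y) = x * del y + y * del x := by
  exact delFun_mul x y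

theorem del_C (a : ℂ) : del (C a) = 0 := by
  ext q
  rw [del_coeff, C_apply, coeff_single, coeff_zero]
  split_ifs with h
  · rw [h]; simp
  · simp

theorem del_T : del T = -T := by
  ext q
  rw [del_coeff, coeff_neg, T, coeff_single]
  split_ifs with h
  · rw [h]; simp
  · simp

theorem T_ne_zero : T ≠ 0 := single_ne_zero one_ne_zero

theorem not_reg_T : ¬ Reg T := fun h => by
  have := h (-1) (by norm_num)
  rw [T, coeff_single_same] at this
  exact one_ne_zero this

theorem del_small {x : HQ} (h : Reg x) : Small (del x) := fun q hq => by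
  rw [del_coeff]
  rcases hq.lt_or_eq with h1 | h1
  · rw [h q h1, mul_zero]
  · rw [h1]; simp

/-- The logarithmic derivative is the order modulo small elements. -/
theorem logder (w : HQ) (hw : w ≠ 0) : ∃ r : HQ, Small r ∧ del w = (C (w.order : ℂ) + r) * w := by
  set p : HQ := single w.order (1 : ℂ) with hp
  have hp0 : p ≠ 0 := single_ne_zero one_ne_zero
  have hpo : p.order = w.order := order_single one_ne_zero
  set u : HQ := w * p⁻¹ with hu
  have hu0 : u ≠ 0 := mul_ne_zero hw (inv_ne_zero hp0)
  have huo : u.order = 0 := by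
    rw [hu, order_mul hw (inv_ne_zero hp0), order_inv' hp0, hpo]
    ring
  have hwu : w = p * u := by
    rw [hu]; field_simp
  have hdp : del p = C (w.order : ℂ) * p := by
    ext q
    rw [del_coeff, C_apply, coeff_single_zero_mul, hp, coeff_single]
    split_ifs with h
    · rw [h]
    · simp
  have hui : Reg u⁻¹ := by
    rw [reg_iff_order (inv_ne_zero hu0), order_inv' hu0, huo, neg_zero]
  have hur : Reg u := by
    rw [reg_iff_order hu0, huo]
  refine ⟨del u * u⁻¹, (del_small hur).mul_reg hui, ?_⟩
  rw [hwu, del_mul, hdp]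
  field_simp
  rw [← hwu]
  ring

end Pool.Agent.Helper610_Vergne
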