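import Pool.Agent.Helper610_Vergne.Hahn

/-!
# Small combinations, Jacobi formula, base change of derivations
-/

set_option autoImplicit false

namespace Pool.Agent.Helper610_Vergne.KA

open Pool.Agent.Helper610_Vergne
open Matrix Module

/-! Three independent TARGETS. -/

/- Proof: let `i₀` be given by `exists_min a` (if all `a i = 0` there is nothing to prove), so all `a i / a i₀` are regular.
By `small_or (a i₀)` either `a i₀` is small and then so are all `a i = (a i / a i₀) * a i₀`, or `(a i₀)⁻¹` is regular; then
`∑ i, (a i / a i₀) * v i k = (a i₀)⁻¹ * ∑ i, a i * v i k` is small, its coefficient at 0 gives `∑ i, (a i / a i₀).coeff 0 * (v i k).coeff 0 = 0` for all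
`k` (`coeff_zero_mul`), so by independence all `(a i / a i₀).coeff 0 = 0`, contradiction for `i = i₀`. -/
/-- 1 -/
theorem small_coeffs {ι κ : Type*} [Fintype ι] (v : ι → κ → HQ) (hv : ∀ i k, Reg (v i k))
    (hind : LinearIndependent ℂ (fun (i : ι) (k : κ) => (v i k).coeff 0)) (a : ι → HQ)
    (h : ∀ k, Small (∑ i, a i * v i k)) : ∀ i, Small (a i) := by
  classical
  by_cases hz : ∃ j, a j ≠ 0
  · obtain ⟨j, hj, hreg⟩ := exists_min a hz
    rcases small_or (a j) with hs | ⟨_, hr⟩
    · intro i
      have : a i = (a i / a j) * a j := by field_simp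
      rw [this]
      exact (hreg i).mul_small hs
    · exfalso
      have key : ∀ k, ∑ i, (a i / a j).coeff 0 * (v i k).coeff 0 = 0 := by
        intro k
        have h1 : ∑ i, (a i / a j) * v i k = (a j)⁻¹ * ∑ i, a i * v i k := by
          rw [Finset.mul_sum]
          refine Finset.sum_congr rfl fun i _ => ?_
          rw [div_eq_mul_inv]; ring
        have h2 : Small (∑ i, (a i / a j) * v i k) := by
          rw [h1]; exact hr.mul_small (h k)
        have h3 := h2 0 le_rfl
        rw [HahnSeries.coeff_sum] at h3
        rw [← h3]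
        refine Finset.sum_congr rfl fun i _ => ?_
        rw [coeff_zero_mul (hreg i) (hv i k)]
      rw [Fintype.linearIndependent_iff] at hind
      have h4 := hind (fun i => (a i / a j).coeff 0) (by
        funext k
        rw [Finset.sum_apply]
        simpa using key k) j
      rw [div_self hj, HahnSeries.coeff_one] at h4
      simp at h4
  · push Not at hz
    intro i
    rw [hz i]
    exact Small.zero

theorem del_one : del (1 : HQ) = 0 := by
  rw [← HahnSeries.C_one]; exact del_C 1

theorem del_prod {ι : Type*} [DecidableEq ι] (s : Finset ι) (f : ι → HQ) :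
    del (∏ i ∈ s, f i) = ∑ j ∈ s, (∏ i ∈ s.erase j, f i) * del (f j) := by
  induction s using Finset.induction_on with
  | empty => simp [del_one]
  | insert a s ha ih =>
    rw [Finset.prod_insert ha, del_mul, ih, Finset.sum_insert ha, Finset.erase_insert ha, add_comm,
      Finset.mul_sum]
    congr 1
    refine Finset.sum_congr rfl fun j hj => ?_
    have hne : a ≠ j := fun h => ha (h ▸ hj)
    rw [Finset.erase_insert_of_ne hne, Finset.prod_insert (fun h => ha (Finset.mem_of_mem_erase h))]
    ring

theorem del_int_mul (z : ℤ) (x : HQ) : del ((z : HQ) * x) = (z : HQ) * del x := by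
  rw [← zsmul_eq_mul, map_zsmul, zsmul_eq_mul]

theorem trace_adj {K : Type*} [Field K] {n : ℕ} (M N : Matrix (Fin n) (Fin n) K)
    (hM : M.det ≠ 0) : (M.adjugate * N).trace = M.det * (N * M⁻¹).trace := by
  have h3 : M.adjugate = M.det • M⁻¹ := by
    rw [Matrix.inv_def, smul_smul, Ring.mul_inverse_cancel _ (isUnit_iff_ne_zero.2 hM), one_smul]
  rw [h3, Matrix.smul_mul, Matrix.trace_smul, Matrix.trace_mul_comm, smul_eq_mul]

/- Jacobi's formula for the derivation `del` (additive and `del_mul`). -/
/-- 2 -/
theorem del_det {n : ℕ} (M : Matrix (Fin n) (Fin n) HQ) (hM : M.det ≠ 0) :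
    del M.det = M.det * ((M.map del) * M⁻¹).trace := by
  have h1 : del M.det = ∑ j, (M.updateCol j (fun i => del (M i j))).det := by
    simp only [Matrix.det_apply']
    rw [map_sum, Finset.sum_comm]
    refine Finset.sum_congr rfl fun σ _ => ?_
    rw [del_int_mul, del_prod, Finset.mul_sum]
    refine Finset.sum_congr rfl fun j _ => ?_
    congr 1
    rw [← Finset.mul_prod_erase Finset.univ _ (Finset.mem_univ j), mul_comm]
    congr 1
    · simp
    · refine Finset.prod_congr rfl fun i hi => ?_
      rw [Matrix.updateCol_ne (Finset.ne_of_mem_erase hi)]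
  have h2 : ∀ j, (M.updateCol j (fun i => del (M i j))).det =
      (M.adjugate * M.map del) j j := by
    intro j
    rw [← Matrix.cramer_apply, Matrix.cramer_eq_adjugate_mulVec]
    rfl
  rw [h1]
  simp only [h2]
  exact trace_adj M (M.map del) hM

theorem mul_C_eq (x : HQ) (c : ℂ) : x * HahnSeries.C c = c • x := by
  rw [mul_comm, HahnSeries.C_mul_eq_smul]

/- A linear system with constant (complex) coefficients: the solutions over `HQ` are spanned by the solutions over `ℂ`. E.g. take a `ℂ`-basis of the
`ℂ`-vector space `HQ` and expand the entries of `E`; or: choose a basis of the constant solution space etc. -/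
/-- 3 -/
theorem Der_cst_span {ι : Type*} [Fintype ι] [DecidableEq ι] (b : ι → ι → ι → ℂ) :
    Der (cst b) = Submodule.span HQ ((fun D : Matrix ι ι ℂ => D.map HahnSeries.C) '' (Der b : Set (Matrix ι ι ℂ))) := by
  classical
  apply le_antisymm
  · intro E hE
    let B := Module.Basis.ofVectorSpace ℂ HQ
    have hmem : ∀ t, (Matrix.of fun k l => B.coord t (E k l)) ∈ Der b := by
      intro t
      rw [Der, LinearMap.mem_ker] at hE ⊢
      funext i j k
      have h1 := congrFun (congrFun (congrFun hE i) j) k
      have h2 := congrArg (B.coord t) h1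
      change B.coord t ((∑ l, E k l * HahnSeries.C (b i j l)) - (∑ l, E l i * HahnSeries.C (b l j k))
        - ∑ l, E l j * HahnSeries.C (b i l k)) = B.coord t 0 at h2
      simp only [mul_C_eq, map_sub, map_sum, map_smul, map_zero, smul_eq_mul] at h2
      change (∑ l, B.coord t (E k l) * b i j l) - (∑ l, B.coord t (E l i) * b l j k)
        - ∑ l, B.coord t (E l j) * b i l k = 0
      rw [← h2]
      simp only [mul_comm]
    let s : Finset _ := Finset.univ.biUnion fun p : ι × ι => (B.repr (E p.1 p.2)).support
    have hsum : E = ∑ t ∈ s, B t • (Matrix.of fun k l => B.coord t (E k l)).map HahnSeries.C := by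
      ext1 k l
      rw [Matrix.sum_apply]
      have h1 := B.linearCombination_repr (E k l)
      rw [Finsupp.linearCombination_apply, Finsupp.sum_of_support_subset (s := s) _ _ _ (by simp)] at h1
      · refine h1.symm.trans (Finset.sum_congr rfl fun t _ => ?_)
        rw [Matrix.smul_apply, smul_eq_mul, Matrix.map_apply, Matrix.of_apply, mul_C_eq]
        rfl
      · intro t ht
        exact Finset.mem_biUnion.2 ⟨(k, l), Finset.mem_univ (k, l), ht⟩
    rw [hsum]
    refine Submodule.sum_mem _ fun t _ => Submodule.smul_mem _ _ (Submodule.subset_span ⟨_, hmem t, rfl⟩)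
  · rw [Submodule.span_le]
    rintro _ ⟨D, hD, rfl⟩
    rw [SetLike.mem_coe, Der, LinearMap.mem_ker] at hD ⊢
    funext i j k
    have h1 := congrFun (congrFun (congrFun hD i) j) k
    change (∑ l, D k l * b i j l) - (∑ l, D l i * b l j k) - (∑ l, D l j * b i l k) = 0 at h1
    change (∑ l, (HahnSeries.C (D k l) : HQ) * HahnSeries.C (b i j l))
      - (∑ l, (HahnSeries.C (D l i) : HQ) * HahnSeries.C (b l j k))
      - (∑ l, (HahnSeries.C (D l j) : HQ) * HahnSeries.C (b i l k)) = (0 : HQ)
    have h2 := congrArg (HahnSeries.C : ℂ →+* HQ) h1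
    simpa only [map_sub, map_sum, map_mul, map_zero] using h2

/-- 4: matrices over `ℂ` that are linearly independent stay independent over `HQ`. -/
theorem linInd_map {ι κ : Type*} [Finite ι] [Finite κ] (w : κ → Matrix ι ι ℂ) (hw : LinearIndependent ℂ w) :
    LinearIndependent HQ (fun k => (w k).map (HahnSeries.C : ℂ →+* HQ)) := by
  have := Fintype.ofFinite κ
  rw [Fintype.linearIndependent_iff] at hw ⊢
  intro g hg k
  ext q
  rw [HahnSeries.coeff_zero]
  refine hw (fun k => (g k).coeff q) ?_ k
  ext i j
  have h1 := congrFun (congrFun hg i) j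
  rw [Matrix.sum_apply] at h1 ⊢
  have h2 := congrArg (fun x : HQ => x.coeff q) h1
  simp only [Matrix.smul_apply, Matrix.map_apply, smul_eq_mul, mul_C_eq] at h2
  rw [HahnSeries.coeff_sum] at h2
  simp only [HahnSeries.coeff_smul, smul_eq_mul, Matrix.zero_apply, HahnSeries.coeff_zero] at h2
  rw [Matrix.zero_apply, ← h2]
  refine Finset.sum_congr rfl fun k _ => ?_
  rw [Matrix.smul_apply, smul_eq_mul, mul_comm]

end Pool.Agent.Helper610_Vergne.KA

namespace Pool.Agent.Helper610_Vergne

export KA (small_coeffs del_det Der_cst_span linInd_map)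

end Pool.Agent.Helper610_Vergne
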