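import Pool.Agent.Helper610_Vergne.KA
import Pool.Agent.Helper610_Vergne.Charts

/-!
# The key lemma
-/

set_option autoImplicit false

namespace Pool.Agent.Helper610_Vergne.KB

open Pool.Agent.Helper610_Vergne
open Matrix Module

section helpers1837

variable {R : Type*} [CommRing R] {N : ℕ}

theorem br_add_left1837 (c : Fin N → Fin N → Fin N → R) (x x' y : Fin N → R) :
    br c (x + x') y = br c x y + br c x' y := by
  funext k
  simp only [br, Pi.add_apply, add_mul, Finset.sum_add_distrib]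

theorem br_add_right1837 (c : Fin N → Fin N → Fin N → R) (x y y' : Fin N → R) :
    br c x (y + y') = br c x y + br c x y' := by
  funext k
  simp only [br, Pi.add_apply, mul_add, add_mul, Finset.sum_add_distrib]

theorem br_smul_left1837 (c : Fin N → Fin N → Fin N → R) (r : R) (x y : Fin N → R) :
    br c (r • x) y = r • br c x y := by
  funext k
  simp only [br, Pi.smul_apply, smul_eq_mul, Finset.mul_sum, mul_assoc]

theorem br_smul_right1837 (c : Fin N → Fin N → Fin N → R) (r : R) (x y : Fin N → R) :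
    br c x (r • y) = r • br c x y := by
  funext k
  simp only [br, Pi.smul_apply, smul_eq_mul, Finset.mul_sum]
  refine Finset.sum_congr rfl fun i _ => Finset.sum_congr rfl fun j _ => ?_
  ring

/-- `br c` as a bilinear map. -/
def brL (c : Fin N → Fin N → Fin N → R) : (Fin N → R) →ₗ[R] (Fin N → R) →ₗ[R] (Fin N → R) :=
  LinearMap.mk₂ R (br c) (br_add_left1837 c) (br_smul_left1837 c) (br_add_right1837 c)
    (br_smul_right1837 c)

theorem brL_apply (c : Fin N → Fin N → Fin N → R) (x y : Fin N → R) : brL c x y = br c x y := rfl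

theorem mulVec_eq_sum_col (Ψ : Matrix (Fin N) (Fin N) R) (x : Fin N → R) :
    Ψ *ᵥ x = ∑ i, x i • Ψ.col i := by
  funext k
  simp only [Matrix.mulVec, dotProduct, Finset.sum_apply, Pi.smul_apply, smul_eq_mul, Matrix.col]
  refine Finset.sum_congr rfl fun i _ => ?_
  rw [mul_comm]
  rfl

theorem br_sum_sum (c : Fin N → Fin N → Fin N → R) (x y : Fin N → R) (u v : Fin N → Fin N → R) :
    br c (∑ i, x i • u i) (∑ j, y j • v j) = ∑ i, ∑ j, (x i * y j) • br c (u i) (v j) := by
  rw [← brL_apply, map_sum (brL c), LinearMap.sum_apply]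
  refine Finset.sum_congr rfl fun i _ => ?_
  rw [map_sum]
  refine Finset.sum_congr rfl fun j _ => ?_
  rw [map_smul, LinearMap.map_smul, LinearMap.smul_apply, smul_smul, brL_apply, mul_comm]

/-- Bilinear extension. -/
theorem br_mulVec (c : Fin N → Fin N → Fin N → R) (Ψ : Matrix (Fin N) (Fin N) R) (x y : Fin N → R) :
    br c (Ψ *ᵥ x) (Ψ *ᵥ y) = ∑ i, ∑ j, (x i * y j) • br c (Ψ.col i) (Ψ.col j) := by
  rw [mulVec_eq_sum_col, mulVec_eq_sum_col, br_sum_sum]

theorem br_single (c : Fin N → Fin N → Fin N → R) (i j : Fin N) :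
    br c (Pi.single i 1) (Pi.single j 1) = c i j := by
  funext k
  simp [br, Pi.single_apply]

theorem br_eq_sum (c : Fin N → Fin N → Fin N → R) (x y : Fin N → R) :
    br c x y = ∑ i, ∑ j, (x i * y j) • c i j := by
  funext k
  simp [br, Finset.sum_apply]

theorem br_delta (d : Fin N → Fin N → Fin N → R) (E : Matrix (Fin N) (Fin N) R) (x y : Fin N → R) :
    br (delta d E) x y = E *ᵥ br d x y - br d (E *ᵥ x) y - br d x (E *ᵥ y) := by
  have key : ∀ i j, delta d E i j = E *ᵥ (d i j) - br d (E.col i) (Pi.single j 1)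
      - br d (Pi.single i 1) (E.col j) := by
    intro i j
    funext k
    simp only [delta, LinearMap.coe_mk, AddHom.coe_mk, Pi.sub_apply, Matrix.mulVec, dotProduct, br,
      Matrix.col, Pi.single_apply]
    simp
  have e1 : E *ᵥ br d x y = ∑ i, ∑ j, (x i * y j) • (E *ᵥ (d i j)) := by
    rw [br_eq_sum, Matrix.mulVec_sum]
    refine Finset.sum_congr rfl fun i _ => ?_
    rw [Matrix.mulVec_sum]
    refine Finset.sum_congr rfl fun j _ => ?_
    rw [Matrix.mulVec_smul]
  have hy : ∀ y : Fin N → R, y = ∑ j, y j • (Pi.single j (1 : R) : Fin N → R) := by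
    intro y
    funext k
    simp [Finset.sum_apply, Pi.single_apply]
  have e2 : br d (E *ᵥ x) y = ∑ i, ∑ j, (x i * y j) • br d (E.col i) (Pi.single j 1) := by
    conv_lhs => rw [mulVec_eq_sum_col, hy y]
    rw [br_sum_sum]
  have e3 : br d x (E *ᵥ y) = ∑ i, ∑ j, (x i * y j) • br d (Pi.single i 1) (E.col j) := by
    conv_lhs => rw [mulVec_eq_sum_col, hy x]
    rw [br_sum_sum]
  rw [e1, e2, e3, br_eq_sum, ← Finset.sum_sub_distrib, ← Finset.sum_sub_distrib]
  refine Finset.sum_congr rfl fun i _ => ?_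
  rw [← Finset.sum_sub_distrib, ← Finset.sum_sub_distrib]
  refine Finset.sum_congr rfl fun j _ => ?_
  rw [key, smul_sub, smul_sub]

theorem br_sub_const (c c' : Fin N → Fin N → Fin N → R) (x y : Fin N → R) :
    br (c - c') x y = br c x y - br c' x y := by
  funext k
  simp only [br, Pi.sub_apply, mul_sub, Finset.sum_sub_distrib]

end helpers1837

section helpers1837b

variable {N : ℕ}

theorem eq_zero_of_br_col (c : Fin N → Fin N → Fin N → HQ) (Ψ : Matrix (Fin N) (Fin N) HQ)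
    (hΨ : Ψ.det ≠ 0) (h : ∀ i j, br c (Ψ.col i) (Ψ.col j) = 0) : c = 0 := by
  have hu : IsUnit Ψ.det := isUnit_iff_ne_zero.mpr hΨ
  funext i j
  have h1 : br c (Ψ *ᵥ (Ψ⁻¹ *ᵥ Pi.single i 1)) (Ψ *ᵥ (Ψ⁻¹ *ᵥ Pi.single j 1)) = 0 := by
    rw [br_mulVec]
    simp [h]
  rw [Matrix.mulVec_mulVec, Matrix.mulVec_mulVec, Matrix.mul_nonsing_inv _ hu, Matrix.one_mulVec,
    Matrix.one_mulVec, br_single] at h1
  exact h1

/-- The isomorphism identity on all vectors. -/
theorem iso_all (b : Fin N → Fin N → Fin N → ℂ) (d : Fin N → Fin N → Fin N → HQ)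
    (Ψ : Matrix (Fin N) (Fin N) HQ)
    (hiso : ∀ i i', Ψ *ᵥ (cst b i i') = br d (Ψ.col i) (Ψ.col i')) (x y : Fin N → HQ) :
    Ψ *ᵥ br (cst b) x y = br d (Ψ *ᵥ x) (Ψ *ᵥ y) := by
  rw [br_mulVec, br_eq_sum, Matrix.mulVec_sum]
  refine Finset.sum_congr rfl fun i _ => ?_
  rw [Matrix.mulVec_sum]
  refine Finset.sum_congr rfl fun j _ => ?_
  rw [Matrix.mulVec_smul, hiso]

theorem del_sum {ι : Type*} (s : Finset ι) (f : ι → HQ) : del (∑ i ∈ s, f i) = ∑ i ∈ s, del (f i) :=
  map_sum del f s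

/-- Step 1. -/
theorem delta_E (b : Fin N → Fin N → Fin N → ℂ) (d : Fin N → Fin N → Fin N → HQ)
    (Ψ : Matrix (Fin N) (Fin N) HQ) (hΨ : Ψ.det ≠ 0)
    (hiso : ∀ i i', Ψ *ᵥ (cst b i i') = br d (Ψ.col i) (Ψ.col i')) :
    delta d ((Ψ.map del) * Ψ⁻¹) = fun i j k => del (d i j k) := by
  have hu : IsUnit Ψ.det := isUnit_iff_ne_zero.mpr hΨ
  set E := (Ψ.map del) * Ψ⁻¹ with hE
  have hEΨ : E * Ψ = Ψ.map del := by
    rw [hE, Matrix.mul_assoc, Matrix.nonsing_inv_mul _ hu, Matrix.mul_one]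
  have hcol : ∀ i, E *ᵥ Ψ.col i = (Ψ.map del).col i := by
    intro i
    rw [← hEΨ]
    funext k
    simp [Matrix.mulVec, dotProduct, Matrix.col, Matrix.mul_apply]
  have h0 : delta d E - (fun i j k => del (d i j k)) = 0 := by
    apply eq_zero_of_br_col _ Ψ hΨ
    intro i j
    rw [br_sub_const, br_delta, ← hiso, Matrix.mulVec_mulVec, hEΨ, hcol, hcol]
    funext k
    have h1 := congrArg del (congrFun (hiso i j) k)
    simp only [Matrix.mulVec, dotProduct, br, del_sum, del_mul, cst, del_C, Matrix.col] at h1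
    simp only [Pi.sub_apply, Matrix.mulVec, dotProduct, br, Matrix.col, Matrix.map_apply, cst,
      Pi.zero_apply]
    simp only [mul_zero, zero_add, mul_add, Finset.sum_add_distrib] at h1
    have e1 : ∑ l, del (Ψ k l) * HahnSeries.C (b i j l) =
        ∑ l, HahnSeries.C (b i j l) * del (Ψ k l) :=
      Finset.sum_congr rfl fun l _ => mul_comm _ _
    have e2 : ∑ p, ∑ q, (Ψ.map del)ᵀ i p * Ψᵀ j q * d p q k =
        ∑ p, ∑ q, d p q k * (Ψᵀ j q * del (Ψᵀ i p)) := by
      refine Finset.sum_congr rfl fun p _ => Finset.sum_congr rfl fun q _ => ?_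
      rw [Matrix.transpose_apply, Matrix.map_apply, Matrix.transpose_apply, Matrix.transpose_apply]
      ring
    have e3 : ∑ p, ∑ q, Ψᵀ i p * (Ψ.map del)ᵀ j q * d p q k =
        ∑ p, ∑ q, d p q k * (Ψᵀ i p * del (Ψᵀ j q)) := by
      refine Finset.sum_congr rfl fun p _ => Finset.sum_congr rfl fun q _ => ?_
      rw [Matrix.transpose_apply, Matrix.transpose_apply, Matrix.map_apply, Matrix.transpose_apply]
      ring
    rw [e1, e2, e3, h1]
    abel
  exact sub_eq_zero.mp h0

/-- The trace of a derivation of the constant algebra. -/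
theorem trace_Der_cst (b : Fin N → Fin N → Fin N → ℂ) (htr : ∀ D ∈ Der b, D.trace = 0)
    (X : Matrix (Fin N) (Fin N) HQ) (hX : X ∈ Der (cst b)) : X.trace = 0 := by
  rw [Der_cst_span] at hX
  induction hX using Submodule.span_induction with
  | mem x hx =>
    obtain ⟨D, hD, rfl⟩ := hx
    have h1 : (D.map (HahnSeries.C : ℂ →+* HQ)).trace = HahnSeries.C D.trace := by
      simp [Matrix.trace, map_sum]
    change (D.map (HahnSeries.C : ℂ →+* HQ)).trace = 0
    rw [h1, htr D hD, map_zero]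
  | zero => exact Matrix.trace_zero _ _
  | add x y _ _ hx hy => rw [Matrix.trace_add, hx, hy, add_zero]
  | smul a x _ hx => rw [Matrix.trace_smul, hx, smul_zero]

theorem conj_mem (b : Fin N → Fin N → Fin N → ℂ) (d : Fin N → Fin N → Fin N → HQ)
    (Ψ : Matrix (Fin N) (Fin N) HQ) (hΨ : Ψ.det ≠ 0)
    (hiso : ∀ i i', Ψ *ᵥ (cst b i i') = br d (Ψ.col i) (Ψ.col i'))
    (X : Matrix (Fin N) (Fin N) HQ) (hX : X ∈ Der (cst b)) : Ψ * X * Ψ⁻¹ ∈ Der d := by
  have hu : IsUnit Ψ.det := isUnit_iff_ne_zero.mpr hΨ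
  rw [mem_Der] at hX ⊢
  intro x y
  have hx : x = Ψ *ᵥ (Ψ⁻¹ *ᵥ x) := by
    rw [Matrix.mulVec_mulVec, Matrix.mul_nonsing_inv _ hu, Matrix.one_mulVec]
  have hy : y = Ψ *ᵥ (Ψ⁻¹ *ᵥ y) := by
    rw [Matrix.mulVec_mulVec, Matrix.mul_nonsing_inv _ hu, Matrix.one_mulVec]
  set x' := Ψ⁻¹ *ᵥ x with hx'
  set y' := Ψ⁻¹ *ᵥ y with hy'
  have hc : ∀ z : Fin N → HQ, (Ψ * X * Ψ⁻¹) *ᵥ (Ψ *ᵥ z) = Ψ *ᵥ (X *ᵥ z) := by
    intro z
    rw [Matrix.mulVec_mulVec, Matrix.mul_assoc, Matrix.nonsing_inv_mul _ hu, Matrix.mul_one,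
      Matrix.mulVec_mulVec]
  rw [hx, hy, ← iso_all b d Ψ hiso, hc, hc, hc, hX, Matrix.mulVec_add, iso_all b d Ψ hiso,
    iso_all b d Ψ hiso]

theorem conj_mem' (b : Fin N → Fin N → Fin N → ℂ) (d : Fin N → Fin N → Fin N → HQ)
    (Ψ : Matrix (Fin N) (Fin N) HQ) (hΨ : Ψ.det ≠ 0)
    (hiso : ∀ i i', Ψ *ᵥ (cst b i i') = br d (Ψ.col i) (Ψ.col i'))
    (X : Matrix (Fin N) (Fin N) HQ) (hX : X ∈ Der d) : Ψ⁻¹ * X * Ψ ∈ Der (cst b) := by
  have hu : IsUnit Ψ.det := isUnit_iff_ne_zero.mpr hΨ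
  rw [mem_Der] at hX ⊢
  intro x y
  have hinj : Function.Injective (fun z : Fin N → HQ => Ψ *ᵥ z) := by
    intro z z' h
    have h1 := congrArg (fun w => Ψ⁻¹ *ᵥ w) h
    simpa [Matrix.mulVec_mulVec, Matrix.nonsing_inv_mul _ hu] using h1
  have hc : ∀ z : Fin N → HQ, Ψ *ᵥ ((Ψ⁻¹ * X * Ψ) *ᵥ z) = X *ᵥ (Ψ *ᵥ z) := by
    intro z
    rw [Matrix.mulVec_mulVec, ← Matrix.mul_assoc, ← Matrix.mul_assoc, Matrix.mul_nonsing_inv _ hu,
      Matrix.one_mul, Matrix.mulVec_mulVec]
  apply hinj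
  change Ψ *ᵥ ((Ψ⁻¹ * X * Ψ) *ᵥ br (cst b) x y) = Ψ *ᵥ (br (cst b) ((Ψ⁻¹ * X * Ψ) *ᵥ x) y
    + br (cst b) x ((Ψ⁻¹ * X * Ψ) *ᵥ y))
  rw [hc, Matrix.mulVec_add, iso_all b d Ψ hiso, iso_all b d Ψ hiso, iso_all b d Ψ hiso, hc, hc, hX]

/-- Step 2. -/
theorem finrank_Der_le (b : Fin N → Fin N → Fin N → ℂ) (d : Fin N → Fin N → Fin N → HQ)
    (Ψ : Matrix (Fin N) (Fin N) HQ) (hΨ : Ψ.det ≠ 0)
    (hiso : ∀ i i', Ψ *ᵥ (cst b i i') = br d (Ψ.col i) (Ψ.col i')) :
    finrank ℂ (Der b) ≤ finrank HQ (Der d) := by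
  have hu : IsUnit Ψ.det := isUnit_iff_ne_zero.mpr hΨ
  let B := Module.finBasis ℂ (Der b)
  let w : Fin (finrank ℂ (Der b)) → Matrix (Fin N) (Fin N) ℂ := fun k => (B k : Matrix (Fin N) (Fin N) ℂ)
  have hw : LinearIndependent ℂ w :=
    B.linearIndependent.map' (Der b).subtype (Submodule.ker_subtype _)
  have hw2 := linInd_map w hw
  let conj : Matrix (Fin N) (Fin N) HQ →ₗ[HQ] Matrix (Fin N) (Fin N) HQ :=
    { toFun := fun X => Ψ * X * Ψ⁻¹
      map_add' := fun X Y => by rw [Matrix.mul_add, Matrix.add_mul]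
      map_smul' := fun r X => by
        rw [Matrix.mul_smul, Matrix.smul_mul, RingHom.id_apply] }
  have hconj : LinearMap.ker conj = ⊥ := by
    rw [LinearMap.ker_eq_bot']
    intro X hX
    have h1 : Ψ * X * Ψ⁻¹ = 0 := hX
    have h2 : Ψ⁻¹ * (Ψ * X * Ψ⁻¹) * Ψ = X := by
      rw [Matrix.mul_assoc, Matrix.mul_assoc, Matrix.mul_assoc, Matrix.nonsing_inv_mul _ hu,
        Matrix.mul_one, ← Matrix.mul_assoc, Matrix.nonsing_inv_mul _ hu, Matrix.one_mul]
    rw [← h2, h1, Matrix.mul_zero, Matrix.zero_mul]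
  have hw3 := hw2.map' conj hconj
  have hmem : ∀ k, conj ((w k).map (HahnSeries.C : ℂ →+* HQ)) ∈ Der d := by
    intro k
    apply conj_mem b d Ψ hΨ hiso
    rw [Der_cst_span]
    exact Submodule.subset_span ⟨w k, (B k).2, rfl⟩
  have hw4 : LinearIndependent HQ (fun k => (⟨_, hmem k⟩ : Der d)) := by
    apply LinearIndependent.of_comp (Der d).subtype
    exact hw3
  have := hw4.fintype_card_le_finrank
  simpa using this

theorem finrank_range_delta_add {F : Type*} [Field F] (c : Fin N → Fin N → Fin N → F) :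
    finrank F (LinearMap.range (delta c)) + finrank F (Der c) = N * N := by
  have h := LinearMap.finrank_range_add_finrank_ker (delta c)
  have h2 : finrank F (Matrix (Fin N) (Fin N) F) = N * N := by
    rw [Module.finrank_matrix]; simp
  rw [← h2, ← h]
  rfl

theorem coeff_delta (d : Fin N → Fin N → Fin N → HQ) (hd : ∀ i j k, Reg (d i j k))
    (w : Matrix (Fin N) (Fin N) ℂ) (i j k : Fin N) :
    Reg (delta d (w.map (HahnSeries.C : ℂ →+* HQ)) i j k) ∧
      (delta d (w.map (HahnSeries.C : ℂ →+* HQ)) i j k).coeff 0 =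
        delta (fun i j k => (d i j k).coeff 0) w i j k := by
  have hr : ∀ (a : ℂ) (i j k : Fin N), Reg (HahnSeries.C a * d i j k) := fun a i j k =>
    (reg_C a).mul (hd i j k)
  have hc : ∀ (a : ℂ) (i j k : Fin N), (HahnSeries.C a * d i j k).coeff 0 = a * (d i j k).coeff 0 :=
    fun a i j k => by rw [coeff_zero_mul (reg_C a) (hd i j k), coeff_zero_C]
  constructor
  · simp only [delta, LinearMap.coe_mk, AddHom.coe_mk, Matrix.map_apply]
    refine Reg.sub (Reg.sub ?_ ?_) ?_ <;> exact Reg.sum _ _ fun l _ => hr _ _ _ _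
  · simp only [delta, LinearMap.coe_mk, AddHom.coe_mk, Matrix.map_apply, HahnSeries.coeff_sub,
      HahnSeries.coeff_sum, hc]

/-- Independent preimages of a basis of the range. -/
theorem exists_ind_range {K V : Type*} [Field K] [AddCommGroup V] [Module K V]
    (g : V →ₗ[K] (Fin N → Fin N → Fin N → K)) :
    ∃ w : Fin (finrank K (LinearMap.range g)) → V,
      LinearIndependent K (fun i (p : Fin N × Fin N × Fin N) => g (w i) p.1 p.2.1 p.2.2) := by
  let B := Module.finBasis K (LinearMap.range g)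
  have hBw : ∀ k, ∃ w : V, g w = B k := fun k => (B k).2
  choose w hw using hBw
  refine ⟨w, ?_⟩
  rw [Fintype.linearIndependent_iff]
  intro a ha
  apply Fintype.linearIndependent_iff.mp B.linearIndependent a
  apply Subtype.ext
  rw [Submodule.coe_sum, Submodule.coe_zero]
  funext i j k
  have h1 := congrFun ha (i, j, k)
  simp only [Finset.sum_apply, Pi.smul_apply, smul_eq_mul, Pi.zero_apply] at h1 ⊢
  rw [← h1]
  refine Finset.sum_congr rfl fun l _ => ?_
  rw [hw l]
  rfl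

/-- The abstract linear algebra. -/
theorem lin_core {K V : Type*} [Field K] [AddCommGroup V] [Module K V]
    (f : V →ₗ[K] (Fin N → Fin N → Fin N → K)) (r : ℕ) (u : Fin r → V)
    (hr : finrank K (LinearMap.range f) ≤ r) (S : K → Prop) (h0 : S 0) (h1 : ¬ S 1)
    (hS : ∀ a : Fin r → K, (∀ p : Fin N × Fin N × Fin N, S (∑ i, a i * f (u i) p.1 p.2.1 p.2.2)) →
      ∀ i, S (a i)) (E : V) (hE : ∀ i j k, S (f E i j k)) :
    ∃ a : Fin r → K, (∀ i, S (a i)) ∧ f (E - ∑ i, a i • u i) = 0 := by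
  let u' : Fin r → LinearMap.range f := fun i => ⟨f (u i), LinearMap.mem_range_self _ _⟩
  have huind : LinearIndependent K u' := by
    rw [Fintype.linearIndependent_iff]
    intro g hg i
    by_contra hne
    have hp : ∀ p : Fin N × Fin N × Fin N, ∑ l, g l * f (u l) p.1 p.2.1 p.2.2 = 0 := by
      intro p
      have h3 := congrArg (fun z : LinearMap.range f =>
        (z : Fin N → Fin N → Fin N → K) p.1 p.2.1 p.2.2) hg
      simp only [Submodule.coe_sum, Finset.sum_apply, Submodule.coe_smul, Pi.smul_apply,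
        smul_eq_mul] at h3
      exact h3
    have h2 := hS (fun l => (g i)⁻¹ * g l) (fun p => by
      have h4 : ∑ l, ((g i)⁻¹ * g l) * f (u l) p.1 p.2.1 p.2.2 =
          (g i)⁻¹ * ∑ l, g l * f (u l) p.1 p.2.1 p.2.2 := by
        rw [Finset.mul_sum]
        exact Finset.sum_congr rfl fun l _ => by rw [mul_assoc]
      rw [h4, hp p, mul_zero]
      exact h0) i
    rw [inv_mul_cancel₀ hne] at h2
    exact h1 h2
  have hcard : Fintype.card (Fin r) = finrank K (LinearMap.range f) := by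
    have h1 := huind.fintype_card_le_finrank
    rw [Fintype.card_fin] at h1 ⊢
    exact le_antisymm h1 hr
  have hspan := huind.span_eq_top_of_card_eq_finrank' hcard
  obtain ⟨a, ha⟩ : ∃ a : Fin r → K, ∑ i, a i • u' i =
      (⟨f E, LinearMap.mem_range_self _ _⟩ : LinearMap.range f) := by
    apply (Submodule.mem_span_range_iff_exists_fun K).mp
    rw [hspan]
    trivial
  have ha' : ∑ i, a i • f (u i) = f E := by
    have h1 := congrArg Subtype.val ha
    rw [Submodule.coe_sum] at h1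
    exact h1
  refine ⟨a, ?_, ?_⟩
  · apply hS
    intro p
    have h2 := congrFun (congrFun (congrFun ha' p.1) p.2.1) p.2.2
    simp only [Finset.sum_apply, Pi.smul_apply, smul_eq_mul] at h2
    rw [h2]
    exact hE _ _ _
  · rw [map_sub, map_sum, sub_eq_zero, ← ha']
    exact Finset.sum_congr rfl fun i _ => (map_smul _ _ _).symm

end helpers1837b

/- Proof. `Ψ` is an isomorphism from the constant algebra `cst b` to the algebra `d`: `Ψ *ᵥ br (cst b) v w = br d (Ψ *ᵥ v) (Ψ *ᵥ w)`.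
1. `E := (Ψ.map del) * Ψ⁻¹` satisfies `delta d E = fun i j k => del (d i j k)`: apply `del` entrywise to the isomorphism identity (the constants of
   `cst b` are killed by `del_C`), for constant `v w` first, then by bilinearity replace `v, w` by `Ψ⁻¹ e_i, Ψ⁻¹ e_j`.
2. `X ↦ Ψ * X * Ψ⁻¹` maps `Der (cst b)` bijectively to `Der d`. By `linInd_map` `finrank HQ (Der d) ≥ finrank ℂ (Der b)`.
3. Let `dbar i j k = (d i j k).coeff 0`, `r = finrank ℂ (range (delta dbar)) = N^2 - finrank ℂ (Der dbar) ≥ N^2 - finrank ℂ (Der b) ≥ finrank HQ (range (delta d))`.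
   Choose `w : Fin r → Matrix _ _ ℂ` with `delta dbar (w i)` linearly independent. `v i = delta d ((w i).map C)` has regular entries with
   constant coefficients `delta dbar (w i)`; by `small_coeffs` the `v i` are linearly independent over `HQ` (a relation `∑ a i v i = 0` can be multiplied by any
   scalar, so every multiple of `a i` is small, so `a i = 0`), hence they span the range of `delta d` (dimension count).
4. `delta d E = del d` has small entries (`del_small`), `= ∑ a i • v i`, so all `a i` are small (`small_coeffs`). `E₁ = ∑ a i • (w i).map C` has small entries and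
   `delta d (E - E₁) = 0`, so `Ψ⁻¹ * (E - E₁) * Ψ ∈ Der (cst b)`, which has trace zero by `Der_cst_span` and `htr`. So `trace E = trace E₁` is small.
5. `del_det`: `del det = det * trace E`; `logder`: `del det = (C order + small) * det`; so `C order = trace E - small` is small, hence `order = 0`. -/

theorem kl_core {N : ℕ} (b : Fin N → Fin N → Fin N → ℂ) (htr : ∀ D ∈ Der b, D.trace = 0)
    (d : Fin N → Fin N → Fin N → HQ) (hd : ∀ i j k, Reg (d i j k))
    (hdim : finrank ℂ (Der (fun i j k => (d i j k).coeff 0)) ≤ finrank ℂ (Der b))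
    (Ψ : Matrix (Fin N) (Fin N) HQ) (hΨ : Ψ.det ≠ 0)
    (hiso : ∀ i i', Ψ *ᵥ (cst b i i') = br d (Ψ.col i) (Ψ.col i')) : Ψ.det.order = 0 := by
  have hu : IsUnit Ψ.det := isUnit_iff_ne_zero.mpr hΨ
  set E := (Ψ.map del) * Ψ⁻¹ with hE
  have hdE : delta d E = fun i j k => del (d i j k) := delta_E b d Ψ hΨ hiso
  set dbar : Fin N → Fin N → Fin N → ℂ := fun i j k => (d i j k).coeff 0 with hdbar
  have hr1 : finrank HQ (LinearMap.range (delta d)) ≤ finrank ℂ (LinearMap.range (delta dbar)) := by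
    have h1 := finrank_range_delta_add dbar
    have h2 := finrank_range_delta_add d
    have h3 := finrank_Der_le b d Ψ hΨ hiso
    omega
  obtain ⟨w, hw⟩ := exists_ind_range (delta dbar)
  have hvind : LinearIndependent ℂ (fun (i : Fin (finrank ℂ (LinearMap.range (delta dbar))))
      (p : Fin N × Fin N × Fin N) =>
        (delta d ((w i).map (HahnSeries.C : ℂ →+* HQ)) p.1 p.2.1 p.2.2).coeff 0) := by
    have h1 : (fun (i : Fin (finrank ℂ (LinearMap.range (delta dbar))))
      (p : Fin N × Fin N × Fin N) =>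
        (delta d ((w i).map (HahnSeries.C : ℂ →+* HQ)) p.1 p.2.1 p.2.2).coeff 0) =
        fun i (p : Fin N × Fin N × Fin N) => delta dbar (w i) p.1 p.2.1 p.2.2 := by
      funext i p
      exact (coeff_delta d hd (w i) _ _ _).2
    rw [h1]
    exact hw
  have hn1 : ¬ Small 1 := by
    intro h
    have h6 := h 0 le_rfl
    rw [← HahnSeries.C_one, coeff_zero_C] at h6
    exact one_ne_zero h6
  let W : Fin (finrank ℂ (LinearMap.range (delta dbar))) → Matrix (Fin N) (Fin N) HQ :=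
    fun i => (w i).map (HahnSeries.C : ℂ →+* HQ)
  have hS : ∀ a : Fin (finrank ℂ (LinearMap.range (delta dbar))) → HQ,
      (∀ p : Fin N × Fin N × Fin N, Small (∑ i, a i * delta d (W i) p.1 p.2.1 p.2.2)) →
      ∀ i, Small (a i) := by
    intro a ha
    exact small_coeffs (fun i (p : Fin N × Fin N × Fin N) => delta d (W i) p.1 p.2.1 p.2.2)
      (fun i p => (coeff_delta d hd (w i) p.1 p.2.1 p.2.2).1) hvind a ha
  have hE' : ∀ i j k, Small (delta d E i j k) := by
    intro i j k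
    rw [hdE]
    exact del_small (hd i j k)
  obtain ⟨a, hsm, ha⟩ := lin_core (delta d) _ W hr1 Small Small.zero hn1 hS E hE'
  set E₁ : Matrix (Fin N) (Fin N) HQ := ∑ i, a i • (w i).map (HahnSeries.C : ℂ →+* HQ) with hE₁
  have hE₁tr : Small E₁.trace := by
    rw [hE₁, Matrix.trace_sum]
    apply Small.sum
    intro i _
    rw [Matrix.trace_smul, smul_eq_mul]
    apply (hsm i).mul_reg
    apply Reg.sum
    intro j _
    exact reg_C _
  have hdiff : E - E₁ ∈ Der d := ha
  have htrE : E.trace = E₁.trace := by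
    have h1 := trace_Der_cst b htr _ (conj_mem' b d Ψ hΨ hiso _ hdiff)
    rw [Matrix.trace_mul_comm, ← Matrix.mul_assoc, Matrix.mul_nonsing_inv _ hu, Matrix.one_mul,
      Matrix.trace_sub, sub_eq_zero] at h1
    exact h1
  obtain ⟨ρ, hρ, hlog⟩ := logder Ψ.det hΨ
  rw [del_det Ψ hΨ, mul_comm] at hlog
  have h1 := mul_right_cancel₀ hΨ hlog
  rw [← hE, htrE] at h1
  have h2 : Small (HahnSeries.C (Ψ.det.order : ℂ)) := by
    have h3 : HahnSeries.C (Ψ.det.order : ℂ) = E₁.trace - ρ := by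
      rw [h1]; ring
    rw [h3]
    exact hE₁tr.sub hρ
  have h4 := h2 0 le_rfl
  rw [coeff_zero_C] at h4
  exact_mod_cast h4

end Pool.Agent.Helper610_Vergne.KB

namespace Pool.Agent.Helper610_Vergne

export KB (kl_core)

end Pool.Agent.Helper610_Vergne
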