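import Pool.Agent.Helper610_Vergne.Defs
import Pool.Agent.Helper165.P1.Pui

/-!
# Specialisation of a transcendental element to 1 / s
-/

set_option autoImplicit false

namespace Pool.Agent.Helper610_Vergne.LemN

open Pool.Agent.Helper610_Vergne
open Matrix Module

/- Proof (plain words). Make `B` an algebra over `ℂ[X]` by `X ↦ f` (`Polynomial.aeval f`); the structure map is injective since
`f` is transcendental. `K₀ = RatFunc ℂ` (or FractionRing) is flat over `ℂ[X]`, so `K₀ = K₀ ⊗ ℂ[X] → K₀ ⊗_{ℂ[X]} B` is injective and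
`K₀ ⊗ B` is a nontrivial `K₀`-algebra of finite type. Take a maximal ideal `M`; `L = (K₀ ⊗ B) / M` is a field of finite type
over `K₀`, hence finite (Zariski's lemma, `finite_of_finite_type_of_isJacobsonRing`), hence algebraic. `Pui ℂ` (the field of
Puiseux series, a subfield of `HahnSeries ℚ ℂ`, in the starting library file Pool/Agent/Helper165/P1/Pui.lean, which contains
the instance `IsAlgClosed (Pui ℂ)`) contains `T = single (-1) 1` (image of the Laurent series `single (-1) 1` under `eHom 1`), which is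
transcendental over `ℂ`. Make `Pui ℂ` a `K₀`-algebra by `X ↦ T` and use `IsAlgClosed.lift : L →ₐ[K₀] Pui ℂ`. Compose
`B → K₀ ⊗ B → L → Pui ℂ → HQ`. -/
/-- The inclusion of the constants into the field of Puiseux series. -/
noncomputable def cPui : ℂ →+* Helper165.P1.Pui ℂ :=
  (Helper165.P1.eP 1 one_pos).comp (HahnSeries.C : ℂ →+* HahnSeries ℤ ℂ)

/-- The Puiseux series `1 / s`. -/
noncomputable def tPui : Helper165.P1.Pui ℂ :=
  Helper165.P1.eP 1 one_pos (HahnSeries.single (-1 : ℤ) (1 : ℂ))

theorem eHom_single (n : ℤ) (z : ℂ) :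
    Helper165.P1.eHom 1 one_pos (HahnSeries.single n z) =
      (HahnSeries.single (n : ℚ) z : HahnSeries ℚ ℂ) := by
  unfold Helper165.P1.eHom
  rw [HahnSeries.embDomainRingHom_apply]
  have h : (Helper165.P1.divHom 1) n = (n : ℚ) := by
    change (n : ℚ) / ((1 : ℕ) : ℚ) = n
    simp
  rw [HahnSeries.embDomain_single]
  exact congrArg (fun q => (HahnSeries.single q z : HahnSeries ℚ ℂ)) h

theorem coe_cPui (z : ℂ) : ((cPui z : Helper165.P1.Pui ℂ) : HQ) = HahnSeries.C z := by
  have h : ((cPui z : Helper165.P1.Pui ℂ) : HQ) =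
    Helper165.P1.eHom 1 one_pos (HahnSeries.single (0 : ℤ) z) := rfl
  rw [h, eHom_single]
  simp

theorem coe_tPui : ((tPui : Helper165.P1.Pui ℂ) : HQ) = T := by
  have h : ((tPui : Helper165.P1.Pui ℂ) : HQ) =
    Helper165.P1.eHom 1 one_pos (HahnSeries.single (-1 : ℤ) 1) := rfl
  rw [h, eHom_single, T]
  norm_num

/-- Polynomials evaluated at `1 / s`. -/
noncomputable def gPui : Polynomial ℂ →+* Helper165.P1.Pui ℂ :=
  Polynomial.eval₂RingHom cPui tPui

theorem T_pow (i : ℕ) : T ^ i = HahnSeries.single (-(i : ℚ)) (1 : ℂ) := by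
  unfold T
  rw [HahnSeries.single_pow]
  simp

theorem coe_gPui (p : Polynomial ℂ) : ((gPui p : Helper165.P1.Pui ℂ) : HQ) =
    ∑ i ∈ Finset.range (p.natDegree + 1), HahnSeries.single (-(i : ℚ)) (p.coeff i) := by
  have h : gPui p = Polynomial.eval₂ cPui tPui p := rfl
  rw [h, Polynomial.eval₂_eq_sum_range]
  push_cast
  refine Finset.sum_congr rfl fun i _ => ?_
  rw [coe_cPui, coe_tPui, T_pow]
  simp

theorem gPui_injective : Function.Injective gPui := by
  rw [injective_iff_map_eq_zero]
  intro p hp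
  by_contra hne
  have h := coe_gPui p
  rw [hp] at h
  have h2 := congrArg (fun x : HQ => x.coeff (-(p.natDegree : ℚ))) h
  simp only [HahnSeries.coeff_sum] at h2
  rw [Finset.sum_eq_single p.natDegree] at h2
  · rw [HahnSeries.coeff_single_same] at h2
    have h3 : ((0 : Helper165.P1.Pui ℂ) : HQ).coeff (-(p.natDegree : ℚ)) = 0 := by simp
    rw [h3] at h2
    exact hne (Polynomial.leadingCoeff_eq_zero.1 h2.symm)
  · intro i _ hi
    apply HahnSeries.coeff_single_of_ne
    intro hh
    apply hi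
    have : (p.natDegree : ℚ) = i := by linarith
    exact_mod_cast this.symm
  · intro hh
    exact absurd (Finset.mem_range.2 (Nat.lt_succ_self _)) hh

theorem exists_lift (K L Ω : Type) [Field K] [Field L] [Algebra K L] [Module.Finite K L] [Field Ω]
    [IsAlgClosed Ω] [Algebra K Ω] : Nonempty (L →ₐ[K] Ω) := ⟨IsAlgClosed.lift⟩

open scoped TensorProduct in

theorem lemmaN {B : Type} [CommRing B] [Algebra ℂ B] [Algebra.FiniteType ℂ B] (f : B)
    (hf : Transcendental ℂ f) : ∃ σ : B →ₐ[ℂ] HQ, σ f = T := by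
  let _ : Algebra (Polynomial ℂ) B := (Polynomial.aeval f).toRingHom.toAlgebra
  have hinj : Function.Injective (algebraMap (Polynomial ℂ) B) :=
    transcendental_iff_injective.1 hf
  have _ : IsScalarTower ℂ (Polynomial ℂ) B := IsScalarTower.of_algebraMap_eq fun z => by
    change algebraMap ℂ B z = Polynomial.aeval f (Polynomial.C z)
    rw [Polynomial.aeval_C]
  have _ : Algebra.FiniteType (Polynomial ℂ) B :=
    Algebra.FiniteType.of_restrictScalars_finiteType ℂ (Polynomial ℂ) B
  let K : Type := FractionRing (Polynomial ℂ)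
  have _ : Module.Flat (Polynomial ℂ) K := IsLocalization.flat K (nonZeroDivisors (Polynomial ℂ))
  have hinj2 : Function.Injective
      (Algebra.TensorProduct.includeLeft : K →ₐ[K] K ⊗[Polynomial ℂ] B) :=
    Algebra.TensorProduct.includeLeft_injective hinj
  have _ : Nontrivial (K ⊗[Polynomial ℂ] B) := hinj2.nontrivial
  obtain ⟨M, hM⟩ := Ideal.exists_maximal (K ⊗[Polynomial ℂ] B)
  let _ : Field ((K ⊗[Polynomial ℂ] B) ⧸ M) := Ideal.Quotient.field M
  have _ : Algebra.FiniteType K (K ⊗[Polynomial ℂ] B) := inferInstance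
  have _ : Algebra.FiniteType K ((K ⊗[Polynomial ℂ] B) ⧸ M) :=
    Algebra.FiniteType.of_surjective (Ideal.Quotient.mkₐ K M) (Ideal.Quotient.mkₐ_surjective K M)
  have _ : Module.Finite K ((K ⊗[Polynomial ℂ] B) ⧸ M) :=
    finite_of_finite_type_of_isJacobsonRing K ((K ⊗[Polynomial ℂ] B) ⧸ M)
  let _ : Algebra K (Helper165.P1.Pui ℂ) := (IsFractionRing.lift gPui_injective).toAlgebra
  obtain ⟨φ⟩ := exists_lift K ((K ⊗[Polynomial ℂ] B) ⧸ M) (Helper165.P1.Pui ℂ)
  let τ : B →+* HQ := ((Helper165.P1.Pui ℂ).subtype.comp φ.toRingHom).comp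
    ((Ideal.Quotient.mk M).comp
      (Algebra.TensorProduct.includeRight : B →ₐ[Polynomial ℂ] K ⊗[Polynomial ℂ] B).toRingHom)
  have key : ∀ p : Polynomial ℂ, τ (algebraMap (Polynomial ℂ) B p) = ((gPui p : Helper165.P1.Pui ℂ) : HQ) := by
    intro p
    have h1 : (Algebra.TensorProduct.includeRight : B →ₐ[Polynomial ℂ] K ⊗[Polynomial ℂ] B)
        (algebraMap (Polynomial ℂ) B p) = algebraMap K (K ⊗[Polynomial ℂ] B)
          (algebraMap (Polynomial ℂ) K p) := by
      rw [AlgHom.commutes, ← IsScalarTower.algebraMap_apply]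
    have h2 : φ ((Ideal.Quotient.mk M) (algebraMap K (K ⊗[Polynomial ℂ] B)
        (algebraMap (Polynomial ℂ) K p))) = gPui p := by
      have h3 : (Ideal.Quotient.mk M) (algebraMap K (K ⊗[Polynomial ℂ] B)
          (algebraMap (Polynomial ℂ) K p)) =
          algebraMap K ((K ⊗[Polynomial ℂ] B) ⧸ M) (algebraMap (Polynomial ℂ) K p) := rfl
      rw [h3, AlgHom.commutes]
      exact IsFractionRing.lift_algebraMap gPui_injective p
    change ((φ ((Ideal.Quotient.mk M) ((Algebra.TensorProduct.includeRight :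
      B →ₐ[Polynomial ℂ] K ⊗[Polynomial ℂ] B) (algebraMap (Polynomial ℂ) B p))) :
        Helper165.P1.Pui ℂ) : HQ) = _
    rw [h1, h2]
  refine ⟨{ τ with commutes' := fun z => ?_ }, ?_⟩
  · change τ (algebraMap ℂ B z) = _
    rw [IsScalarTower.algebraMap_apply ℂ (Polynomial ℂ) B, key]
    have h : gPui (algebraMap ℂ (Polynomial ℂ) z) = cPui z := by
      change Polynomial.eval₂ cPui tPui (Polynomial.C z) = cPui z
      rw [Polynomial.eval₂_C]
    rw [h, coe_cPui, HahnSeries.algebraMap_apply', PowerSeries.algebraMap_apply]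
    simp
  · change τ f = T
    have hfX : f = algebraMap (Polynomial ℂ) B Polynomial.X := by
      change f = Polynomial.aeval f Polynomial.X
      rw [Polynomial.aeval_X]
    rw [hfX, key]
    have h : gPui Polynomial.X = tPui := by
      change Polynomial.eval₂ cPui tPui Polynomial.X = tPui
      rw [Polynomial.eval₂_X]
    rw [h, coe_tPui]

end Pool.Agent.Helper610_Vergne.LemN

namespace Pool.Agent.Helper610_Vergne

export LemN (lemmaN)

end Pool.Agent.Helper610_Vergne
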