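import Pool.Agent.Helper610_Vergne.MinsReg
import Pool.Agent.Helper610_Vergne.LemN

/-!
# The minors of a homomorphism of the hyperplane with the largest derivation algebra are constant
-/

set_option autoImplicit false

namespace Pool.Agent.Helper610_Vergne

open Matrix Module

theorem map_mins {R S : Type*} [CommRing R] [CommRing S] (σ : R →+* S) {N : ℕ}
    (ψ : Matrix (Fin (N + 1)) (Fin N) R) (j : Fin (N + 1)) :
    mins (ψ.map σ) j = σ (mins ψ j) := by
  rw [mins, mins, map_mul, map_pow, map_neg, map_one, RingHom.map_det]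
  rfl

/-- The relations for a homomorphism of the hyperplane, over a `ℂ`-algebra. -/
def Rels {K : Type} [CommRing K] [Algebra ℂ K] {N : ℕ}
    (c : Fin (N + 1) → Fin (N + 1) → Fin (N + 1) → ℂ) (b : Fin N → Fin N → Fin N → ℂ)
    (ψ : Matrix (Fin (N + 1)) (Fin N) K) : Prop :=
  (∀ i i' k, ∑ l, ψ k l * algebraMap ℂ K (b i i' l) =
    ∑ p, ∑ q, ψ p i * ψ q i' * algebraMap ℂ K (c p q k)) ∧
  (∀ p q, ∑ k, mins ψ k * algebraMap ℂ K (c p q k) = 0)

theorem Rels.map {K L : Type} [CommRing K] [Algebra ℂ K] [CommRing L] [Algebra ℂ L] {N : ℕ}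
    {c : Fin (N + 1) → Fin (N + 1) → Fin (N + 1) → ℂ} {b : Fin N → Fin N → Fin N → ℂ}
    {ψ : Matrix (Fin (N + 1)) (Fin N) K} (h : Rels c b ψ) (σ : K →ₐ[ℂ] L) :
    Rels c b (ψ.map (σ : K →+* L)) := by
  constructor
  · intro i i' k
    have := congrArg σ (h.1 i i' k)
    simp only [map_sum, map_mul, AlgHom.commutes] at this
    exact this
  · intro p q
    have := congrArg σ (h.2 p q)
    simp only [map_sum, map_mul, AlgHom.commutes, map_zero] at this
    rw [← this]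
    exact Finset.sum_congr rfl fun k _ => by rw [map_mins]; rfl

theorem Rels.comap {K L : Type} [CommRing K] [Algebra ℂ K] [CommRing L] [Algebra ℂ L] {N : ℕ}
    {c : Fin (N + 1) → Fin (N + 1) → Fin (N + 1) → ℂ} {b : Fin N → Fin N → Fin N → ℂ}
    {ψ : Matrix (Fin (N + 1)) (Fin N) K} (σ : K →ₐ[ℂ] L) (hσ : Function.Injective σ)
    (h : Rels c b (ψ.map (σ : K →+* L))) : Rels c b ψ := by
  constructor
  · intro i i' k
    apply hσ
    simp only [map_sum, map_mul, AlgHom.commutes]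
    exact h.1 i i' k
  · intro p q
    apply hσ
    simp only [map_sum, map_mul, AlgHom.commutes, map_zero]
    rw [← h.2 p q]
    exact Finset.sum_congr rfl fun k _ => by rw [map_mins]; rfl

/-- Reduction to a finitely generated algebra. -/
theorem exists_fg {K : Type} [Field K] [Algebra ℂ K] {N : ℕ}
    (c : Fin (N + 1) → Fin (N + 1) → Fin (N + 1) → ℂ) (b : Fin N → Fin N → Fin N → ℂ)
    (ψ : Matrix (Fin (N + 1)) (Fin N) K) (h : Rels c b ψ) (j : Fin (N + 1))
    (hcon : ¬ ∃ z : ℂ, mins ψ j = algebraMap ℂ K z) :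
    ∃ (B : Type) (_ : CommRing B) (_ : Algebra ℂ B) (_ : Algebra.FiniteType ℂ B)
      (ψB : Matrix (Fin (N + 1)) (Fin N) B), Rels c b ψB ∧ Transcendental ℂ (mins ψB j) := by
  set B : Subalgebra ℂ K :=
    Algebra.adjoin ℂ (Set.range (fun p : Fin (N + 1) × Fin N => ψ p.1 p.2)) with hB
  have hfin : Algebra.FiniteType ℂ B := by
    rw [← Subalgebra.fg_iff_finiteType]
    exact Subalgebra.fg_def.2 ⟨_, Set.finite_range _, rfl⟩
  have hmem : ∀ i k, ψ i k ∈ B := fun i k => Algebra.subset_adjoin ⟨(i, k), rfl⟩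
  set ψB : Matrix (Fin (N + 1)) (Fin N) B := Matrix.of fun i k => ⟨ψ i k, hmem i k⟩ with hψB
  have hval : ψB.map (B.val : B →+* K) = ψ := by
    ext i k
    rfl
  refine ⟨B, inferInstance, inferInstance, hfin, ψB,
    Rels.comap B.val Subtype.val_injective (by rw [hval]; exact h), ?_⟩
  intro halg
  apply hcon
  have h0 : mins ψ j = B.val (mins ψB j) := by
    have := map_mins (B.val : B →+* K) ψB j
    rw [hval] at this
    exact this
  have h1 : IsAlgebraic ℂ (mins ψ j) := by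
    rw [h0]
    exact halg.algHom B.val
  have h2 : IsIntegral ℂ (mins ψ j) := h1.isIntegral
  have h3 := IsAlgClosed.degree_eq_one_of_irreducible ℂ (minpoly.irreducible h2)
  obtain ⟨z, hz⟩ := minpoly.mem_range_of_degree_eq_one ℂ _ h3
  exact ⟨z, hz.symm⟩

theorem algebraMap_HQ (z : ℂ) : algebraMap ℂ HQ z = HahnSeries.C z := by
  rw [HahnSeries.algebraMap_apply']
  simp

/-- The relations over `HQ`. -/
theorem rels_HQ {N : ℕ} (c : Fin (N + 1) → Fin (N + 1) → Fin (N + 1) → ℂ)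
    (b : Fin N → Fin N → Fin N → ℂ) (ψ : Matrix (Fin (N + 1)) (Fin N) HQ) :
    Rels c b ψ ↔ (∀ i i', ψ *ᵥ (cst b i i') = br (cst c) (ψ.col i) (ψ.col i')) ∧
      Ann (cst c) (mins ψ) := by
  unfold Rels Ann
  simp only [algebraMap_HQ]
  constructor
  · rintro ⟨h1, h2⟩
    exact ⟨fun i i' => funext fun k => h1 i i' k, h2⟩
  · rintro ⟨h1, h2⟩
    exact ⟨fun i i' k => congrFun (h1 i i') k, h2⟩

/-- The minors are constant. -/
theorem mins_const' (kl : KlCore) {N : ℕ} (c : Fin (N + 1) → Fin (N + 1) → Fin (N + 1) → ℂ)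
    (b : Fin N → Fin N → Fin N → ℂ) (htr : ∀ D ∈ Der b, D.trace = 0)
    (hmax : ∀ (β : Fin (N + 1) → ℂ) (j : Fin (N + 1)), β j = 1 → Ann c β →
      finrank ℂ (Der (chart c β j)) ≤ finrank ℂ (Der b))
    (ψ : Matrix (Fin (N + 1)) (Fin N) HQ)
    (hψ : ∀ i i', ψ *ᵥ (cst b i i') = br (cst c) (ψ.col i) (ψ.col i'))
    (hα : Ann (cst c) (mins ψ)) :
    ∃ a : Fin (N + 1) → ℂ, ∀ j, mins ψ j = HahnSeries.C (a j) := by
  suffices h : ∀ j, ∃ z : ℂ, mins ψ j = HahnSeries.C z by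
    choose a ha using h
    exact ⟨a, ha⟩
  intro j
  by_contra hcon
  obtain ⟨B, _, _, _, ψB, hrel, htra⟩ := exists_fg c b ψ ((rels_HQ c b ψ).2 ⟨hψ, hα⟩) j
    (by simpa only [algebraMap_HQ] using hcon)
  obtain ⟨σ, hσ⟩ := lemmaN (mins ψB j) htra
  have hrel' := hrel.map σ
  have hm := map_mins (σ : B →+* HQ) ψB j
  have hm' : mins (ψB.map (σ : B →+* HQ)) j = T := hm.trans hσ
  rw [rels_HQ] at hrel'
  have hreg := mins_reg kl c b htr hmax _ hrel'.1 ⟨j, by rw [hm']; exact T_ne_zero⟩ hrel'.2 j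
  rw [hm'] at hreg
  exact not_reg_T hreg

end Pool.Agent.Helper610_Vergne
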