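import Pool.Agent.Helper610_Vergne.Charts
import Pool.Agent.Helper610_Vergne.ExtAdd

/-!
# Step 1: derivations of hyperplane ideals are nilpotent
-/

set_option autoImplicit false

namespace Pool.Agent.Helper610_Vergne.StepOne

open Pool.Agent.Helper610_Vergne
open Matrix Module

/- Proof. Let `b = chart c β j`, `A = adj c β j`. By `hr` (line `ext b A + t • ext 0 D = ext b (A + t • D)`), `Iso c (ext b (A + t • D))` for all but finitely many `t`. For such `t`, `Nil c` transported through
the isomorphism and applied to `e_0` gives a power `m` with `(br (ext b (A + t • D)) e_0)^[m] = 0`, and `br (ext b A') e_0 (Fin.cons 0 y) = Fin.cons 0 (A' *ᵥ y)` (`br_ext`), so `A + t • D` is nilpotent, so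
`(A + t • D)^N = 0` (Cayley-Hamilton; `Matrix.isNilpotent` / charpoly `= X^N`). Hence for infinitely many `s = 1/t ≠ 0`, `(s • A + D)^N = 0`; each entry is a polynomial in `s`, so this holds
for all `s`, in particular `s = 0`. -/
/-- A nilpotent complex matrix of size `N` has `N`-th power zero. -/
theorem step1_pow {N : ℕ} (A : Matrix (Fin N) (Fin N) ℂ) (h : IsNilpotent A) : A ^ N = 0 := by
  have h1 := Matrix.isNilpotent_charpoly_sub_pow_of_isNilpotent h
  have h2 : A.charpoly = Polynomial.X ^ N := by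
    have := sub_eq_zero.1 h1.eq_zero
    rwa [Fintype.card_fin] at this
  have h3 := Matrix.aeval_self_charpoly A
  rwa [h2, map_pow, Polynomial.aeval_X] at h3

/-- Powers of the left multiplication by `e_0`. -/
theorem step1_iter {N : ℕ} (b : Fin N → Fin N → Fin N → ℂ) (A : Matrix (Fin N) (Fin N) ℂ)
    (m : ℕ) (y : Fin N → ℂ) :
    (br (ext b A) (Fin.cons 1 0))^[m] (Fin.cons 0 y) = Fin.cons 0 ((A ^ m) *ᵥ y) := by
  induction m generalizing y with
  | zero => simp
  | succ m ih =>
    rw [Function.iterate_succ_apply, br_ext]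
    have h1 : br b (Fin.tail (Fin.cons (1 : ℂ) 0 : Fin (N + 1) → ℂ))
        (Fin.tail (Fin.cons (0 : ℂ) y : Fin (N + 1) → ℂ)) = 0 := by
      funext k
      simp [br]
    rw [h1]
    have h2 : (0 : Fin N → ℂ) + (Fin.cons (1 : ℂ) 0 : Fin (N + 1) → ℂ) 0 •
        A *ᵥ (Fin.tail (Fin.cons (0 : ℂ) y : Fin (N + 1) → ℂ)) -
        (Fin.cons (0 : ℂ) y : Fin (N + 1) → ℂ) 0 •
        A *ᵥ (Fin.tail (Fin.cons (1 : ℂ) 0 : Fin (N + 1) → ℂ)) = A *ᵥ y := by
      simp
    rw [h2, ih, Matrix.mulVec_mulVec, pow_succ]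

/-- Engel's condition for the extension makes `A` nilpotent. -/
theorem step1_nil {N : ℕ} (c : Fin (N + 1) → Fin (N + 1) → Fin (N + 1) → ℂ) (hn : Nil c)
    (b : Fin N → Fin N → Fin N → ℂ) (A : Matrix (Fin N) (Fin N) ℂ) (h : Iso c (ext b A)) :
    A ^ N = 0 := by
  obtain ⟨g, hg⟩ := h
  obtain ⟨m, hm⟩ := hn (g.symm (Fin.cons 1 0))
  refine step1_pow A ⟨m, ?_⟩
  have h1 : ∀ (n : ℕ) (y : Fin (N + 1) → ℂ), g ((br c (g.symm (Fin.cons 1 0)))^[n] y) =
      (br (ext b A) (Fin.cons 1 0))^[n] (g y) := by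
    intro n
    induction n with
    | zero => intro y; rfl
    | succ n ih =>
      intro y
      rw [Function.iterate_succ_apply, Function.iterate_succ_apply, ih, hg,
        LinearEquiv.apply_symm_apply]
  have h2 : ∀ y : Fin N → ℂ, (A ^ m) *ᵥ y = 0 := by
    intro y
    have h3 := h1 m (g.symm (Fin.cons 0 y))
    rw [hm, map_zero, LinearEquiv.apply_symm_apply, step1_iter] at h3
    have h4 := congrArg Fin.tail h3
    rw [Fin.tail_cons] at h4
    rw [← h4]
    rfl
  refine Matrix.ext fun i k => ?_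
  have h3 := congrFun (h2 (Pi.single k 1)) i
  rw [Matrix.mulVec_single_one] at h3
  exact h3

/-- If `(A + t D) ^ N = 0` for all but finitely many `t` then `D ^ N = 0`. -/
theorem step1_lim {N : ℕ} (A D : Matrix (Fin N) (Fin N) ℂ)
    (h : {t : ℂ | ¬ (A + t • D) ^ N = 0}.Finite) : D ^ N = 0 := by
  let M : Matrix (Fin N) (Fin N) (Polynomial ℂ) :=
    (Polynomial.X : Polynomial ℂ) • A.map Polynomial.C + D.map Polynomial.C
  have hM : ∀ s : ℂ, (M ^ N).map (Polynomial.eval s) = (s • A + D) ^ N := by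
    intro s
    have h1 : (M ^ N).map (Polynomial.evalRingHom s) =
        (M.map (Polynomial.evalRingHom s)) ^ N := by
      have := map_pow (RingHom.mapMatrix (m := Fin N) (Polynomial.evalRingHom s)) M N
      exact this
    have h2 : M.map (Polynomial.evalRingHom s) = s • A + D := by
      ext i k
      simp [M]
      exact mul_comm _ _
    rw [h2] at h1
    exact h1
  have hinf : {s : ℂ | (s • A + D) ^ N = 0}.Infinite := by
    have h1 : ({t : ℂ | ¬ (A + t • D) ^ N = 0} ∪ {0}).Finite := h.union (Set.finite_singleton 0)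
    have h2 : ({t : ℂ | ¬ (A + t • D) ^ N = 0} ∪ {0})ᶜ.Infinite := h1.infinite_compl
    have h3 : ((fun t : ℂ => t⁻¹) '' ({t : ℂ | ¬ (A + t • D) ^ N = 0} ∪ {0})ᶜ).Infinite :=
      h2.image (inv_injective.injOn)
    refine h3.mono ?_
    rintro _ ⟨t, ht, rfl⟩
    simp only [Set.mem_compl_iff, Set.mem_union, Set.mem_ofPred_eq, Set.mem_singleton_iff,
      not_or, not_not] at ht ⊢
    have h4 : t⁻¹ • A + D = t⁻¹ • (A + t • D) := by
      rw [smul_add, smul_smul, inv_mul_cancel₀ ht.2, one_smul]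
    rw [h4, smul_pow, ht.1, smul_zero]
  have hz : ∀ i k, (M ^ N) i k = 0 := by
    intro i k
    refine Polynomial.eq_zero_of_infinite_isRoot _ (hinf.mono ?_)
    intro s hs
    have h1 := congrFun (congrFun (hM s) i) k
    rw [show (s • A + D) ^ N = 0 from hs] at h1
    exact h1
  have h0 := hM 0
  rw [zero_smul, zero_add] at h0
  rw [← h0]
  ext i k
  rw [Matrix.map_apply, hz, Polynomial.eval_zero]
  rfl


theorem step1 {N : ℕ} (c : Fin (N + 1) → Fin (N + 1) → Fin (N + 1) → ℂ) (hc : IsLieC c)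
    (hn : Nil c) (hr : LineRigid c)
    (β : Fin (N + 1) → ℂ) (j : Fin (N + 1)) (hβ : β j = 1) (hA : Ann c β)
    (D : Matrix (Fin N) (Fin N) ℂ) (hD : D ∈ Der (chart c β j)) : IsNilpotent D := by
  refine ⟨N, step1_lim (adj c β j) D ?_⟩
  have h1 := hr (ext (chart c β j) (adj c β j)) (ext 0 D) (fun t => by
    rw [← ext_add_smul]
    exact ext_lie _ (chart_lie c hc β j hβ hA) _
      (Submodule.add_mem _ (adj_der c hc β j hβ hA) (Submodule.smul_mem _ t hD)))
    ⟨0, by
      rw [zero_smul, add_zero]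
      exact iso_ext c hc β j hβ hA⟩
  refine h1.subset fun t ht => ?_
  simp only [Set.mem_ofPred_eq] at ht ⊢
  intro hiso
  rw [← ext_add_smul] at hiso
  exact ht (step1_nil c hn _ _ hiso)

end Pool.Agent.Helper610_Vergne.StepOne

namespace Pool.Agent.Helper610_Vergne

export StepOne (step1)

end Pool.Agent.Helper610_Vergne
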