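import Pool.Agent.Helper610_Vergne.Pair
import Pool.Agent.Helper610_Vergne.GenIso
import Pool.Agent.Helper610_Vergne.MinsConst
import Pool.Agent.Helper610_Vergne.StepOne
import Pool.Agent.Helper610_Vergne.KB
import Pool.Agent.Helper610_Vergne.Fin

/-!
# Vergne's conjecture: nilpotent Lie algebras of dimension at least two are not rigid
-/

set_option autoImplicit false

namespace Pool.Agent.Helper610_Vergne

open Matrix Module

theorem exists_max {α : Type*} (P : α → Prop) (f : α → ℕ) (M : ℕ) (hM : ∀ x, P x → f x ≤ M)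
    (h : ∃ x, P x) : ∃ x, P x ∧ ∀ y, P y → f y ≤ f x := by
  classical
  obtain ⟨x₀, hx₀⟩ := h
  have hex : ∃ m, ∃ x, P x ∧ M - f x = m := ⟨_, x₀, hx₀, rfl⟩
  obtain ⟨x, hx, hm⟩ := Nat.find_spec hex
  refine ⟨x, hx, fun y hy => ?_⟩
  have h1 := Nat.find_min' hex ⟨y, hy, rfl⟩
  have h2 := hM x hx
  have h3 := hM y hy
  omega

theorem nil_trace {N : ℕ} (D : Matrix (Fin N) (Fin N) ℂ) (h : IsNilpotent D) : D.trace = 0 := by
  have := Matrix.isNilpotent_trace_of_isNilpotent h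
  exact this.eq_zero

/-- No nilpotent complex Lie algebra of dimension at least two is rigid, even along lines of Lie
brackets. -/
theorem main {n : ℕ} (hn2 : 2 ≤ n) (c : Fin n → Fin n → Fin n → ℂ) (hc : IsLieC c) (hn : Nil c) :
    ¬ LineRigid c := by
  intro hr
  obtain ⟨N, rfl⟩ : ∃ N, n = N + 1 := ⟨n - 1, by omega⟩
  have hS : ∀ (β : Fin (N + 1) → ℂ) (j : Fin (N + 1)), β j = 1 → Ann c β →
      ∀ D ∈ Der (chart c β j), IsNilpotent D := fun β j hβ hA D hD =>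
    step1 c hc hn hr β j hβ hA D hD
  -- the hyperplane with the largest derivation algebra
  obtain ⟨β₁, j₁, hβ₁, hA₁⟩ := exists_chart c hc hn
  obtain ⟨⟨α, j⟩, ⟨hα, hAα⟩, hmax⟩ := exists_max
    (fun x : (Fin (N + 1) → ℂ) × Fin (N + 1) => x.1 x.2 = 1 ∧ Ann c x.1)
    (fun x => finrank ℂ (Der (chart c x.1 x.2))) (finrank ℂ (Matrix (Fin N) (Fin N) ℂ))
    (fun x _ => Submodule.finrank_le _) ⟨⟨β₁, j₁⟩, hβ₁, hA₁⟩
  simp only at hα hAα hmax
  set b := chart c α j with hb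
  set A := adj c α j with hA
  have hbl : IsLieC b := chart_lie c hc α j hα hAα
  have hAd : A ∈ Der b := adj_der c hc α j hα hAα
  obtain ⟨D₁, hD₁, D₂, hD₂, χ₁, χ₂, h1, h1', h2, h2', h11, h12, h21, h22⟩ :=
    exists_pair c (by omega) hc hn hS α j hα hAα
  -- the base point
  have hfin1 := hr (ext b A) (ext 0 D₁) (fun t => by
    rw [← ext_add_smul]
    exact ext_lie b hbl _ (Submodule.add_mem _ hAd (Submodule.smul_mem _ _ hD₁)))
    ⟨0, by rw [zero_smul, add_zero]; exact iso_ext c hc α j hα hAα⟩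
  obtain ⟨a, ha⟩ : ∃ a : ℂ, a ∉ {t : ℂ | ¬ Iso c (ext b A + t • ext 0 D₁)} ∪ {-χ₁ A} :=
    (hfin1.union (Set.finite_singleton _)).exists_notMem
  rw [Set.mem_union, not_or] at ha
  obtain ⟨ha1, ha2⟩ := ha
  replace ha1 : Iso c (ext b A + a • ext 0 D₁) := by
    by_contra hcon
    exact ha1 hcon
  rw [Set.mem_singleton_iff] at ha2
  rw [← ext_add_smul] at ha1
  set A₀ := A + a • D₁ with hA₀
  have hA₀d : A₀ ∈ Der b := Submodule.add_mem _ hAd (Submodule.smul_mem _ _ hD₁)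
  have hfin2 := hr (ext b A₀) (ext 0 D₂) (fun t => by
    rw [← ext_add_smul]
    exact ext_lie b hbl _ (Submodule.add_mem _ hA₀d (Submodule.smul_mem _ _ hD₂)))
    ⟨0, by rw [zero_smul, add_zero]; exact ha1⟩
  have hinf : {t : ℂ | Iso c (ext b A₀ + t • ext 0 D₂)}.Infinite := by
    intro hf
    have := hf.union hfin2
    apply Set.infinite_univ (α := ℂ)
    refine this.subset fun t _ => ?_
    by_cases h : Iso c (ext b A₀ + t • ext 0 D₂)
    · exact Or.inl h
    · exact Or.inr h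
  obtain ⟨φ, hφ, hiso⟩ := generic_iso c _ _ hinf
  obtain ⟨p1, _, p3⟩ := psi_hom c b A₀ D₂ φ hφ hiso
  obtain ⟨a', ha'⟩ := mins_const' (fun b htr d hd hdim Ψ hΨ hiso =>
      kl_core b htr d hd hdim Ψ hΨ hiso) c b
    (fun D hD => nil_trace D (hS α j hα hAα D hD))
    (fun β j' hβ hA => hmax ⟨β, j'⟩ ⟨hβ, hA⟩) _ p1 p3
  refine final_step c b A₀ D₂ hA₀d hD₂ φ hφ hiso a' ha' χ₁ χ₂ h1 h1' h2 h2' ?_ h12
    (by rw [h22]; exact one_ne_zero)
  intro h
  apply ha2
  rw [hA₀, map_add, map_smul, h11, smul_eq_mul, mul_one] at h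
  linear_combination h

end Pool.Agent.Helper610_Vergne
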