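import Pool.Agent.Helper610_Vergne.Basic
import Pool.Agent.Helper610_Vergne.Charts
import Pool.Agent.Helper610_Vergne.Hahn

/-!
# The minors of a homomorphism of the hyperplane with the largest derivation algebra have no pole
-/

set_option autoImplicit false

namespace Pool.Agent.Helper610_Vergne

open Matrix Module

/-- the statement of the key lemma -/
def KlCore : Prop := ∀ {N : ℕ} (b : Fin N → Fin N → Fin N → ℂ), (∀ D ∈ Der b, D.trace = 0) →
    ∀ (d : Fin N → Fin N → Fin N → HQ), (∀ i j k, Reg (d i j k)) →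
    (finrank ℂ (Der (fun i j k => (d i j k).coeff 0)) ≤ finrank ℂ (Der b)) →
    ∀ (Ψ : Matrix (Fin N) (Fin N) HQ), Ψ.det ≠ 0 →
    (∀ i i', Ψ *ᵥ (cst b i i') = br d (Ψ.col i) (Ψ.col i')) → Ψ.det.order = 0

/-- The vector of minors is orthogonal to the columns. -/
theorem mins_dot {R : Type*} [CommRing R] {N : ℕ} (ψ : Matrix (Fin (N + 1)) (Fin N) R)
    (i : Fin N) : mins ψ ⬝ᵥ ψ.col i = 0 := by
  set M : Matrix (Fin (N + 1)) (Fin (N + 1)) R :=
    Matrix.of fun k => Fin.cons (ψ k i) (ψ k) with hM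
  have h0 : M.det = 0 := by
    apply Matrix.det_zero_of_column_eq (i := 0) (j := i.succ) (Fin.succ_ne_zero i).symm
    intro k
    simp [hM]
  rw [Matrix.det_succ_column_zero] at h0
  rw [← h0, dotProduct]
  refine Finset.sum_congr rfl fun k _ => ?_
  have h1 : M.submatrix k.succAbove Fin.succ = ψ.submatrix k.succAbove id := by
    ext a b
    simp [hM]
  rw [h1, mins]
  have h2 : M k 0 = ψ k i := by simp [hM]
  rw [h2]
  simp only [Matrix.col_apply]
  ring

theorem br_reg {ι : Type*} [Fintype ι] (c : ι → ι → ι → ℂ) (x y : ι → HQ) (hx : ∀ i, Reg (x i))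
    (hy : ∀ i, Reg (y i)) (k : ι) : Reg (br (cst c) x y k) :=
  Reg.sum _ _ fun i _ => Reg.sum _ _ fun j _ => ((hx i).mul (hy j)).mul (reg_C _)

theorem br_coeff {ι : Type*} [Fintype ι] (c : ι → ι → ι → ℂ) (x y : ι → HQ)
    (hx : ∀ i, Reg (x i)) (hy : ∀ i, Reg (y i)) (k : ι) :
    (br (cst c) x y k).coeff 0 = br c (fun i => (x i).coeff 0) (fun i => (y i).coeff 0) k := by
  simp only [br]
  rw [HahnSeries.coeff_sum]
  refine Finset.sum_congr rfl fun i _ => ?_
  rw [HahnSeries.coeff_sum]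
  refine Finset.sum_congr rfl fun j _ => ?_
  have h1 : (x i * y j * cst c i j k).coeff 0 =
      (x i * y j).coeff 0 * (HahnSeries.C (c i j k) : HQ).coeff 0 :=
    coeff_zero_mul ((hx i).mul (hy j)) (reg_C _)
  rw [h1, coeff_zero_mul (hx i) (hy j), coeff_zero_C]

theorem reg_ite (p : Prop) [Decidable p] : Reg (if p then (1 : HQ) else 0) := by
  split_ifs
  · exact Reg.one
  · exact Reg.zero

theorem reg_single {N : ℕ} (i k : Fin N) : Reg ((Pi.single i 1 : Fin N → HQ) k) := by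
  rw [Pi.single_apply]
  exact reg_ite _

theorem coeff_single' {N : ℕ} (i k : Fin N) :
    ((Pi.single i 1 : Fin N → HQ) k).coeff 0 = (Pi.single i 1 : Fin N → ℂ) k := by
  rw [Pi.single_apply, Pi.single_apply]
  split_ifs
  · rw [HahnSeries.coeff_one, if_pos rfl]
  · rw [HahnSeries.coeff_zero]

theorem lft_reg {N : ℕ} (β : Fin (N + 1) → HQ) (hβ : ∀ i, Reg (β i)) (j : Fin (N + 1))
    (i : Fin N) (k : Fin (N + 1)) : Reg (lft β j (Pi.single i 1) k) := by
  refine Fin.succAboveCases j ?_ (fun k => ?_) k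
  · rw [lft_same]
    exact (Reg.sum _ _ fun l _ => (hβ _).mul (reg_single i l)).neg
  · rw [lft_succAbove]
    exact reg_single i k

theorem lft_coeff {N : ℕ} (β : Fin (N + 1) → HQ) (hβ : ∀ i, Reg (β i)) (j : Fin (N + 1))
    (i : Fin N) (k : Fin (N + 1)) : (lft β j (Pi.single i 1) k).coeff 0 =
      lft (fun i => (β i).coeff 0) j (Pi.single i 1) k := by
  refine Fin.succAboveCases j ?_ (fun k => ?_) k
  · rw [lft_same, lft_same, HahnSeries.coeff_neg, HahnSeries.coeff_sum]
    congr 1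
    refine Finset.sum_congr rfl fun l _ => ?_
    rw [coeff_zero_mul (hβ _) (reg_single i l), coeff_single']
  · rw [lft_succAbove, lft_succAbove, coeff_single']

/-- The minors have no pole. -/
theorem mins_reg (kl : KlCore) {N : ℕ} (c : Fin (N + 1) → Fin (N + 1) → Fin (N + 1) → ℂ)
    (b : Fin N → Fin N → Fin N → ℂ) (htr : ∀ D ∈ Der b, D.trace = 0)
    (hmax : ∀ (β : Fin (N + 1) → ℂ) (j : Fin (N + 1)), β j = 1 → Ann c β →
      finrank ℂ (Der (chart c β j)) ≤ finrank ℂ (Der b))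
    (ψ : Matrix (Fin (N + 1)) (Fin N) HQ)
    (hψ : ∀ i i', ψ *ᵥ (cst b i i') = br (cst c) (ψ.col i) (ψ.col i'))
    (h0 : ∃ j, mins ψ j ≠ 0) (hα : Ann (cst c) (mins ψ)) (i₀ : Fin (N + 1)) :
    Reg (mins ψ i₀) := by
  obtain ⟨j, hj, hmin⟩ := exists_min (mins ψ) h0
  set β : Fin (N + 1) → HQ := fun i => mins ψ i / mins ψ j with hβ
  have hβj : β j = 1 := div_self hj
  have hβdef : β = (mins ψ j)⁻¹ • mins ψ := by
    funext i
    exact div_eq_inv_mul _ _
  have hβA : Ann (cst c) β := by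
    intro p q
    have := hα p q
    rw [hβdef]
    simp only [Pi.smul_apply, smul_eq_mul, mul_assoc, ← Finset.mul_sum, this, mul_zero]
  have hβ0 : ∀ i, β ⬝ᵥ ψ.col i = 0 := by
    intro i
    rw [hβdef, smul_dotProduct, mins_dot, smul_zero]
  have hβreg : ∀ i, Reg (β i) := hmin
  set d := chart (cst c) β j with hd
  have hdreg : ∀ i i' k, Reg (d i i' k) := fun i i' k =>
    br_reg c _ _ (lft_reg β hβreg j i) (lft_reg β hβreg j i') _
  set β₀ : Fin (N + 1) → ℂ := fun i => (β i).coeff 0 with hβ₀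
  have hdbar : (fun i i' k => (d i i' k).coeff 0) = chart c β₀ j := by
    funext i i' k
    rw [hd]
    simp only [chart]
    rw [br_coeff c _ _ (lft_reg β hβreg j i) (lft_reg β hβreg j i')]
    congr 1
    · funext k
      exact lft_coeff β hβreg j i k
    · funext k
      exact lft_coeff β hβreg j i' k
  have hβ₀j : β₀ j = 1 := by
    rw [hβ₀]
    simp only [hβj]
    rw [HahnSeries.coeff_one, if_pos rfl]
  have hβ₀A : Ann c β₀ := by
    intro p q
    have := congrArg (fun x : HQ => x.coeff 0) (hβA p q)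
    simp only [HahnSeries.coeff_sum, HahnSeries.coeff_zero] at this
    rw [← this]
    refine Finset.sum_congr rfl fun k _ => ?_
    have h1 : (β k * cst c p q k).coeff 0 =
        (β k).coeff 0 * (HahnSeries.C (c p q k) : HQ).coeff 0 :=
      coeff_zero_mul (hβreg k) (reg_C _)
    rw [h1, coeff_zero_C]
  set Ψ : Matrix (Fin N) (Fin N) HQ := ψ.submatrix j.succAbove id with hΨ
  have hdet : mins ψ j = (-1) ^ (j : ℕ) * Ψ.det := rfl
  have hΨdet : Ψ.det ≠ 0 := by
    intro h
    rw [hdet, h, mul_zero] at hj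
    exact hj rfl
  have hcol : ∀ i, lft β j (Ψ.col i) = ψ.col i := by
    intro i
    exact eq_lft β j hβj (ψ.col i) (hβ0 i)
  have hiso : ∀ i i', Ψ *ᵥ (cst b i i') = br d (Ψ.col i) (Ψ.col i') := by
    intro i i'
    have h1 := lft_br (cst c) β j hβj hβA (Ψ.col i) (Ψ.col i')
    rw [hcol, hcol, ← hψ] at h1
    funext k
    rw [← lft_succAbove β j (br d (Ψ.col i) (Ψ.col i')) k, h1]
    rfl
  have hord := kl b htr d hdreg (by rw [hdbar]; exact hmax β₀ j hβ₀j hβ₀A) Ψ hΨdet hiso
  have h1 : Reg Ψ.det := by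
    rw [reg_iff_order hΨdet, hord]
  have h2 : Reg (mins ψ j) := by
    rw [hdet]
    refine Reg.mul ?_ h1
    rcases neg_one_pow_eq_or HQ (j : ℕ) with h | h
    · rw [h]; exact Reg.one
    · rw [h]; exact Reg.one.neg
  have h3 : mins ψ i₀ = β i₀ * mins ψ j := by
    rw [hβ]
    field_simp
  rw [h3]
  exact (hβreg i₀).mul h2

end Pool.Agent.Helper610_Vergne
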