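import Pool.Agent.Helper610_Vergne.Defs

/-!
# Nilpotent Lie algebras: functionals and centre
-/

set_option autoImplicit false

namespace Pool.Agent.Helper610_Vergne.NilFun

open Pool.Agent.Helper610_Vergne
open Matrix Module

/- Proof (plain words). Part (a): a finite-dimensional nilpotent Lie algebra `L` over a field with `2 ≤ finrank L` has two linearly independent
functionals vanishing on all brackets. Indeed if `L = k x + [L,L]` then `[L,L] = [x,[L,L]] + [[L,L],[L,L]] ⊆ [L,[L,L]]`, so the lower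
central series is constant from the derived algebra on, hence `[L,L] = 0` by nilpotency and `finrank L ≤ 1`. So `L / [L,L]` has dimension at
least 2; take two independent functionals on the quotient, dual to two vectors.
Part (b): if `c` are structure constants of a Lie bracket on `Fin n → ℂ` satisfying Engel's condition `Nil c` then the corresponding Lie algebra
(put the bracket `br c` on a type synonym of `Fin n → ℂ`) is nilpotent by Engel's theorem (`LieAlgebra.isNilpotent_iff_forall`). -/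

/-- 1 -/
theorem exists_functionals {k L : Type*} [Field k] [LieRing L] [LieAlgebra k L] [Module.Finite k L]
    [LieRing.IsNilpotent L] (h2 : 2 ≤ finrank k L) :
    ∃ (x₁ x₂ : L) (χ₁ χ₂ : L →ₗ[k] k), (∀ x y : L, χ₁ ⁅x, y⁆ = 0) ∧ (∀ x y : L, χ₂ ⁅x, y⁆ = 0) ∧
      χ₁ x₁ = 1 ∧ χ₁ x₂ = 0 ∧ χ₂ x₁ = 0 ∧ χ₂ x₂ = 1 := by
  classical
  have hDbr : ∀ x y : L, ⁅x, y⁆ ∈ LieModule.lowerCentralSeries k L L 1 := by
    intro x y
    rw [LieModule.lowerCentralSeries_succ]
    exact LieSubmodule.lie_mem_lie (LieSubmodule.mem_top x)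
      (by rw [LieModule.lowerCentralSeries_zero]; exact LieSubmodule.mem_top y)
  set D : Submodule k L := (LieModule.lowerCentralSeries k L L 1).toSubmodule with hD
  have hfin : 2 ≤ finrank k (L ⧸ D) := by
    by_contra hlt
    push Not at hlt
    obtain ⟨v, hv⟩ := finrank_le_one_iff.mp (Nat.lt_succ_iff.mp hlt)
    obtain ⟨x, rfl⟩ := Submodule.mkQ_surjective D v
    have hx : ∀ a : L, ∃ c : k, ∃ d ∈ LieModule.lowerCentralSeries k L L 1, a = c • x + d := by
      intro a
      obtain ⟨c, hc⟩ := hv (D.mkQ a)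
      refine ⟨c, a - c • x, ?_, by abel⟩
      rw [← map_smul, eq_comm, ← sub_eq_zero, ← map_sub] at hc
      have h1 := (Submodule.Quotient.mk_eq_zero D).mp hc
      exact h1
    have h1 : ∀ y : L, ∀ e ∈ LieModule.lowerCentralSeries k L L 1,
        ⁅y, e⁆ ∈ LieModule.lowerCentralSeries k L L 2 := by
      intro y e he
      rw [LieModule.lowerCentralSeries_succ k L L 1]
      exact LieSubmodule.lie_mem_lie (LieSubmodule.mem_top y) he
    have h12 : LieModule.lowerCentralSeries k L L 1 ≤ LieModule.lowerCentralSeries k L L 2 := by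
      rw [LieModule.lowerCentralSeries_succ k L L 0, LieSubmodule.lie_le_iff]
      intro a _ b _
      obtain ⟨α, d, hd, rfl⟩ := hx a
      obtain ⟨β, d', hd', rfl⟩ := hx b
      have h2 : ⁅α • x + d, β • x + d'⁆ = α • ⁅x, d'⁆ - β • ⁅x, d⁆ + ⁅d, d'⁆ := by
        rw [add_lie, lie_add, lie_add, smul_lie, smul_lie, lie_smul, lie_smul, lie_self, smul_zero,
          smul_zero, zero_add, ← lie_skew d x, smul_neg]
        abel
      rw [h2]
      exact add_mem (sub_mem (SMulMemClass.smul_mem _ (h1 x d' hd'))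
        (SMulMemClass.smul_mem _ (h1 x d hd))) (h1 d d' hd')
    have hall : ∀ n, LieModule.lowerCentralSeries k L L 1 ≤
        LieModule.lowerCentralSeries k L L (n + 1) := by
      intro n
      induction n with
      | zero => exact le_refl _
      | succ n ih =>
        refine h12.trans ?_
        rw [LieModule.lowerCentralSeries_succ k L L 1, LieModule.lowerCentralSeries_succ k L L (n + 1)]
        exact LieSubmodule.mono_lie_right ⊤ ih
    obtain ⟨n, hn⟩ := LieModule.IsNilpotent.nilpotent k L L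
    have hD0 : LieModule.lowerCentralSeries k L L 1 = ⊥ := by
      rw [eq_bot_iff, ← hn]
      exact (hall n).trans (LieModule.antitone_lowerCentralSeries k L L (Nat.le_succ n))
    have hD1 : D = ⊥ := by rw [hD, hD0]; rfl
    have h3 := Submodule.finrank_quotient_add_finrank D
    rw [hD1, finrank_bot, add_zero] at h3
    rw [hD1] at hlt
    omega
  let b := Module.finBasis k (L ⧸ D)
  let i0 : Fin (finrank k (L ⧸ D)) := ⟨0, by omega⟩
  let i1 : Fin (finrank k (L ⧸ D)) := ⟨1, by omega⟩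
  have h01 : i0 ≠ i1 := by
    intro h
    have := congrArg Fin.val h
    simp [i0, i1] at this
  obtain ⟨x₁, hx₁⟩ := Submodule.mkQ_surjective D (b i0)
  obtain ⟨x₂, hx₂⟩ := Submodule.mkQ_surjective D (b i1)
  refine ⟨x₁, x₂, (b.coord i0).comp D.mkQ, (b.coord i1).comp D.mkQ, ?_, ?_, ?_, ?_, ?_, ?_⟩
  · intro x y
    have : D.mkQ ⁅x, y⁆ = 0 := (Submodule.Quotient.mk_eq_zero D).mpr (hDbr x y)
    rw [LinearMap.comp_apply, this, map_zero]
  · intro x y
    have : D.mkQ ⁅x, y⁆ = 0 := (Submodule.Quotient.mk_eq_zero D).mpr (hDbr x y)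
    rw [LinearMap.comp_apply, this, map_zero]
  · rw [LinearMap.comp_apply, hx₁]; simp
  · rw [LinearMap.comp_apply, hx₂]; simp [h01.symm]
  · rw [LinearMap.comp_apply, hx₁]; simp [h01]
  · rw [LinearMap.comp_apply, hx₂]; simp

/-- type synonym carrying the bracket with structure constants `c` -/
def ExF_L {n : ℕ} (_c : Fin n → Fin n → Fin n → ℂ) : Type := Fin n → ℂ

noncomputable instance {n : ℕ} (c : Fin n → Fin n → Fin n → ℂ) : AddCommGroup (ExF_L c) :=
  inferInstanceAs (AddCommGroup (Fin n → ℂ))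

noncomputable instance {n : ℕ} (c : Fin n → Fin n → Fin n → ℂ) : Module ℂ (ExF_L c) :=
  inferInstanceAs (Module ℂ (Fin n → ℂ))

noncomputable instance {n : ℕ} (c : Fin n → Fin n → Fin n → ℂ) : Module.Finite ℂ (ExF_L c) :=
  inferInstanceAs (Module.Finite ℂ (Fin n → ℂ))

theorem exF_add_left {n : ℕ} (c : Fin n → Fin n → Fin n → ℂ) (x y z : Fin n → ℂ) :
    br c (x + y) z = br c x z + br c y z := by
  funext k
  simp only [br, Pi.add_apply, add_mul, Finset.sum_add_distrib]

theorem exF_add_right {n : ℕ} (c : Fin n → Fin n → Fin n → ℂ) (x y z : Fin n → ℂ) :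
    br c x (y + z) = br c x y + br c x z := by
  funext k
  simp only [br, Pi.add_apply, mul_add, add_mul, Finset.sum_add_distrib]

theorem exF_smul_right {n : ℕ} (c : Fin n → Fin n → Fin n → ℂ) (t : ℂ) (x y : Fin n → ℂ) :
    br c x (t • y) = t • br c x y := by
  funext k
  simp only [br, Pi.smul_apply, smul_eq_mul, Finset.mul_sum]
  refine Finset.sum_congr rfl fun i _ => Finset.sum_congr rfl fun j _ => ?_
  ring

theorem exF_skew {n : ℕ} {c : Fin n → Fin n → Fin n → ℂ} (hc : IsLieC c) (x y : Fin n → ℂ) :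
    br c x y = - br c y x := by
  have h1 := hc.1 (x + y)
  rw [exF_add_left, exF_add_right, exF_add_right, hc.1 x, hc.1 y, zero_add, add_zero] at h1
  exact eq_neg_of_add_eq_zero_left h1

noncomputable instance {n : ℕ} (c : Fin n → Fin n → Fin n → ℂ) [hc : Fact (IsLieC c)] :
    LieRing (ExF_L c) where
  bracket x y := br c x y
  add_lie x y z := exF_add_left c x y z
  lie_add x y z := exF_add_right c x y z
  lie_self x := hc.out.1 x
  leibniz_lie x y z := by
    have h1 := hc.out.2 x y z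
    have h2 : br c y (br c z x) = - br c y (br c x z) := by
      rw [exF_skew hc.out z x, ← neg_one_smul ℂ (br c x z), exF_smul_right, neg_one_smul]
    have h3 : br c z (br c x y) = - br c (br c x y) z := exF_skew hc.out _ _
    rw [h2, h3] at h1
    show br c x (br c y z) = br c (br c x y) z + br c y (br c x z)
    have h4 : br c x (br c y z) - (br c (br c x y) z + br c y (br c x z)) = 0 := by
      rw [← h1]; abel
    exact sub_eq_zero.mp h4

noncomputable instance {n : ℕ} (c : Fin n → Fin n → Fin n → ℂ) [hc : Fact (IsLieC c)] :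
    LieAlgebra ℂ (ExF_L c) where
  lie_smul t x y := exF_smul_right c t x y

theorem exF_nil {n : ℕ} (c : Fin n → Fin n → Fin n → ℂ) [hc : Fact (IsLieC c)] (hn : Nil c) :
    LieRing.IsNilpotent (ExF_L c) := by
  rw [LieAlgebra.isNilpotent_iff_forall (R := ℂ)]
  intro x
  obtain ⟨m, hm⟩ := hn x
  refine ⟨m, ?_⟩
  apply LinearMap.ext
  intro y
  rw [Module.End.pow_apply]
  have h1 := hm y
  exact h1

/-- vectors of functionals -/
theorem exF_vec {n : ℕ} {c : Fin n → Fin n → Fin n → ℂ} (χ : ExF_L c →ₗ[ℂ] ℂ) (x : Fin n → ℂ) :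
    ∑ i, χ (Pi.single i 1 : Fin n → ℂ) * x i = χ x := by
  let χ' : (Fin n → ℂ) →ₗ[ℂ] ℂ := χ
  have h1 : ∀ y : Fin n → ℂ, χ y = χ' y := fun _ => rfl
  have h2 : x = ∑ i, x i • (Pi.single i 1 : Fin n → ℂ) := pi_eq_sum_univ' x
  rw [h1 x]
  conv_rhs => rw [h2]
  rw [map_sum]
  refine Finset.sum_congr rfl fun i _ => ?_
  rw [map_smul, smul_eq_mul, mul_comm]
  rfl

theorem exF_br_single {n : ℕ} (c : Fin n → Fin n → Fin n → ℂ) (i j : Fin n) :
    br c (Pi.single i 1) (Pi.single j 1) = fun k => c i j k := by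
  funext k
  simp only [br]
  rw [Finset.sum_eq_single i, Finset.sum_eq_single j]
  · simp
  · intro b _ hb; simp [Pi.single_eq_of_ne hb]
  · simp
  · intro b _ hb; simp [Pi.single_eq_of_ne hb]
  · simp

/-- 2 -/
theorem exists_functionals_c {n : ℕ} (hn2 : 2 ≤ n) (c : Fin n → Fin n → Fin n → ℂ) (hc : IsLieC c) (hn : Nil c) :
    ∃ (x₁ x₂ : Fin n → ℂ) (χ₁ χ₂ : Fin n → ℂ), Ann c χ₁ ∧ Ann c χ₂ ∧
      (∑ i, χ₁ i * x₁ i = 1) ∧ (∑ i, χ₁ i * x₂ i = 0) ∧ (∑ i, χ₂ i * x₁ i = 0) ∧ (∑ i, χ₂ i * x₂ i = 1) := by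
  have : Fact (IsLieC c) := ⟨hc⟩
  have : LieRing.IsNilpotent (ExF_L c) := exF_nil c hn
  have hdim : 2 ≤ finrank ℂ (ExF_L c) := by
    have : finrank ℂ (ExF_L c) = finrank ℂ (Fin n → ℂ) := rfl
    rw [this, Module.finrank_fin_fun]
    exact hn2
  obtain ⟨x₁, x₂, χ₁, χ₂, h1, h2, h3, h4, h5, h6⟩ := exists_functionals (k := ℂ) (L := ExF_L c) hdim
  have hann : ∀ χ : ExF_L c →ₗ[ℂ] ℂ, (∀ x y : ExF_L c, χ ⁅x, y⁆ = 0) →
      Ann c (fun i => χ (Pi.single i 1 : Fin n → ℂ)) := by
    intro χ hχ i j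
    have h7 := hχ (Pi.single i 1 : Fin n → ℂ) (Pi.single j 1 : Fin n → ℂ)
    have h8 : ⁅(show ExF_L c from (Pi.single i 1 : Fin n → ℂ)),
        (show ExF_L c from (Pi.single j 1 : Fin n → ℂ))⁆ = (fun k => c i j k : Fin n → ℂ) :=
      exF_br_single c i j
    have h9 := exF_vec χ (fun k => c i j k)
    show ∑ k, χ (Pi.single k 1 : Fin n → ℂ) * c i j k = 0
    rw [h9, ← h8]
    exact h7
  refine ⟨x₁, x₂, fun i => χ₁ (Pi.single i 1 : Fin n → ℂ), fun i => χ₂ (Pi.single i 1 : Fin n → ℂ),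
    hann χ₁ h1, hann χ₂ h2, ?_, ?_, ?_, ?_⟩
  · exact (exF_vec χ₁ x₁).trans h3
  · exact (exF_vec χ₁ x₂).trans h4
  · exact (exF_vec χ₂ x₁).trans h5
  · exact (exF_vec χ₂ x₂).trans h6

/-- 3: the centre is nonzero. -/
theorem exists_center {n : ℕ} (hn1 : 1 ≤ n) (c : Fin n → Fin n → Fin n → ℂ) (hc : IsLieC c) (hn : Nil c) :
    ∃ z : Fin n → ℂ, z ≠ 0 ∧ ∀ x : Fin n → ℂ, br c z x = 0 := by
  have : Fact (IsLieC c) := ⟨hc⟩
  have : LieRing.IsNilpotent (ExF_L c) := exF_nil c hn
  have : Nonempty (Fin n) := ⟨⟨0, hn1⟩⟩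
  have : Nontrivial (ExF_L c) := inferInstanceAs (Nontrivial (Fin n → ℂ))
  have := LieAlgebra.non_trivial_center_of_isNilpotent (R := ℂ) (L := ExF_L c)
  obtain ⟨z, hz⟩ := exists_ne (0 : LieAlgebra.center ℂ (ExF_L c))
  refine ⟨z.1, fun h => hz (Subtype.ext h), fun x => ?_⟩
  have h1 := (LieModule.mem_maxTrivSubmodule (R := ℂ) (L := ExF_L c) (M := ExF_L c) z.1).mp z.2 x
  have h2 : br c x z.1 = 0 := h1
  rw [exF_skew hc, h2, neg_zero]

/-- 4: a nilpotent Lie algebra of positive dimension has a nonzero functional vanishing on brackets. -/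
theorem exists_chart {N : ℕ} (c : Fin (N + 1) → Fin (N + 1) → Fin (N + 1) → ℂ) (hc : IsLieC c)
    (hn : Nil c) : ∃ (β : Fin (N + 1) → ℂ) (j : Fin (N + 1)), β j = 1 ∧ Ann c β := by
  rcases Nat.eq_zero_or_pos N with rfl | hN
  · refine ⟨fun _ => 1, 0, rfl, ?_⟩
    intro i j
    have h1 := congrFun (hc.1 (Pi.single 0 1)) 0
    rw [exF_br_single] at h1
    have hi : i = 0 := Fin.ext (by have := i.2; simp only [Fin.val_zero]; omega)
    have hj : j = 0 := Fin.ext (by have := j.2; simp only [Fin.val_zero]; omega)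
    rw [hi, hj]
    simpa using h1
  · obtain ⟨x₁, x₂, χ₁, χ₂, h1, _, h3, _⟩ := exists_functionals_c (by omega) c hc hn
    obtain ⟨j, hj⟩ : ∃ j, χ₁ j ≠ 0 := by
      by_contra hcon
      push Not at hcon
      have : ∑ i, χ₁ i * x₁ i = 0 := Finset.sum_eq_zero fun i _ => by rw [hcon i, zero_mul]
      rw [this] at h3
      exact zero_ne_one h3
    refine ⟨fun i => (χ₁ j)⁻¹ * χ₁ i, j, inv_mul_cancel₀ hj, ?_⟩
    intro a b
    have h5 := h1 a b
    simp only [mul_assoc, ← Finset.mul_sum, h5, mul_zero]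

end Pool.Agent.Helper610_Vergne.NilFun

namespace Pool.Agent.Helper610_Vergne

export NilFun (exists_functionals exists_functionals_c exists_center exists_chart)

end Pool.Agent.Helper610_Vergne
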