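import Pool.Agent.Helper610_Vergne.NilFun
import Pool.Agent.Helper610_Vergne.Charts

/-!
# The quotient of the derivation algebra by the inner derivations
-/

set_option autoImplicit false

namespace Pool.Agent.Helper610_Vergne.Quot

open Pool.Agent.Helper610_Vergne
open Matrix Module

attribute [local instance 100] LieRing.ofAssociativeRing

section helpers1751

variable {N : ℕ} (b : Fin N → Fin N → Fin N → ℂ)

theorem adm_mulVec' (u y : Fin N → ℂ) : adm b u *ᵥ y = br b u y := by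
  funext k
  simp only [Matrix.mulVec, dotProduct, adm, Matrix.of_apply, br, Finset.sum_mul]
  rw [Finset.sum_comm]
  refine Finset.sum_congr rfl fun i _ => Finset.sum_congr rfl fun j _ => ?_
  ring

/-- Left multiplications as a linear map. -/
def admL : (Fin N → ℂ) →ₗ[ℂ] Matrix (Fin N) (Fin N) ℂ where
  toFun := adm b
  map_add' u v := by
    ext k i
    simp only [adm, Matrix.of_apply, Pi.add_apply, Matrix.add_apply, add_mul,
      Finset.sum_add_distrib]
  map_smul' r u := by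
    ext k i
    simp only [adm, Matrix.of_apply, Pi.smul_apply, Matrix.smul_apply, smul_eq_mul,
      RingHom.id_apply, mul_assoc, Finset.mul_sum]

theorem admL_apply (u : Fin N → ℂ) : admL b u = adm b u := rfl

theorem br_add_left' (x x' y : Fin N → ℂ) : br b (x + x') y = br b x y + br b x' y := by
  rw [← adm_mulVec', ← adm_mulVec', ← adm_mulVec', ← admL_apply, ← admL_apply, ← admL_apply,
    map_add, Matrix.add_mulVec]

theorem br_add_right' (x y y' : Fin N → ℂ) : br b x (y + y') = br b x y + br b x y' := by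
  rw [← adm_mulVec', ← adm_mulVec', ← adm_mulVec', Matrix.mulVec_add]

variable {b}

theorem br_skew (hb : IsLieC b) (x y : Fin N → ℂ) : br b x y = - br b y x := by
  have h := hb.1 (x + y)
  rw [br_add_left', br_add_right', br_add_right', hb.1 x, hb.1 y] at h
  rw [eq_neg_iff_add_eq_zero]
  simpa using h

theorem br_neg_right (x y : Fin N → ℂ) : br b x (-y) = - br b x y := by
  rw [← adm_mulVec', ← adm_mulVec', Matrix.mulVec_neg]

theorem adm_mem_Der (hb : IsLieC b) (u : Fin N → ℂ) : adm b u ∈ Der b := by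
  rw [mem_Der]
  intro x y
  rw [adm_mulVec', adm_mulVec', adm_mulVec']
  have h := hb.2 u x y
  -- [u,[x,y]] + [x,[y,u]] + [y,[u,x]] = 0
  have h1 : br b x (br b y u) = - br b x (br b u y) := by
    rw [br_skew hb y u, br_neg_right]
  have h2 : br b y (br b u x) = - br b (br b u x) y := br_skew hb _ _
  rw [h1, h2] at h
  have h3 : br b u (br b x y) = br b (br b u x) y + br b x (br b u y) := by
    have : br b u (br b x y) - (br b (br b u x) y + br b x (br b u y)) = 0 := by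
      rw [← h]; abel
    exact sub_eq_zero.mp this
  exact h3

theorem comm_adm {D : Matrix (Fin N) (Fin N) ℂ} (hD : D ∈ Der b) (u : Fin N → ℂ) :
    D * adm b u - adm b u * D = adm b (D *ᵥ u) := by
  rw [mem_Der] at hD
  apply Matrix.ext_of_mulVec_single
  intro i
  rw [Matrix.sub_mulVec, ← Matrix.mulVec_mulVec, ← Matrix.mulVec_mulVec, adm_mulVec',
    adm_mulVec', adm_mulVec', hD]
  abel

theorem comm_mem_Der {X Y : Matrix (Fin N) (Fin N) ℂ} (hX : X ∈ Der b) (hY : Y ∈ Der b) :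
    X * Y - Y * X ∈ Der b := by
  rw [mem_Der] at hX hY ⊢
  intro x y
  simp only [Matrix.sub_mulVec, ← Matrix.mulVec_mulVec, hX, hY, Matrix.mulVec_add]
  have e1 : ∀ p q r : Fin N → ℂ, br b (p - q) r = br b p r - br b q r := by
    intro p q r
    rw [eq_sub_iff_add_eq, ← br_add_left', sub_add_cancel]
  have e2 : ∀ p q r : Fin N → ℂ, br b p (q - r) = br b p q - br b p r := by
    intro p q r
    rw [eq_sub_iff_add_eq, ← br_add_right', sub_add_cancel]
  rw [e1, e2]
  abel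

variable (b) in
/-- The Lie algebra of derivations. -/
def DerL : LieSubalgebra ℂ (Matrix (Fin N) (Fin N) ℂ) where
  toSubmodule := Der b
  lie_mem' := by
    intro X Y hX hY
    rw [Ring.lie_def]
    exact comm_mem_Der hX hY

theorem mem_DerL (X : Matrix (Fin N) (Fin N) ℂ) : X ∈ DerL b ↔ X ∈ Der b := Iff.rfl

variable (b) in
/-- The ideal of inner derivations. -/
def innI : LieIdeal ℂ (DerL b) where
  toSubmodule := (LinearMap.range (admL b)).comap (DerL b).toSubmodule.subtype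
  lie_mem := by
    intro X m hm
    obtain ⟨u, hu⟩ := hm
    refine ⟨(X : Matrix (Fin N) (Fin N) ℂ) *ᵥ u, ?_⟩
    rw [admL_apply, ← comm_adm X.2 u, ← admL_apply, hu]
    rfl

theorem mem_innI (X : DerL b) :
    X ∈ innI b ↔ ∃ u, adm b u = (X : Matrix (Fin N) (Fin N) ℂ) := Iff.rfl

end helpers1751

/- Proof (plain words). Let `𝔇 = Der b` (a Lie subalgebra of the matrices under the commutator), `ii = {adm b u}`, a Lie ideal of `𝔇`
(`[D, adm b u] = adm b (D u)` for `D ∈ Der b`; `adm b u ∈ Der b` by Jacobi). All elements of `𝔇` are nilpotent matrices, so `ad D` is nilpotent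
(`LieAlgebra.isNilpotent_ad_of_isNilpotent`) and `𝔇` is a nilpotent Lie algebra by Engel's theorem; so is `𝔇 / ii`. The two given elements are independent modulo
`ii`, so `𝔇 / ii` has dimension at least 2; apply `exists_functionals` to `𝔇 / ii`, lift the vectors, pull the functionals back to `𝔇` and extend them
linearly to all matrices (`LinearMap.exists_extend`). -/

theorem exists_pair_of_indep {N : ℕ} (b : Fin N → Fin N → Fin N → ℂ) (hb : IsLieC b)
    (hS : ∀ D ∈ Der b, IsNilpotent D) (E₁ E₂ : Matrix (Fin N) (Fin N) ℂ) (hE₁ : E₁ ∈ Der b) (hE₂ : E₂ ∈ Der b)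
    (hind : ∀ (p q : ℂ) (u : Fin N → ℂ), p • E₁ + q • E₂ = adm b u → p = 0 ∧ q = 0) :
    ∃ D₁ ∈ Der b, ∃ D₂ ∈ Der b, ∃ χ₁ χ₂ : Matrix (Fin N) (Fin N) ℂ →ₗ[ℂ] ℂ,
      (∀ X ∈ Der b, ∀ Y ∈ Der b, χ₁ (X * Y - Y * X) = 0) ∧ (∀ u, χ₁ (adm b u) = 0) ∧
      (∀ X ∈ Der b, ∀ Y ∈ Der b, χ₂ (X * Y - Y * X) = 0) ∧ (∀ u, χ₂ (adm b u) = 0) ∧
      χ₁ D₁ = 1 ∧ χ₁ D₂ = 0 ∧ χ₂ D₁ = 0 ∧ χ₂ D₂ = 1 := by
  classical
  -- Engel
  have hnil : LieRing.IsNilpotent (DerL b) := by
    rw [LieAlgebra.isNilpotent_iff_forall (R := ℂ)]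
    intro X
    have h1 : IsNilpotent (X : Matrix (Fin N) (Fin N) ℂ) := hS X.1 X.2
    exact LieAlgebra.isNilpotent_ad_of_isNilpotent (R := ℂ) h1
  let Q := (DerL b) ⧸ innI b
  let qh : DerL b →ₗ⁅ℂ⁆ Q :=
    { (LieSubmodule.Quotient.mk' (innI b) : DerL b →ₗ[ℂ] Q) with
      map_lie' := fun {x y} => rfl }
  have hqs : Function.Surjective qh := LieSubmodule.Quotient.surjective_mk' (innI b)
  have hnilQ : LieRing.IsNilpotent Q := hqs.lieAlgebra_isNilpotent
  have hdim : 2 ≤ finrank ℂ Q := by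
    let F₁ : DerL b := ⟨E₁, hE₁⟩
    let F₂ : DerL b := ⟨E₂, hE₂⟩
    let e₁ : Q := LieSubmodule.Quotient.mk' (innI b) F₁
    let e₂ : Q := LieSubmodule.Quotient.mk' (innI b) F₂
    have hli : LinearIndependent ℂ ![e₁, e₂] := by
      rw [LinearIndependent.pair_iff]
      intro p q h
      have h0 : LieSubmodule.Quotient.mk' (innI b) (p • F₁ + q • F₂) = 0 := by
        rw [map_add, map_smul, map_smul]; exact h
      rw [LieSubmodule.Quotient.mk_eq_zero] at h0
      obtain ⟨u, hu⟩ := h0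
      exact hind p q u hu.symm
    have := hli.fintype_card_le_finrank
    simpa using this
  obtain ⟨x₁, x₂, χ₁, χ₂, hχ₁, hχ₂, h11, h12, h21, h22⟩ := exists_functionals (k := ℂ) (L := Q) hdim
  obtain ⟨D₁, rfl⟩ := LieSubmodule.Quotient.surjective_mk' (innI b) x₁
  obtain ⟨D₂, rfl⟩ := LieSubmodule.Quotient.surjective_mk' (innI b) x₂
  let π : (DerL b).toSubmodule →ₗ[ℂ] Q := (LieSubmodule.Quotient.mk' (innI b) : DerL b →ₗ[ℂ] Q)
  obtain ⟨ψ₁, hψ₁⟩ := LinearMap.exists_extend (χ₁ ∘ₗ π)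
  obtain ⟨ψ₂, hψ₂⟩ := LinearMap.exists_extend (χ₂ ∘ₗ π)
  have key₁ : ∀ X : DerL b, ψ₁ (X : Matrix (Fin N) (Fin N) ℂ) = χ₁ (LieSubmodule.Quotient.mk' (innI b) X) := 
    fun X => LinearMap.congr_fun hψ₁ X
  have key₂ : ∀ X : DerL b, ψ₂ (X : Matrix (Fin N) (Fin N) ℂ) = χ₂ (LieSubmodule.Quotient.mk' (innI b) X) := 
    fun X => LinearMap.congr_fun hψ₂ X
  refine ⟨D₁.1, D₁.2, D₂.1, D₂.2, ψ₁, ψ₂, ?_, ?_, ?_, ?_, ?_, ?_, ?_, ?_⟩
  · intro X hX Y hY
    have := key₁ ⁅(⟨X, hX⟩ : DerL b), (⟨Y, hY⟩ : DerL b)⁆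
    rw [LieSubalgebra.coe_bracket, Ring.lie_def] at this
    rw [this]
    exact hχ₁ (LieSubmodule.Quotient.mk' (innI b) ⟨X, hX⟩) (LieSubmodule.Quotient.mk' (innI b) ⟨Y, hY⟩)
  · intro u
    have := key₁ ⟨adm b u, adm_mem_Der hb u⟩
    rw [this]
    have h0 : LieSubmodule.Quotient.mk' (innI b) (⟨adm b u, adm_mem_Der hb u⟩ : DerL b) = 0 := by
      rw [LieSubmodule.Quotient.mk_eq_zero]
      exact ⟨u, rfl⟩
    rw [h0, map_zero]
  · intro X hX Y hY
    have := key₂ ⁅(⟨X, hX⟩ : DerL b), (⟨Y, hY⟩ : DerL b)⁆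
    rw [LieSubalgebra.coe_bracket, Ring.lie_def] at this
    rw [this]
    exact hχ₂ (LieSubmodule.Quotient.mk' (innI b) ⟨X, hX⟩) (LieSubmodule.Quotient.mk' (innI b) ⟨Y, hY⟩)
  · intro u
    have := key₂ ⟨adm b u, adm_mem_Der hb u⟩
    rw [this]
    have h0 : LieSubmodule.Quotient.mk' (innI b) (⟨adm b u, adm_mem_Der hb u⟩ : DerL b) = 0 := by
      rw [LieSubmodule.Quotient.mk_eq_zero]
      exact ⟨u, rfl⟩
    rw [h0, map_zero]
  · rw [key₁]; exact h11
  · rw [key₁]; exact h12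
  · rw [key₂]; exact h21
  · rw [key₂]; exact h22

end Pool.Agent.Helper610_Vergne.Quot

namespace Pool.Agent.Helper610_Vergne

export Quot (exists_pair_of_indep)

end Pool.Agent.Helper610_Vergne
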