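import Pool.Agent.Helper610_Vergne.Basic
import Pool.Agent.Helper610_Vergne.Quot

/-!
# Two outer derivations of a hyperplane ideal
-/

set_option autoImplicit false

namespace Pool.Agent.Helper610_Vergne

open Matrix Module

variable {N : ℕ} (c : Fin (N + 1) → Fin (N + 1) → Fin (N + 1) → ℂ)

/-- the condition of Step 1 -/
def AllNil : Prop := ∀ (β : Fin (N + 1) → ℂ) (j : Fin (N + 1)), β j = 1 → Ann c β →
  ∀ D ∈ Der (chart c β j), IsNilpotent D

theorem ann_smul {n : ℕ} {c : Fin n → Fin n → Fin n → ℂ} {β : Fin n → ℂ} (h : Ann c β) (r : ℂ) :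
    Ann c (r • β) := by
  intro i j
  have := h i j
  simp only [Pi.smul_apply, smul_eq_mul, mul_assoc, ← Finset.mul_sum, this, mul_zero]

theorem ann_add {n : ℕ} {c : Fin n → Fin n → Fin n → ℂ} {β γ : Fin n → ℂ} (h : Ann c β)
    (h' : Ann c γ) : Ann c (β + γ) := by
  intro i j
  have h1 := h i j
  have h2 := h' i j
  simp only [Pi.add_apply, add_mul, Finset.sum_add_distrib, h1, h2, add_zero]

/-- Derivations of hyperplane ideals given by linear maps are nilpotent on the hyperplane. -/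
theorem nil_of_linear (hS : AllNil c) (β : Fin (N + 1) → ℂ) (hβ0 : β ≠ 0) (hA : Ann c β)
    (F : (Fin (N + 1) → ℂ) →ₗ[ℂ] (Fin (N + 1) → ℂ)) (hF : ∀ x, β ⬝ᵥ x = 0 → β ⬝ᵥ F x = 0)
    (hD : ∀ x y, β ⬝ᵥ x = 0 → β ⬝ᵥ y = 0 → F (br c x y) = br c (F x) y + br c x (F y))
    (x : Fin (N + 1) → ℂ) (hx : β ⬝ᵥ x = 0) : ∃ m : ℕ, (F ^ m) x = 0 := by
  obtain ⟨j, hj⟩ : ∃ j, β j ≠ 0 := by
    by_contra hcon
    push Not at hcon
    exact hβ0 (funext hcon)
  set β' : Fin (N + 1) → ℂ := (β j)⁻¹ • β with hβ'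
  have hβ'1 : β' j = 1 := by
    rw [hβ', Pi.smul_apply, smul_eq_mul, inv_mul_cancel₀ hj]
  have hker : ∀ y, β ⬝ᵥ y = 0 ↔ β' ⬝ᵥ y = 0 := by
    intro y
    rw [hβ', smul_dotProduct, smul_eq_mul, mul_eq_zero, inv_eq_zero]
    simp [hj]
  have hA' : Ann c β' := ann_smul hA _
  set D : Matrix (Fin N) (Fin N) ℂ :=
    LinearMap.toMatrix' (forget j ∘ₗ F ∘ₗ lftL β' j) with hDdef
  have hDu : ∀ u, lft β' j (D *ᵥ u) = F (lft β' j u) := by
    intro u
    have h1 : D *ᵥ u = fun i => F (lft β' j u) (j.succAbove i) := by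
      rw [hDdef, LinearMap.toMatrix'_mulVec]
      rfl
    rw [h1]
    apply eq_lft β' j hβ'1
    rw [← hker]
    apply hF
    rw [hker]
    exact dot_lft β' j hβ'1 u
  have hDder : D ∈ Der (chart c β' j) := by
    rw [mem_Der]
    intro u v
    apply lft_inj β' j
    rw [hDu, lft_br c β' j hβ'1 hA', lft_add, lft_br c β' j hβ'1 hA', lft_br c β' j hβ'1 hA', hDu,
      hDu]
    apply hD
    · rw [hker]; exact dot_lft β' j hβ'1 u
    · rw [hker]; exact dot_lft β' j hβ'1 v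
  obtain ⟨m, hm⟩ := hS β' j hβ'1 hA' D hDder
  refine ⟨m, ?_⟩
  have hpow : ∀ (k : ℕ) (u : Fin N → ℂ), (F ^ k) (lft β' j u) = lft β' j ((D ^ k) *ᵥ u) := by
    intro k
    induction k with
    | zero => intro u; simp
    | succ k ih =>
      intro u
      rw [pow_succ, Module.End.mul_apply, ← hDu, ih, pow_succ, ← Matrix.mulVec_mulVec]
  have hx' : lft β' j (fun i => x (j.succAbove i)) = x := eq_lft β' j hβ'1 x ((hker x).1 hx)
  rw [← hx', hpow, hm, Matrix.zero_mulVec]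
  exact (lftL β' j).map_zero

/-- Lemma A. -/
theorem lemmaA (hc : IsLieC c) (hS : AllNil c) (β γ : Fin (N + 1) → ℂ) (hβ : Ann c β)
    (hγ : Ann c γ) (hind : ∀ p q : ℂ, p • β + q • γ = 0 → p = 0 ∧ q = 0)
    (v : Fin (N + 1) → ℂ) (hv : ∀ u, β ⬝ᵥ u = 0 → γ ⬝ᵥ u = 0 → br c v u = 0) :
    β ⬝ᵥ v = 0 := by
  by_contra hne
  set ε : Fin (N + 1) → ℂ := (β ⬝ᵥ v)⁻¹ • β with hε
  have hεv : ε ⬝ᵥ v = 1 := by
    rw [hε, smul_dotProduct, smul_eq_mul, inv_mul_cancel₀ hne]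
  have hεA : Ann c ε := ann_smul hβ _
  set β' : Fin (N + 1) → ℂ := (γ ⬝ᵥ v) • β + (-(β ⬝ᵥ v)) • γ with hβ'
  have hβ'A : Ann c β' := ann_add (ann_smul hβ _) (ann_smul hγ _)
  have hβ'0 : β' ≠ 0 := by
    intro h
    have := (hind _ _ h).2
    exact hne (neg_eq_zero.1 this)
  have hβ'v : β' ⬝ᵥ v = 0 := by
    rw [hβ', add_dotProduct, smul_dotProduct, smul_dotProduct]
    simp only [smul_eq_mul]
    ring
  have hkey : ∀ y, β' ⬝ᵥ y = 0 → br c v y = 0 := by
    intro y hy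
    have h1 : br c v (y - (ε ⬝ᵥ y) • v) = 0 := by
      apply hv
      · rw [dotProduct_sub, dotProduct_smul, hε, smul_dotProduct]
        simp only [smul_eq_mul]
        field_simp
        ring
      · rw [dotProduct_sub, dotProduct_smul, hε, smul_dotProduct]
        rw [hβ', add_dotProduct, smul_dotProduct, smul_dotProduct] at hy
        simp only [smul_eq_mul] at hy ⊢
        field_simp
        linear_combination -hy
    rw [br_sub_right, br_smul_right, hc.1 v, smul_zero, sub_zero] at h1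
    exact h1
  set F : (Fin (N + 1) → ℂ) →ₗ[ℂ] (Fin (N + 1) → ℂ) :=
    { toFun := fun x => (ε ⬝ᵥ x) • v
      map_add' := fun x y => by rw [dotProduct_add, add_smul]
      map_smul' := fun r x => by
        rw [dotProduct_smul, smul_eq_mul, mul_smul, RingHom.id_apply] } with hF
  have hFx : ∀ x, F x = (ε ⬝ᵥ x) • v := fun x => rfl
  obtain ⟨m, hm⟩ := nil_of_linear c hS β' hβ'0 hβ'A F
    (fun x _ => by rw [hFx, dotProduct_smul, hβ'v, smul_zero])
    (fun x y hx hy => by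
      rw [hFx, hFx, hFx, hεA.dot, zero_smul, br_smul_left, br_smul_right, hkey y hy,
        br_swap c hc.1 x v, hkey x hx]
      simp)
    v hβ'v
  have hpow : ∀ k : ℕ, (F ^ k) v = v := by
    intro k
    induction k with
    | zero => simp
    | succ k ih => rw [pow_succ, Module.End.mul_apply, hFx, hεv, one_smul, ih]
  rw [hpow] at hm
  rw [hm, dotProduct_zero] at hεv
  exact zero_ne_one hεv

theorem lemmaA' (hc : IsLieC c) (hS : AllNil c) (β γ : Fin (N + 1) → ℂ) (hβ : Ann c β)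
    (hγ : Ann c γ) (hind : ∀ p q : ℂ, p • β + q • γ = 0 → p = 0 ∧ q = 0)
    (v : Fin (N + 1) → ℂ) (hv : ∀ u, β ⬝ᵥ u = 0 → γ ⬝ᵥ u = 0 → br c v u = 0) :
    β ⬝ᵥ v = 0 ∧ γ ⬝ᵥ v = 0 := by
  refine ⟨lemmaA c hc hS β γ hβ hγ hind v hv, ?_⟩
  refine lemmaA c hc hS γ β hγ hβ (fun p q h => ?_) v (fun u h1 h2 => hv u h2 h1)
  rw [add_comm (p • γ)] at h
  exact (hind q p h).symm

/-- A second functional vanishing on products, and a vector. -/
theorem exists_second (hN : 1 ≤ N) (hc : IsLieC c) (hn : Nil c) (α : Fin (N + 1) → ℂ) :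
    ∃ γ y : Fin (N + 1) → ℂ, Ann c γ ∧ α ⬝ᵥ y = 0 ∧ γ ⬝ᵥ y = 1 := by
  obtain ⟨x₁, x₂, χ₁, χ₂, h1, h2, h11, h12, h21, h22⟩ :=
    exists_functionals_c (by omega : 2 ≤ N + 1) c hc hn
  by_cases h : α ⬝ᵥ x₁ = 0
  · exact ⟨χ₁, x₁, h1, h, h11⟩
  · refine ⟨χ₂, x₂ - ((α ⬝ᵥ x₂) * (α ⬝ᵥ x₁)⁻¹) • x₁, h2, ?_, ?_⟩
    · rw [dotProduct_sub, dotProduct_smul, smul_eq_mul, mul_assoc, inv_mul_cancel₀ h, mul_one,
        sub_self]
    · rw [dotProduct_sub, dotProduct_smul]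
      change (∑ i, χ₂ i * x₂ i) - _ • (∑ i, χ₂ i * x₁ i) = 1
      rw [h22, h21, smul_zero, sub_zero]

/-- Steps 2 and 3 -/
theorem exists_pair (hN : 1 ≤ N) (hc : IsLieC c) (hn : Nil c)
    (hS : ∀ (β : Fin (N + 1) → ℂ) (j : Fin (N + 1)), β j = 1 → Ann c β →
      ∀ D ∈ Der (chart c β j), IsNilpotent D)
    (α : Fin (N + 1) → ℂ) (j : Fin (N + 1)) (hα : α j = 1) (hA : Ann c α) :
    ∃ D₁ ∈ Der (chart c α j), ∃ D₂ ∈ Der (chart c α j),
    ∃ χ₁ χ₂ : Matrix (Fin N) (Fin N) ℂ →ₗ[ℂ] ℂ,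
      (∀ X ∈ Der (chart c α j), ∀ Y ∈ Der (chart c α j), χ₁ (X * Y - Y * X) = 0) ∧
      (∀ u, χ₁ (adm (chart c α j) u) = 0) ∧
      (∀ X ∈ Der (chart c α j), ∀ Y ∈ Der (chart c α j), χ₂ (X * Y - Y * X) = 0) ∧
      (∀ u, χ₂ (adm (chart c α j) u) = 0) ∧
      χ₁ D₁ = 1 ∧ χ₁ D₂ = 0 ∧ χ₂ D₁ = 0 ∧ χ₂ D₂ = 1 := by
  obtain ⟨γ, y, hγ, hαy, hγy⟩ := exists_second c hN hc hn α
  have hαj : α ⬝ᵥ (Pi.single j 1) = 1 := by
    rw [dotProduct_single, mul_one, hα]
  have hind : ∀ p q : ℂ, p • α + q • γ = 0 → p = 0 ∧ q = 0 := by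
    intro p q h
    have h1 : (p • α + q • γ) ⬝ᵥ y = 0 := by rw [h, zero_dotProduct]
    rw [add_dotProduct, smul_dotProduct, smul_dotProduct, hαy, hγy] at h1
    simp only [smul_eq_mul, mul_zero, mul_one, zero_add] at h1
    have h2 : (p • α + q • γ) ⬝ᵥ (Pi.single j 1) = 0 := by rw [h, zero_dotProduct]
    rw [add_dotProduct, smul_dotProduct, smul_dotProduct, hαj, h1] at h2
    simp only [smul_eq_mul, zero_mul, mul_one, add_zero] at h2
    exact ⟨h2, h1⟩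
  -- the centraliser
  set Z : Set (Fin (N + 1) → ℂ) := {v | ∀ u, α ⬝ᵥ u = 0 → γ ⬝ᵥ u = 0 → br c v u = 0} with hZ
  have hZl : ∀ v ∈ Z, α ⬝ᵥ v = 0 ∧ γ ⬝ᵥ v = 0 := fun v hv =>
    lemmaA' c hc hS α γ hA hγ hind v hv
  have hZy : ∀ v ∈ Z, br c y v ∈ Z := by
    intro v hv u hu1 hu2
    have hJ := hc.2 y v u
    have h1 : br c v u = 0 := hv u hu1 hu2
    have h2 : br c v (br c u y) = 0 := hv _ (hA.dot _ _) (hγ.dot _ _)
    rw [h1, br_zero_right, h2, zero_add, zero_add] at hJ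
    rw [br_swap c hc.1, hJ, neg_zero]
  obtain ⟨m, hmZ, hm⟩ : ∃ m ∈ Z, ∀ z ∈ Z, br c y z ≠ m := by
    by_contra hcon
    push Not at hcon
    obtain ⟨z₀, hz₀, hz₀c⟩ := exists_center (by omega : 1 ≤ N + 1) c hc hn
    have hz₀Z : z₀ ∈ Z := fun u _ _ => hz₀c u
    obtain ⟨k, hk⟩ := hn y
    have hsurj : ∀ (k : ℕ), ∀ m ∈ Z, ∃ z ∈ Z, (br c y)^[k] z = m := by
      intro k
      induction k with
      | zero => intro m hm; exact ⟨m, hm, rfl⟩
      | succ k ih =>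
        intro m hm
        obtain ⟨z, hz, hzm⟩ := ih m hm
        obtain ⟨z', hz', hzz'⟩ := hcon z hz
        refine ⟨z', hz', ?_⟩
        rw [Function.iterate_succ_apply, hzz', hzm]
    obtain ⟨z, _, hz⟩ := hsurj k z₀ hz₀Z
    rw [hk] at hz
    exact hz₀ hz.symm
  obtain ⟨hmα, hmγ⟩ := hZl m hmZ
  -- products with `m` on the hyperplane
  have hprod : ∀ u, α ⬝ᵥ u = 0 → br c m u = (γ ⬝ᵥ u) • br c m y := by
    intro u hu
    have h1 : br c m (u - (γ ⬝ᵥ u) • y) = 0 := by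
      apply hmZ
      · rw [dotProduct_sub, dotProduct_smul, hαy, hu, smul_zero, sub_zero]
      · rw [dotProduct_sub, dotProduct_smul, hγy, smul_eq_mul, mul_one, sub_self]
    rw [br_sub_right, br_smul_right] at h1
    exact sub_eq_zero.1 h1
  -- the second derivation
  set G : (Fin (N + 1) → ℂ) →ₗ[ℂ] (Fin (N + 1) → ℂ) :=
    { toFun := fun x => (γ ⬝ᵥ x) • m
      map_add' := fun x y => by rw [dotProduct_add, add_smul]
      map_smul' := fun r x => by
        rw [dotProduct_smul, smul_eq_mul, mul_smul, RingHom.id_apply] } with hG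
  have hGx : ∀ x, G x = (γ ⬝ᵥ x) • m := fun x => rfl
  set E : Matrix (Fin N) (Fin N) ℂ :=
    LinearMap.toMatrix' (forget j ∘ₗ G ∘ₗ lftL α j) with hE
  have hEu : ∀ u, lft α j (E *ᵥ u) = (γ ⬝ᵥ lft α j u) • m := by
    intro u
    have h1 : E *ᵥ u = fun i => ((γ ⬝ᵥ lft α j u) • m) (j.succAbove i) := by
      rw [hE, LinearMap.toMatrix'_mulVec]
      rfl
    rw [h1]
    apply eq_lft α j hα
    rw [dotProduct_smul, hmα, smul_zero]
  have hEder : E ∈ Der (chart c α j) := by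
    rw [mem_Der]
    intro u v
    apply lft_inj α j
    rw [hEu, lft_br c α j hα hA, lft_add, lft_br c α j hα hA, lft_br c α j hα hA, hEu, hEu,
      hγ.dot, zero_smul, br_smul_left, br_smul_right, hprod _ (dot_lft α j hα v),
      br_swap c hc.1 (lft α j u) m, hprod _ (dot_lft α j hα u), smul_neg, smul_smul, smul_smul,
      mul_comm, add_neg_cancel]
  refine exists_pair_of_indep (chart c α j) (chart_lie c hc α j hα hA)
    (fun D hD => hS α j hα hA D hD) (adj c α j) E (adj_der c hc α j hα hA) hEder ?_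
  intro p q u hpq
  have hadm : ∀ w, adm (chart c α j) u *ᵥ w = br (chart c α j) u w := by
    intro w
    funext k
    simp only [mulVec, dotProduct, adm, Matrix.of_apply, br, Finset.sum_mul]
    rw [Finset.sum_comm]
    refine Finset.sum_congr rfl fun a _ => Finset.sum_congr rfl fun i _ => ?_
    ring
  have hkey : ∀ w, br c (p • Pi.single j 1 - lft α j u) (lft α j w) =
      -((q * (γ ⬝ᵥ lft α j w)) • m) := by
    intro w
    have h1 : lft α j ((p • adj c α j + q • E) *ᵥ w) = lft α j (br (chart c α j) u w) := by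
      rw [hpq, hadm]
    rw [Matrix.add_mulVec, Matrix.smul_mulVec, Matrix.smul_mulVec, lft_add, lft_smul, lft_smul,
      lft_adj c α j hα hA, hEu, lft_br c α j hα hA] at h1
    rw [br_sub_left, br_smul_left, ← h1, smul_smul]
    abel
  have hkey' : ∀ w, α ⬝ᵥ w = 0 → br c (p • Pi.single j 1 - lft α j u) w =
      -((q * (γ ⬝ᵥ w)) • m) := by
    intro w hw
    have := hkey (fun i => w (j.succAbove i))
    rw [eq_lft α j hα w hw] at this
    exact this
  have hvZ : (p • Pi.single j 1 - lft α j u) ∈ Z := by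
    intro w hw1 hw2
    rw [hkey' w hw1, hw2, mul_zero, zero_smul, neg_zero]
  have hp : p = 0 := by
    have := (hZl _ hvZ).1
    rw [dotProduct_sub, dotProduct_smul, hαj, dot_lft α j hα, smul_eq_mul, mul_one,
      sub_zero] at this
    exact this
  refine ⟨hp, ?_⟩
  by_contra hq
  apply hm (q⁻¹ • (p • Pi.single j 1 - lft α j u))
  · intro w hw1 hw2
    rw [br_smul_left, hvZ w hw1 hw2, smul_zero]
  · rw [br_smul_right, br_swap c hc.1 y, hkey' y hαy, hγy, mul_one, neg_neg, smul_smul,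
      inv_mul_cancel₀ hq, one_smul]

end Pool.Agent.Helper610_Vergne
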